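import Pool.Agent.SYS.A.DecM

/-!
# SYS-A-NuA: relation to the gluings of the project SST

PROOF. `tot_three`: `SST.T.tot_fin`; its sum over `Inv univ` is the sum over the gluings of `Fin b × Fin 3`, which is the value of `tot (fun _ : Fin b => 3)` (`Equiv.sigmaEquivProd`; `phi b` corresponds to `rot`, `vn = cyc` as no `p i = 0`), and
`totM (replicate b 3) = tot (fun _ : Fin b => 3)` (`tot_eq`). `con_three`: both `con (Fin (3 b))` (by `SST.T.tot_rec`, `SST.T.tot_zero` and the vanishing when `3` does not divide the number of darts, `SST/T/Rec.lean`) and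
`conM (replicate b 3)` (by `totM_cons`, `conv_replicate` with `P = 0`) are determined by `tot` through the same recursion: strong induction on `b`. (Compare the proof of `Hs_mul` in `SST/T/Hser.lean`.)
-/

namespace SYS.A

private theorem nua_cyc {E D : Type} (e : E ≃ D) (σ : Equiv.Perm E) (τ : Equiv.Perm D)
    (h : ∀ z, τ (e z) = e (σ z)) : SST.T.cyc τ = SST.T.cyc σ := by
  have hτ : τ = e.permCongrHom σ := by
    ext y
    obtain ⟨z, rfl⟩ := e.surjective y
    rw [h z]
    simp [Equiv.permCongrHom]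
  have hz : ∀ (k : ℤ) (z : E), (τ ^ k) (e z) = e ((σ ^ k) z) := by
    intro k z
    rw [hτ, ← map_zpow]
    simp [Equiv.permCongrHom]
  unfold SST.T.cyc
  refine (Nat.card_congr (Quotient.congr e ?_)).symm
  intro y z
  show Equiv.Perm.SameCycle σ y z ↔ Equiv.Perm.SameCycle τ (e y) (e z)
  constructor
  · rintro ⟨k, hk⟩
    exact ⟨k, by rw [hz, hk]⟩
  · rintro ⟨k, hk⟩
    refine ⟨k, e.injective ?_⟩
    rw [← hz, hk]

private theorem nua_three (f : ℕ → ℚ) (n : ℕ) : ∑ k ∈ Finset.range (3 * n), f k =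
    ∑ i ∈ Finset.range n, (f (3 * i) + f (3 * i + 1) + f (3 * i + 2)) := by
  induction n with
  | zero => simp
  | succ n ih =>
    have e : 3 * (n + 1) = 3 * n + 1 + 1 + 1 := by ring
    rw [e, Finset.sum_range_succ, Finset.sum_range_succ, Finset.sum_range_succ, ih,
      Finset.sum_range_succ]
    ring

private theorem nua_rec (T C : ℕ → ℚ) (hrec : ∀ m : ℕ, T (m + 1) =
    ∑ k ∈ Finset.range (m + 1), (m.choose k : ℚ) * C (k + 1) * T (m - k))
    (hC : ∀ m, ¬ 3 ∣ m → C m = 0) (b : ℕ) :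
    ((b + 1 : ℕ) : ℚ) * (T (3 * (b + 1)) / ((3 * (b + 1)).factorial : ℚ)) =
      ∑ i ∈ Finset.range (b + 1), ((i + 1 : ℕ) : ℚ) *
        (C (3 * (i + 1)) / ((3 * (i + 1)).factorial : ℚ)) *
          (T (3 * (b - i)) / ((3 * (b - i)).factorial : ℚ)) := by
  have h1 := hrec (3 * b + 2)
  have e1 : 3 * b + 2 + 1 = 3 * (b + 1) := by ring
  rw [e1, nua_three] at h1
  have h2 : ∀ i ∈ Finset.range (b + 1),
      (((3 * b + 2).choose (3 * i) : ℚ) * C (3 * i + 1) * T (3 * b + 2 - 3 * i) +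
      ((3 * b + 2).choose (3 * i + 1) : ℚ) * C (3 * i + 1 + 1) * T (3 * b + 2 - (3 * i + 1)) +
      ((3 * b + 2).choose (3 * i + 2) : ℚ) * C (3 * i + 2 + 1) * T (3 * b + 2 - (3 * i + 2))) =
      ((3 * b + 2).factorial : ℚ) * 3 * (((i + 1 : ℕ) : ℚ) *
        (C (3 * (i + 1)) / ((3 * (i + 1)).factorial : ℚ)) *
          (T (3 * (b - i)) / ((3 * (b - i)).factorial : ℚ))) := by
    intro i hi
    rw [Finset.mem_range] at hi
    have k1 : 3 * b + 2 - (3 * i + 2) = 3 * (b - i) := by omega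
    have k2 : 3 * i + 2 + 1 = 3 * (i + 1) := by ring
    rw [hC (3 * i + 1) (by omega), hC (3 * i + 1 + 1) (by omega), k1, k2,
      Nat.cast_choose ℚ (by omega : 3 * i + 2 ≤ 3 * b + 2), k1]
    have k3 : ((3 * (i + 1)).factorial : ℚ) = 3 * ((i + 1 : ℕ) : ℚ) *
        ((3 * i + 2).factorial : ℚ) := by
      rw [← k2, Nat.factorial_succ]
      push_cast
      ring
    rw [k3]
    have k4 : ((3 * i + 2).factorial : ℚ) ≠ 0 := by
      exact_mod_cast Nat.factorial_ne_zero _
    have k5 : ((3 * (b - i)).factorial : ℚ) ≠ 0 := by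
      exact_mod_cast Nat.factorial_ne_zero _
    have k6 : ((i + 1 : ℕ) : ℚ) ≠ 0 := by
      exact_mod_cast Nat.succ_ne_zero i
    field_simp
    ring
  rw [Finset.sum_congr rfl h2, ← Finset.mul_sum] at h1
  have k3 : ((3 * (b + 1)).factorial : ℚ) = 3 * ((b + 1 : ℕ) : ℚ) *
      ((3 * b + 2).factorial : ℚ) := by
    rw [← e1, Nat.factorial_succ]
    push_cast
    ring
  have k4 : ((3 * b + 2).factorial : ℚ) ≠ 0 := by
    exact_mod_cast Nat.factorial_ne_zero _
  have k6 : ((b + 1 : ℕ) : ℚ) ≠ 0 := by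
    exact_mod_cast Nat.succ_ne_zero b
  rw [h1, k3]
  field_simp

private theorem nua_tot (b : ℕ) (x : ℚ) : (tot (fun _ : Fin b => 3)).eval x =
    ∑ α ∈ SST.T.Inv (Finset.univ : Finset (Fin b × Fin 3)), x ^ SST.T.cyc (SST.T.phi b * α) := by
  classical
  have _ : Fintype (Glu (Dt (fun _ : Fin b => 3))) := Fintype.ofFinite _
  unfold tot
  rw [finsum_eq_sum_of_fintype, Polynomial.eval_finsetSum]
  have hmem : ∀ a : Equiv.Perm (Fin b × Fin 3), a ∈ SST.T.Inv (Finset.univ : Finset (Fin b × Fin 3)) ↔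
      (∀ d, a (a d) = d) ∧ ∀ d, a d ≠ d := by
    intro a
    simp [SST.T.Inv]
  refine Finset.sum_bij' (fun α _ => (Equiv.sigmaEquivProd (Fin b) (Fin 3)).permCongr α.1)
    (fun β hβ => ⟨(Equiv.sigmaEquivProd (Fin b) (Fin 3)).symm.permCongr β, ?_, ?_⟩) ?_ ?_ ?_ ?_ ?_
  · intro d
    have h1 := ((hmem β).1 hβ).1
    simp [Equiv.permCongr_apply, h1]
  · intro d hd
    have h1 := ((hmem β).1 hβ).2
    rw [Equiv.permCongr_apply, Equiv.symm_symm, Equiv.symm_apply_eq] at hd
    exact h1 _ hd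
  · intro α _
    rw [hmem]
    refine ⟨fun d => ?_, fun d hd => ?_⟩
    · simp [Equiv.permCongr_apply, α.2.1]
    · rw [Equiv.permCongr_apply, ← Equiv.eq_symm_apply] at hd
      exact α.2.2 _ hd
  · intro β _
    exact Finset.mem_univ _
  · intro α _
    apply Subtype.ext
    ext d
    · simp [Equiv.permCongr_apply]
    · simp [Equiv.permCongr_apply]
  · intro β _
    ext d
    · simp [Equiv.permCongr_apply]
    · simp [Equiv.permCongr_apply]
  · intro α _
    rw [Polynomial.eval_pow, Polynomial.eval_X]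
    congr 1
    have h0 : Nat.card {i : Fin b // (fun _ : Fin b => 3) i = 0} = 0 := by
      have : IsEmpty {i : Fin b // (fun _ : Fin b => 3) i = 0} := ⟨fun i => by
        have := i.2
        simp at this⟩
      exact Nat.card_of_isEmpty
    unfold vn
    rw [h0, add_zero]
    refine (nua_cyc (Equiv.sigmaEquivProd (Fin b) (Fin 3)) _ _ fun z => ?_).symm
    rw [Equiv.Perm.mul_apply, Equiv.permCongr_apply, Equiv.symm_apply_apply, Equiv.Perm.mul_apply]
    rfl

theorem tot_three (b : ℕ) (x : ℚ) : SST.T.tot (Fin (3 * b)) x =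
    (((3 * b).factorial : ℚ) / (3 ^ b * b.factorial)) * (totM (Multiset.replicate b 3)).eval x := by
  have h1 : totM (Multiset.replicate b 3) = tot (fun _ : Fin b => 3) := by
    rw [tot_eq (fun _ : Fin b => 3), Multiset.map_const', Finset.card_val, Finset.card_univ, Fintype.card_fin]
  rw [SST.T.tot_fin, h1, nua_tot]

private theorem nua_M (b : ℕ) (x : ℚ) : (totM (Multiset.replicate (b + 1) 3)).eval x =
    ∑ i ∈ Finset.range (b + 1), (b.choose i : ℚ) * (conM (Multiset.replicate (i + 1) 3)).eval x *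
      (totM (Multiset.replicate (b - i) 3)).eval x := by
  have h1 := totM_cons 3 (Multiset.replicate b 3)
  rw [← Multiset.replicate_succ] at h1
  have h2 := conv_replicate (fun Q => conM (3 ::ₘ Q)) totM 0 3 b
  rw [zero_add] at h2
  rw [h1, h2, Finset.Nat.sum_antidiagonal_eq_sum_range_succ_mk, Polynomial.eval_finsetSum]
  refine Finset.sum_congr rfl fun i _ => ?_
  rw [conv_zero]
  simp only [zero_add, ← Multiset.replicate_succ]
  rw [Polynomial.eval_mul, Polynomial.eval_mul, Polynomial.eval_natCast]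
  ring

theorem con_three (b : ℕ) (hb : 1 ≤ b) (x : ℚ) : SST.T.con (Fin (3 * b)) x =
    (((3 * b).factorial : ℚ) / (3 ^ b * b.factorial)) * (conM (Multiset.replicate b 3)).eval x := by
  obtain ⟨T, hT⟩ : ∃ T : ℕ → ℚ, ∀ n, T n = SST.T.tot (Fin n) x := ⟨_, fun _ => rfl⟩
  obtain ⟨C, hC⟩ : ∃ C : ℕ → ℚ, ∀ n, C n = SST.T.con (Fin n) x := ⟨_, fun _ => rfl⟩
  obtain ⟨t, ht⟩ : ∃ t : ℕ → ℚ, ∀ n, t n = (totM (Multiset.replicate n 3)).eval x := ⟨_, fun _ => rfl⟩
  obtain ⟨k, hk⟩ : ∃ k : ℕ → ℚ, ∀ n, k n = (conM (Multiset.replicate n 3)).eval x := ⟨_, fun _ => rfl⟩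
  have hf : ∀ n : ℕ, ((n.factorial : ℕ) : ℚ) ≠ 0 := fun n => by exact_mod_cast Nat.factorial_ne_zero n
  have h3 : ∀ n : ℕ, ((3 : ℚ) ^ n) ≠ 0 := fun n => pow_ne_zero _ (by norm_num)
  have hTt : ∀ n, T (3 * n) / ((3 * n).factorial : ℚ) = t n / (3 ^ n * n.factorial) := by
    intro n
    rw [hT, tot_three, ht]
    have := hf n
    have := hf (3 * n)
    have := h3 n
    field_simp
  have ht0 : t 0 = 1 := by
    rw [ht, Multiset.replicate_zero, totM_zero, Polynomial.eval_one]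
  have rec1 := fun n => nua_rec T C (fun m => by
      rw [hT, SST.T.tot_rec]
      refine Finset.sum_congr rfl fun k _ => ?_
      rw [hT, hC]) (fun m hm => by rw [hC, SST.T.con_ndvd hm]) n
  have rec2 : ∀ n, ((n + 1 : ℕ) : ℚ) * (t (n + 1) / (3 ^ (n + 1) * (n + 1).factorial)) =
      ∑ i ∈ Finset.range (n + 1), ((i + 1 : ℕ) : ℚ) * (k (i + 1) / (3 ^ (i + 1) * (i + 1).factorial)) *
        (t (n - i) / (3 ^ (n - i) * (n - i).factorial)) := by
    intro n
    have e1 := nua_M n x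
    rw [← ht] at e1
    rw [e1, Finset.sum_div, Finset.mul_sum]
    refine Finset.sum_congr rfl fun i hi => ?_
    rw [← hk, ← ht]
    have hi' : i ≤ n := Nat.lt_succ_iff.1 (Finset.mem_range.1 hi)
    have e2 : (3 : ℚ) ^ (n + 1) = 3 ^ (i + 1) * 3 ^ (n - i) := by
      rw [← pow_add]
      congr 1
      omega
    have e3 : (((n + 1).factorial : ℕ) : ℚ) = ((n + 1 : ℕ) : ℚ) * (n.factorial : ℚ) := by
      rw [Nat.factorial_succ, Nat.cast_mul]
    have e4 : (((i + 1).factorial : ℕ) : ℚ) = ((i + 1 : ℕ) : ℚ) * (i.factorial : ℚ) := by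
      rw [Nat.factorial_succ, Nat.cast_mul]
    rw [Nat.cast_choose ℚ hi', e2, e3, e4]
    have a1 := hf i
    have a2 := hf (n - i)
    have a3 := hf n
    have a4 : ((i + 1 : ℕ) : ℚ) ≠ 0 := by exact_mod_cast Nat.succ_ne_zero i
    have a5 : ((n + 1 : ℕ) : ℚ) ≠ 0 := by exact_mod_cast Nat.succ_ne_zero n
    have a6 := h3 (i + 1)
    have a7 := h3 (n - i)
    field_simp
  have key : ∀ n, C (3 * (n + 1)) / ((3 * (n + 1)).factorial : ℚ) =
      k (n + 1) / (3 ^ (n + 1) * (n + 1).factorial) := by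
    intro n
    induction n using Nat.strong_induction_on with
    | _ n ih =>
      have e1 := rec1 n
      rw [hTt, rec2 n] at e1
      rw [Finset.sum_range_succ, Finset.sum_range_succ, Nat.sub_self, hTt, ht0] at e1
      have e2 : ∑ i ∈ Finset.range n, ((i + 1 : ℕ) : ℚ) *
          (k (i + 1) / (3 ^ (i + 1) * (i + 1).factorial)) *
          (t (n - i) / (3 ^ (n - i) * (n - i).factorial)) =
          ∑ i ∈ Finset.range n, ((i + 1 : ℕ) : ℚ) *
          (C (3 * (i + 1)) / ((3 * (i + 1)).factorial : ℚ)) *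
          (T (3 * (n - i)) / ((3 * (n - i)).factorial : ℚ)) := by
        refine Finset.sum_congr rfl fun i hi => ?_
        rw [ih i (Finset.mem_range.1 hi), hTt]
      rw [e2] at e1
      have a5 : ((n + 1 : ℕ) : ℚ) ≠ 0 := by exact_mod_cast Nat.succ_ne_zero n
      have e3 := add_left_cancel e1
      simp only [pow_zero, Nat.factorial_zero, Nat.cast_one, mul_one, div_one] at e3
      exact (mul_left_cancel₀ a5 e3).symm
  obtain ⟨n, rfl⟩ : ∃ n, b = n + 1 := ⟨b - 1, by omega⟩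
  have e1 := key n
  rw [div_eq_iff (hf _)] at e1
  rw [← hC, ← hk, e1]
  ring

end SYS.A
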