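import Pool.Agent.SYS.A.MuT
import Pool.Agent.SYS.A.NuA

/-!
# SYS-A-Nu: relation to the numbers `nu n g` of the project SST

PROOF. `cp_eq`: `SST.T.cp_eval`, `con_three`, definition of `muP`; polynomials equal at all natural numbers are equal. `nu_mu`: `SST.T.nu_eq`.
-/

namespace SYS.A

theorem cp_eq (b : ℕ) (hb : 1 ≤ b) : SST.T.cp b = muP 0 b := by
  refine Polynomial.funext fun x => ?_
  rw [SST.T.cp_eval, con_three b hb, muP, zero_add, Polynomial.eval_mul, Polynomial.eval_C]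
  have h1 : ((3 * b).factorial : ℚ) ≠ 0 := by
    exact_mod_cast (3 * b).factorial_ne_zero
  have h2 : (b.factorial : ℚ) ≠ 0 := by
    exact_mod_cast b.factorial_ne_zero
  field_simp

theorem nu_mu (n g : ℕ) (hn : 1 ≤ n) (hg : 2 * g ≤ n + 2) :
    SST.nu n g = ((muP 0 (2 * n)).coeff (n + 2 - 2 * g) : ℝ) := by
  rw [SST.T.nu_eq n g hg, cp_eq (2 * n) (by omega)]

end SYS.A
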