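import Pool.Agent.SYS.A.BrA
import Pool.Agent.SYS.A.Nu

/-!
# SYS-A-Br: Tutte's equation etc. for the numbers `mu` of `Pool/Agent/SYS/Defs.lean`

PROOF. `mu_eq` and `MuT`, `Eul`, `Nu` (take coefficients at `V`: `Polynomial.coeff_mul`, `Polynomial.coeff_C_mul`). In `mu_tutte` the splittings are the subsets `K` of `ι` (`conv_subsets`), the sum over `q ∈ P` with `P.erase q` is the sum over `i : ι`; the multiset
of the values of `fun o : Option ι => o.elim k p` is `k ::ₘ univ.val.map p`. `mu_nonneg`: definition. `mu_congr`: `mu_eq` (and the definition in the case `F = 0`, `ι` empty) or directly.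
-/

namespace SYS.A

open Polynomial Classical

private theorem vals_sub {ι κ : Type} [Fintype κ] (p : ι → ℕ) (e : κ → ι)
    (he : Function.Injective e) (s : Finset ι) (hs : ∀ x, x ∈ s ↔ ∃ i, e i = x) :
    (Finset.univ : Finset κ).val.map (fun i => p (e i)) = s.val.map p := by
  have h : s = Finset.univ.map ⟨e, he⟩ := by
    ext x
    rw [hs, Finset.mem_map]
    simp
  rw [h, Finset.map_val, Multiset.map_map]
  rfl

private theorem vals_opt {ι : Type} [Fintype ι] (p : ι → ℕ) (k : ℕ) :
    (Finset.univ : Finset (Option ι)).val.map (fun o : Option ι => o.elim k p) =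
      k ::ₘ (Finset.univ : Finset ι).val.map p := by
  rw [univ_option, Finset.insertNone]
  simp [Multiset.map_map]

private theorem mu_opt {ι : Type} [Fintype ι] (p : ι → ℕ) (k F V : ℕ) :
    mu (fun o : Option ι => o.elim k p) F V =
      (muP (k ::ₘ (Finset.univ : Finset ι).val.map p) F).coeff V := by
  rw [mu_eq _ F V (Or.inl ⟨none⟩), vals_opt]

private theorem mu_mem {ι : Type} [DecidableEq ι] (p : ι → ℕ) (K : Finset ι)
    [Fintype {i // i ∈ K}] (k F V : ℕ) :
    mu (fun o : Option {i // i ∈ K} => o.elim k fun i => p i) F V =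
      (muP (k ::ₘ K.val.map p) F).coeff V := by
  rw [mu_opt (fun i : {i // i ∈ K} => p i), vals_sub p Subtype.val Subtype.val_injective K]
  intro x
  simp

private theorem mu_notMem {ι : Type} [Fintype ι] [DecidableEq ι] (p : ι → ℕ) (K : Finset ι)
    [Fintype {i // i ∉ K}] (k F V : ℕ) :
    mu (fun o : Option {i // i ∉ K} => o.elim k fun i => p i) F V =
      (muP (k ::ₘ Kᶜ.val.map p) F).coeff V := by
  rw [mu_opt (fun i : {i // i ∉ K} => p i), vals_sub p Subtype.val Subtype.val_injective Kᶜ]
  intro x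
  simp

private theorem mu_ne {ι : Type} [Fintype ι] [DecidableEq ι] (p : ι → ℕ) (i : ι)
    [Fintype {j // j ≠ i}] (k F V : ℕ) :
    mu (fun o : Option {j // j ≠ i} => o.elim k fun j => p j) F V =
      (muP (k ::ₘ ((Finset.univ : Finset ι).val.map p).erase (p i)) F).coeff V := by
  have h1 : ((Finset.univ : Finset ι).val.map p).erase (p i) = (Finset.univ.erase i).val.map p := by
    have h2 : (Finset.univ : Finset ι).val = i ::ₘ (Finset.univ.erase i).val := by
      rw [← Finset.insert_val_of_notMem (Finset.notMem_erase i Finset.univ),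
        Finset.insert_erase (Finset.mem_univ i)]
    rw [h2, Multiset.map_cons, Multiset.erase_cons_head]
  rw [mu_opt (fun j : {j // j ≠ i} => p j), h1,
    vals_sub p Subtype.val Subtype.val_injective (Finset.univ.erase i)]
  intro x
  simp

private theorem maps_empty {ι : Type} [IsEmpty ι] (p : ι → ℕ) (V : ℕ) :
    (Maps p 0 V).ncard = if V = 0 then 1 else 0 := by
  have hE : IsEmpty (MD p 0) := by infer_instance
  have hc : ∀ σ : Equiv.Perm (MD p 0), SST.ncyc σ = 0 := by
    intro σ
    unfold SST.ncyc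
    have h : IsEmpty (Quotient (Equiv.Perm.SameCycle.setoid σ)) :=
      ⟨fun q => q.inductionOn (fun x => hE.false x)⟩
    exact Nat.card_of_isEmpty
  split_ifs with hV
  · have h : Maps p 0 V = {1} := by
      ext α
      rw [Set.mem_singleton_iff]
      refine ⟨fun _ => Subsingleton.elim _ _, fun _ => ⟨fun d => (hE.false d).elim,
        fun d => (hE.false d).elim, fun S hS => ?_, ?_⟩⟩
      · obtain ⟨d, _⟩ := hS
        exact (hE.false d).elim
      · rw [hc, hV]
    rw [h, Set.ncard_singleton]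
  · have h : Maps p 0 V = ∅ := by
      ext α
      refine ⟨fun h => (hV ?_).elim, fun h => h.elim⟩
      have h3 := h.2.2.2
      rw [hc] at h3
      exact h3.symm
    rw [h, Set.ncard_empty]

theorem mu_nonneg {ι : Type} [Fintype ι] (p : ι → ℕ) (F V : ℕ) : 0 ≤ mu p F V := by
  unfold mu
  split_ifs
  · positivity
  · exact zero_le_one
  · exact le_refl 0

theorem mu_euler {ι : Type} [Fintype ι] {p : ι → ℕ} {F V : ℕ} (h : Nonempty ι ∨ 0 < F)
    (h0 : mu p F V ≠ 0) : ∃ g : ℕ, 2 * V + 4 * g + 2 * Fintype.card ι = 4 + F + ∑ i, p i := by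
  rw [mu_eq p F V h] at h0
  obtain ⟨g, hg⟩ := muP_euler h0
  rw [Multiset.card_map] at hg
  exact ⟨g, hg⟩

theorem mu_congr {ι ι' : Type} [Fintype ι] [Fintype ι'] {p : ι → ℕ} {p' : ι' → ℕ} (e : ι ≃ ι')
    (h : ∀ i, p' (e i) = p i) (F V : ℕ) : mu p F V = mu p' F V := by
  by_cases h1 : Nonempty ι ∨ 0 < F
  · have h2 : Nonempty ι' ∨ 0 < F := h1.imp (fun ⟨i⟩ => ⟨e i⟩) id
    rw [mu_eq p F V h1, mu_eq p' F V h2]
    have h3 : (Finset.univ : Finset ι).val.map p = (Finset.univ : Finset ι').val.map p' := by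
      rw [← vals_sub p' e e.injective Finset.univ
        (fun x => ⟨fun _ => ⟨e.symm x, e.apply_symm_apply x⟩, fun _ => Finset.mem_univ x⟩)]
      refine Multiset.map_congr rfl fun i _ => ?_
      exact (h i).symm
    rw [h3]
  · rw [not_or, not_nonempty_iff, not_lt, Nat.le_zero] at h1
    obtain ⟨h1, rfl⟩ := h1
    have h2 : IsEmpty ι' := e.symm.isEmpty
    unfold mu
    rw [if_pos (fun i => (h1.false i).elim), if_pos (fun i => (h2.false i).elim), maps_empty,
      maps_empty]

/-- Tutte's equation for the hole `none` of length `m + 2`, the other holes are `p i`, `i : ι`.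
The four terms: new triangle, gluing inside the hole (connected complement / two components), gluing
to the hole `i`. -/
theorem mu_tutte {ι : Type} [Fintype ι] [DecidableEq ι] (p : ι → ℕ) (m F V : ℕ) :
    mu (fun o : Option ι => o.elim (m + 2) p) F V =
      (if F = 0 then 0 else mu (fun o : Option ι => o.elim (m + 3) p) (F - 1) V) +
      ∑ x ∈ Finset.HasAntidiagonal.antidiagonal m,
        mu (fun o : Option (Option ι) => o.elim x.1 fun o' => o'.elim x.2 p) F V +
      ∑ x ∈ Finset.HasAntidiagonal.antidiagonal m, ∑ K : Finset ι,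
        ∑ y ∈ Finset.HasAntidiagonal.antidiagonal F, ∑ w ∈ Finset.HasAntidiagonal.antidiagonal V,
          mu (fun o : Option {i // i ∈ K} => o.elim x.1 fun i => p i) y.1 w.1 *
            mu (fun o : Option {i // i ∉ K} => o.elim x.2 fun i => p i) y.2 w.2 +
      ∑ i : ι, (p i : ℚ) * mu (fun o : Option {j // j ≠ i} => o.elim (p i + m) fun j => p j) F V := by
  rw [mu_opt, tutte_muP, Polynomial.coeff_add, Polynomial.coeff_add, Polynomial.finset_sum_coeff]
  congr 1
  · rw [add_assoc, ← Finset.sum_add_distrib]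
    congr 1
    · split_ifs
      · rfl
      · rw [mu_opt]
    · refine Finset.sum_congr rfl fun x _ => ?_
      rw [Polynomial.coeff_add]
      congr 1
      · rw [mu_opt (fun o' : Option ι => o'.elim x.2 p), vals_opt]
      · rw [Polynomial.finset_sum_coeff, Finset.sum_comm]
        refine Finset.sum_congr rfl fun y _ => ?_
        rw [← conv_subsets p (fun Q => muP (x.1 ::ₘ Q) y.1) (fun Q => muP (x.2 ::ₘ Q) y.2),
          Polynomial.finset_sum_coeff]
        refine Finset.sum_congr rfl fun K _ => ?_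
        rw [Polynomial.coeff_mul]
        refine Finset.sum_congr rfl fun w _ => ?_
        rw [mu_mem, mu_notMem]
  · rw [Multiset.map_map]
    show (∑ i : ι, C ((p i : ℕ) : ℚ) * muP ((p i + m) ::ₘ
      ((Finset.univ : Finset ι).val.map p).erase (p i)) F).coeff V = _
    rw [Polynomial.finset_sum_coeff]
    refine Finset.sum_congr rfl fun i _ => ?_
    rw [Polynomial.coeff_C_mul, mu_ne]

/-- The same for a hole of length `1`. -/
theorem mu_tutte_one {ι : Type} [Fintype ι] [DecidableEq ι] (p : ι → ℕ) (F V : ℕ) :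
    mu (fun o : Option ι => o.elim 1 p) F V =
      (if F = 0 then 0 else mu (fun o : Option ι => o.elim 2 p) (F - 1) V) +
      ∑ i : ι, (p i : ℚ) * mu (fun o : Option {j // j ≠ i} => o.elim (p i - 1) fun j => p j) F V := by
  rw [mu_opt, muP_one, Polynomial.coeff_add]
  congr 1
  · split_ifs
    · rfl
    · rw [mu_opt]
  · rw [Multiset.map_map]
    show (∑ i : ι, C ((p i : ℕ) : ℚ) * muP ((p i - 1) ::ₘ
      ((Finset.univ : Finset ι).val.map p).erase (p i)) F).coeff V = _
    rw [Polynomial.finset_sum_coeff]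
    refine Finset.sum_congr rfl fun i _ => ?_
    rw [Polynomial.coeff_C_mul, mu_ne]

/-- A hole of length `2` is a marked edge, a hole of length `3` is a marked triangle. -/
theorem mu_two {ι : Type} [Fintype ι] (p : ι → ℕ) (F V : ℕ) (h : Nonempty ι ∨ 0 < F) :
    mu (fun o : Option ι => o.elim 2 p) F V = (3 * F + ∑ i, p i : ℕ) * mu p F V := by
  have h1 : ¬ ((Finset.univ : Finset ι).val.map p = 0 ∧ F = 0) := by
    rintro ⟨h2, h3⟩
    rcases h with ⟨⟨i⟩⟩ | h
    · have h4 : p i ∈ (Finset.univ : Finset ι).val.map p :=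
        Multiset.mem_map_of_mem p (Finset.mem_univ i)
      rw [h2] at h4
      exact Multiset.notMem_zero _ h4
    · omega
  have h5 : (3 * (F : ℚ) + ((((Finset.univ : Finset ι).val.map p).sum : ℕ) : ℚ)) =
      ((3 * F + ∑ i, p i : ℕ) : ℚ) := by
    show (3 * (F : ℚ) + ((∑ i, p i : ℕ) : ℚ)) = _
    push_cast
    rfl
  rw [mu_opt, muP_two, if_neg h1, add_zero, Polynomial.coeff_C_mul, mu_eq p F V h, h5]

theorem mu_three {ι : Type} [Fintype ι] (p : ι → ℕ) (F V : ℕ) :
    mu (fun o : Option ι => o.elim 3 p) F V = 3 * (F + 1) * mu p (F + 1) V := by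
  rw [mu_opt, muP_three, Polynomial.coeff_C_mul, mu_eq p (F + 1) V (Or.inr (Nat.succ_pos F))]

theorem nu_mu' (n g : ℕ) (hn : 1 ≤ n) (hg : 2 * g ≤ n + 2) :
    SST.nu n g = ((mu (fun i : Empty => i.elim) (2 * n) (n + 2 - 2 * g) : ℚ) : ℝ) := by
  rw [nu_mu n g hn hg, mu_eq _ (2 * n) _ (Or.inr (by omega))]
  rfl

end SYS.A
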