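import Pool.Agent.SYS.A.TutM

/-!
# SYS-A-Eul: positivity and Euler's relation
-/

namespace SYS.A

open Polynomial

theorem conM_nonneg (P : Multiset ℕ) (V : ℕ) : 0 ≤ (conM P).coeff V := by
  classical
  have hf : Finite {α : Glu (Dt (fam P)) // Cn (fam P) α} := by
    have : Finite (Dt (fam P)) := by
      unfold Dt
      infer_instance
    infer_instance
  have : Fintype {α : Glu (Dt (fam P)) // Cn (fam P) α} := Fintype.ofFinite _
  unfold conM con
  rw [finsum_eq_sum_of_fintype, Polynomial.finsetSum_coeff]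
  refine Finset.sum_nonneg fun T _ => ?_
  rw [Polynomial.coeff_X_pow]
  split_ifs <;> norm_num

private theorem conM_zero' : conM 0 = 0 := by
  unfold conM con
  have h : IsEmpty {α : Glu (Dt (fam 0)) // Cn (fam 0) α} := by
    refine ⟨fun α => ?_⟩
    obtain ⟨x⟩ := α.2.1
    exact Multiset.notMem_zero _ (Multiset.coe_mem (x := x))
  exact finsum_of_isEmpty _

private theorem ms_coeff (S : Multiset ℚ[X]) (V : ℕ) (h : S.sum.coeff V ≠ 0) :
    ∃ f ∈ S, f.coeff V ≠ 0 := by
  induction S using Multiset.induction_on with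
  | empty => simp at h
  | cons f S ih =>
    rw [Multiset.sum_cons, Polynomial.coeff_add] at h
    by_cases h1 : f.coeff V = 0
    · rw [h1, zero_add] at h
      obtain ⟨g, hg, hg'⟩ := ih h
      exact ⟨g, Multiset.mem_cons_of_mem hg, hg'⟩
    · exact ⟨f, Multiset.mem_cons_self _ _, h1⟩

private theorem sum_erase {P : Multiset ℕ} {q : ℕ} (h : q ∈ P) :
    q + (P.erase q).sum = P.sum ∧ Multiset.card (P.erase q) + 1 = Multiset.card P := by
  obtain ⟨t, rfl⟩ := Multiset.exists_cons_of_mem h
  simp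

private theorem eul (n : ℕ) : ∀ (P : Multiset ℕ) (V : ℕ), P.sum ≤ n → (conM P).coeff V ≠ 0 →
    (∃ g : ℕ, 2 * V + 4 * g + 2 * Multiset.card P = 4 + P.sum) ∧ 0 < V := by
  induction n using Nat.strong_induction_on with
  | _ n ih =>
    intro P V hn h
    rcases P.empty_or_exists_mem with rfl | ⟨k, hk⟩
    · rw [conM_zero'] at h
      simp at h
    obtain ⟨P', rfl⟩ := Multiset.exists_cons_of_mem hk
    rw [Multiset.sum_cons] at hn ⊢
    rw [Multiset.card_cons]
    rcases k with _ | _ | m
    · -- a point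
      rw [tutte_zero] at h
      split_ifs at h with h0
      · subst h0
        rw [Polynomial.coeff_X] at h
        have hV : 1 = V := by
          by_contra h1
          exact h (if_neg h1)
        subst hV
        exact ⟨⟨0, by simp⟩, one_pos⟩
      · simp at h
    · -- a side `1`
      rw [zero_add] at h hn ⊢
      rw [tutte_one] at h
      obtain ⟨f, hf, hf'⟩ := ms_coeff _ _ h
      obtain ⟨q, hq, rfl⟩ := Multiset.mem_map.1 hf
      rw [Polynomial.coeff_C_mul] at hf'
      have h1 : (q : ℚ) ≠ 0 := fun h0 => hf' (by rw [h0, zero_mul])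
      have h2 : q ≠ 0 := fun h0 => h1 (by rw [h0, Nat.cast_zero])
      have h3 : (conM ((q - 1) ::ₘ P'.erase q)).coeff V ≠ 0 := fun h0 => hf' (by rw [h0, mul_zero])
      obtain ⟨h4, h5⟩ := sum_erase hq
      obtain ⟨⟨g, hg⟩, hV⟩ := ih (q - 1 + (P'.erase q).sum) (by omega) _ V
        (by rw [Multiset.sum_cons]) h3
      rw [Multiset.sum_cons, Multiset.card_cons] at hg
      exact ⟨⟨g, by omega⟩, hV⟩
    · -- a side `m + 2`
      have e : m + 1 + 1 = m + 2 := rfl
      rw [e] at h hn ⊢
      rw [tutte_conM, Polynomial.coeff_add] at h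
      by_cases hA : (∑ x ∈ Finset.HasAntidiagonal.antidiagonal m, (conM (x.1 ::ₘ x.2 ::ₘ P') +
          conv (fun Q => conM (x.1 ::ₘ Q)) (fun Q => conM (x.2 ::ₘ Q)) P')).coeff V = 0
      · rw [hA, zero_add] at h
        obtain ⟨f, hf, hf'⟩ := ms_coeff _ _ h
        obtain ⟨q, hq, rfl⟩ := Multiset.mem_map.1 hf
        rw [Polynomial.coeff_C_mul] at hf'
        have h3 : (conM ((q + m) ::ₘ P'.erase q)).coeff V ≠ 0 :=
          fun h0 => hf' (by rw [h0, mul_zero])
        obtain ⟨h4, h5⟩ := sum_erase hq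
        obtain ⟨⟨g, hg⟩, hV⟩ := ih (q + m + (P'.erase q).sum) (by omega) _ V
          (by rw [Multiset.sum_cons]) h3
        rw [Multiset.sum_cons, Multiset.card_cons] at hg
        exact ⟨⟨g, by omega⟩, hV⟩
      · rw [Polynomial.finsetSum_coeff] at hA
        obtain ⟨x, hx, hx'⟩ := Finset.exists_ne_zero_of_sum_ne_zero hA
        have hxm : x.1 + x.2 = m := Finset.HasAntidiagonal.mem_antidiagonal.1 hx
        rw [Polynomial.coeff_add] at hx'
        by_cases hB : (conM (x.1 ::ₘ x.2 ::ₘ P')).coeff V = 0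
        · rw [hB, zero_add] at hx'
          obtain ⟨f, hf, hf'⟩ := ms_coeff _ _ hx'
          obtain ⟨⟨Q, Q'⟩, hQ, rfl⟩ := Multiset.mem_map.1 hf
          have hQQ : Q + Q' = P' := Multiset.mem_antidiagonal.1 hQ
          simp only at hf'
          rw [Polynomial.coeff_mul] at hf'
          obtain ⟨y, hy, hy'⟩ := Finset.exists_ne_zero_of_sum_ne_zero hf'
          have hyV : y.1 + y.2 = V := Finset.HasAntidiagonal.mem_antidiagonal.1 hy
          have h6 := left_ne_zero_of_mul hy'
          have h7 := right_ne_zero_of_mul hy'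
          have h8 : Q.sum + Q'.sum = P'.sum := by rw [← hQQ, Multiset.sum_add]
          have h9 : Multiset.card Q + Multiset.card Q' = Multiset.card P' := by
            rw [← hQQ, Multiset.card_add]
          obtain ⟨⟨g, hg⟩, hV⟩ := ih (x.1 + Q.sum) (by omega) _ y.1
            (by rw [Multiset.sum_cons]) h6
          obtain ⟨⟨g', hg'⟩, hV'⟩ := ih (x.2 + Q'.sum) (by omega) _ y.2
            (by rw [Multiset.sum_cons]) h7
          rw [Multiset.sum_cons, Multiset.card_cons] at hg hg'
          exact ⟨⟨g + g', by omega⟩, by omega⟩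
        · obtain ⟨⟨g, hg⟩, hV⟩ := ih (x.1 + (x.2 + P'.sum)) (by omega) _ V
            (by rw [Multiset.sum_cons, Multiset.sum_cons]) hB
          rw [Multiset.sum_cons, Multiset.card_cons, Multiset.sum_cons, Multiset.card_cons] at hg
          exact ⟨⟨g + 1, by omega⟩, hV⟩

theorem conM_euler {P : Multiset ℕ} {V : ℕ} (h : (conM P).coeff V ≠ 0) :
    ∃ g : ℕ, 2 * V + 4 * g + 2 * Multiset.card P = 4 + P.sum :=
  (eul P.sum P V le_rfl h).1

theorem muP_nonneg (P : Multiset ℕ) (F V : ℕ) : 0 ≤ (muP P F).coeff V := by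
  unfold muP
  rw [Polynomial.coeff_C_mul]
  exact mul_nonneg (by positivity) (conM_nonneg _ _)

theorem muP_euler {P : Multiset ℕ} {F V : ℕ} (h : (muP P F).coeff V ≠ 0) :
    ∃ g : ℕ, 2 * V + 4 * g + 2 * Multiset.card P = 4 + F + P.sum := by
  unfold muP at h
  rw [Polynomial.coeff_C_mul] at h
  obtain ⟨g, hg⟩ := conM_euler (right_ne_zero_of_mul h)
  rw [Multiset.card_add, Multiset.sum_add, Multiset.card_replicate, Multiset.sum_replicate,
    smul_eq_mul] at hg
  exact ⟨g, by omega⟩

theorem conM_pos (P : Multiset ℕ) (V : ℕ) (h : (conM P).coeff V ≠ 0) : 0 < V :=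
  (eul P.sum P V le_rfl h).2

end SYS.A
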