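import Pool.Agent.SYS.A.TutM

/-!
# SYS-A-MuT: the identities with unlabelled triangles
-/

namespace SYS.A

open Polynomial

private theorem w_succ (F : ℕ) : 1 / ((3 : ℚ) ^ F * F.factorial) =
    3 * (F + 1) * (1 / ((3 : ℚ) ^ (F + 1) * (F + 1).factorial)) := by
  have h1 : (F.factorial : ℚ) ≠ 0 := by exact_mod_cast F.factorial_ne_zero
  have h2 : ((F : ℚ) + 1) ≠ 0 := by positivity
  rw [Nat.factorial_succ]
  push_cast
  field_simp
  ring

private theorem w_add (a b : ℕ) : 1 / ((3 : ℚ) ^ (a + b) * (a + b).factorial) *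
    ((a + b).choose a : ℚ) =
      1 / ((3 : ℚ) ^ a * a.factorial) * (1 / ((3 : ℚ) ^ b * b.factorial)) := by
  have h1 : (a.factorial : ℚ) ≠ 0 := by exact_mod_cast a.factorial_ne_zero
  have h2 : (b.factorial : ℚ) ≠ 0 := by exact_mod_cast b.factorial_ne_zero
  have h3 : ((a + b).factorial : ℚ) ≠ 0 := by exact_mod_cast (a + b).factorial_ne_zero
  have h4 : ((a + b).choose a : ℚ) * a.factorial * b.factorial = (a + b).factorial := by
    have h5 := Nat.choose_mul_factorial_mul_factorial (Nat.le_add_right a b)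
    rw [Nat.add_sub_cancel_left] at h5
    exact_mod_cast h5
  rw [← h4] at h3 ⊢
  have h6 : ((a + b).choose a : ℚ) ≠ 0 := by
    intro h0
    rw [h0, zero_mul, zero_mul] at h3
    exact h3 rfl
  rw [pow_add]
  field_simp

private theorem conv_C (a b : ℚ) (f g : Multiset ℕ → ℚ[X]) (P : Multiset ℕ) :
    conv (fun Q => C a * f Q) (fun Q => C b * g Q) P = C (a * b) * conv f g P := by
  unfold conv
  rw [← Multiset.sum_map_mul_left]
  congr 1
  refine Multiset.map_congr rfl fun x _ => ?_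
  rw [C_mul]
  ring

private theorem mu_cons (k : ℕ) (P : Multiset ℕ) (F : ℕ) : muP (k ::ₘ P) F =
    C (1 / ((3 : ℚ) ^ F * F.factorial)) * conM (k ::ₘ (P + Multiset.replicate F 3)) := by
  unfold muP
  rw [Multiset.cons_add]

/-- the sum over the other polygons -/
private theorem last_sum (h : ℕ → ℕ) (P : Multiset ℕ) (F : ℕ) :
    C (1 / ((3 : ℚ) ^ F * F.factorial)) * ((P + Multiset.replicate F 3).map fun q : ℕ =>
      C (q : ℚ) * conM (h q ::ₘ (P + Multiset.replicate F 3).erase q)).sum =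
      (if F = 0 then 0 else muP (h 3 ::ₘ P) (F - 1)) +
        (P.map fun q : ℕ => C (q : ℚ) * muP (h q ::ₘ P.erase q) F).sum := by
  rw [Multiset.map_add, Multiset.sum_add, mul_add, add_comm]
  congr 1
  · rcases F with _ | F
    · rw [if_pos rfl]
      simp
    · rw [if_neg (Nat.succ_ne_zero F), Nat.add_sub_cancel, Multiset.map_replicate,
        Multiset.sum_replicate, mu_cons, w_succ F]
      have h1 : (P + Multiset.replicate (F + 1) 3).erase 3 = P + Multiset.replicate F 3 := by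
        rw [Multiset.replicate_succ, Multiset.add_cons, Multiset.erase_cons_head]
      rw [h1, nsmul_eq_mul]
      have h2 : ((F + 1 : ℕ) : ℚ[X]) = C ((F : ℚ) + 1) := by
        rw [C_add, C_1]
        push_cast
        rw [map_natCast]
      obtain ⟨w, hw⟩ : ∃ w : ℚ, w = 1 / ((3 : ℚ) ^ (F + 1) * (F + 1).factorial) := ⟨_, rfl⟩
      rw [h2, ← hw, C_mul, C_mul]
      have h3 : ((3 : ℕ) : ℚ) = 3 := by norm_num
      rw [h3]
      ring
  · rw [← Multiset.sum_map_mul_left]
    congr 1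
    refine Multiset.map_congr rfl fun q hq => ?_
    rw [mu_cons, Multiset.erase_add_left_pos _ hq]
    ring

theorem muP_three (P : Multiset ℕ) (F : ℕ) :
    muP (3 ::ₘ P) F = C (3 * (F + 1) : ℚ) * muP P (F + 1) := by
  rw [mu_cons, muP, Multiset.replicate_succ, Multiset.add_cons, w_succ, C_mul]
  ring

theorem tutte_muP (m : ℕ) (P : Multiset ℕ) (F : ℕ) : muP ((m + 2) ::ₘ P) F =
    (if F = 0 then 0 else muP ((m + 3) ::ₘ P) (F - 1)) +
    ∑ x ∈ Finset.HasAntidiagonal.antidiagonal m, (muP (x.1 ::ₘ x.2 ::ₘ P) F +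
      ∑ y ∈ Finset.HasAntidiagonal.antidiagonal F,
        conv (fun Q => muP (x.1 ::ₘ Q) y.1) (fun Q => muP (x.2 ::ₘ Q) y.2) P) +
      (P.map fun q : ℕ => C (q : ℚ) * muP ((q + m) ::ₘ P.erase q) F).sum := by
  rw [mu_cons, tutte_conM, mul_add, last_sum (fun q => q + m) P F, Finset.mul_sum]
  have h1 : ∀ x : ℕ × ℕ, C (1 / ((3 : ℚ) ^ F * F.factorial)) *
      (conM (x.1 ::ₘ x.2 ::ₘ (P + Multiset.replicate F 3)) +
        conv (fun Q => conM (x.1 ::ₘ Q)) (fun Q => conM (x.2 ::ₘ Q))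
          (P + Multiset.replicate F 3)) =
      muP (x.1 ::ₘ x.2 ::ₘ P) F + ∑ y ∈ Finset.HasAntidiagonal.antidiagonal F,
        conv (fun Q => muP (x.1 ::ₘ Q) y.1) (fun Q => muP (x.2 ::ₘ Q) y.2) P := by
    intro x
    rw [mul_add]
    congr 1
    · rw [mu_cons, Multiset.cons_add]
    · rw [conv_replicate, Finset.mul_sum]
      refine Finset.sum_congr rfl fun y hy => ?_
      have hF := Finset.HasAntidiagonal.mem_antidiagonal.1 hy
      simp only [mu_cons]
      rw [conv_C, ← w_add, C_mul, hF, ← mul_assoc]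
      congr 2
  rw [Finset.sum_congr rfl fun x _ => h1 x]
  have h2 : 3 + m = m + 3 := by ring
  rw [h2]
  ring

theorem muP_one (P : Multiset ℕ) (F : ℕ) : muP (1 ::ₘ P) F =
    (if F = 0 then 0 else muP (2 ::ₘ P) (F - 1)) +
      (P.map fun q : ℕ => C (q : ℚ) * muP ((q - 1) ::ₘ P.erase q) F).sum := by
  rw [mu_cons, tutte_one, last_sum (fun q => q - 1) P F]

theorem muP_zero (P : Multiset ℕ) (F : ℕ) :
    muP (0 ::ₘ P) F = if P = 0 ∧ F = 0 then X else 0 := by
  rw [mu_cons, tutte_zero]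
  have h1 : P + Multiset.replicate F 3 = 0 ↔ P = 0 ∧ F = 0 := by
    rw [add_eq_zero]
    refine and_congr_right fun _ => ?_
    rcases F with _ | F
    · simp
    · simp [Multiset.replicate_succ]
  by_cases h : P = 0 ∧ F = 0
  · rw [if_pos (h1.2 h), if_pos h, h.2]
    simp
  · rw [if_neg (fun h2 => h (h1.1 h2)), if_neg h, mul_zero]

theorem muP_two (P : Multiset ℕ) (F : ℕ) : muP (2 ::ₘ P) F =
    C (3 * F + P.sum : ℚ) * muP P F + if P = 0 ∧ F = 0 then X ^ 2 else 0 := by
  have h1 : P + Multiset.replicate F 3 = 0 ↔ P = 0 ∧ F = 0 := by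
    rw [add_eq_zero]
    refine and_congr_right fun _ => ?_
    rcases F with _ | F
    · simp
    · simp [Multiset.replicate_succ]
  have h2 := tutte_conM 0 (P + Multiset.replicate F 3)
  obtain ⟨P', hP'⟩ : ∃ P', P' = P + Multiset.replicate F 3 := ⟨_, rfl⟩
  rw [← hP'] at h2 h1
  have h3 : conv (fun Q => conM (0 ::ₘ Q)) (fun Q => conM (0 ::ₘ Q)) P' =
      if P' = 0 then X ^ 2 else 0 := by
    simp only [tutte_zero]
    unfold conv
    by_cases h : P' = 0
    · rw [if_pos h, h]
      simp [sq]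
    · rw [if_neg h]
      refine Multiset.sum_eq_zero fun z hz => ?_
      obtain ⟨x, hx, rfl⟩ := Multiset.mem_map.1 hz
      have h4 := Multiset.mem_antidiagonal.1 hx
      show (if x.1 = 0 then X else 0) * (if x.2 = 0 then X else 0) = (0 : ℚ[X])
      by_cases h5 : x.1 = 0
      · have h6 : x.2 ≠ 0 := fun h6 => h (by rw [← h4, h5, h6, add_zero])
        rw [if_neg h6, mul_zero]
      · rw [if_neg h5, zero_mul]
  have h4 : (P'.map fun q : ℕ => C (q : ℚ) * conM ((q + 0) ::ₘ P'.erase q)).sum =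
      C ((P'.sum : ℕ) : ℚ) * conM P' := by
    have h5 : (P'.map fun q : ℕ => C (q : ℚ) * conM ((q + 0) ::ₘ P'.erase q)) =
        P'.map fun q : ℕ => C (q : ℚ) * conM P' :=
      Multiset.map_congr rfl fun q hq => by rw [add_zero, Multiset.cons_erase hq]
    rw [h5, Multiset.sum_map_mul_right]
    congr 1
    clear h5 h3 h2 h1 hP'
    induction P' using Multiset.induction_on with
    | empty => simp
    | cons a P' ih =>
      rw [Multiset.map_cons, Multiset.sum_cons, ih, Multiset.sum_cons]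
      push_cast
      rw [C_add]
  rw [Finset.Nat.antidiagonal_zero, Finset.sum_singleton, h3, h4, tutte_zero,
    if_neg (Multiset.cons_ne_zero), zero_add] at h2
  have h5 : ((P'.sum : ℕ) : ℚ) = 3 * F + P.sum := by
    rw [hP', Multiset.sum_add, Multiset.sum_replicate, smul_eq_mul]
    push_cast
    ring
  rw [mu_cons, ← hP', show (2 : ℕ) = 0 + 2 from rfl, h2, h5, muP, ← hP', mul_add, add_comm]
  congr 1
  · ring
  · by_cases h : P = 0 ∧ F = 0
    · rw [if_pos (h1.2 h), if_pos h, h.2]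
      simp
    · rw [if_neg (fun h2 => h (h1.1 h2)), if_neg h, add_zero, mul_zero]

end SYS.A
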