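import Pool.Agent.SYS.Defs
import Pool.Agent.SYS.A.Eul
import Pool.Agent.SYS.A.MuT

/-!
# SYS-A-BrA: the numbers `mu` of `Pool/Agent/SYS/Defs.lean` are the coefficients of `muP`

PROOF. Some `p i = 0`: `muP_zero` (the multiset of the values of `p` is `0 ::ₘ Q` with `card Q + 1 = card ι`). All `p i ≠ 0`: `muP = C (1/(3^F F!)) * conM (..)`, and `conM (univ.val.map p + replicate F 3) =
con (Sum.elim p fun _ : Fin F => 3)` (`con_eq`); its coefficient at `V` is the number of the connected gluings with `vn = V`. The darts `MD p F = (Fin F × Fin 3) ⊕ (Σ i, Fin (p i))` correspond to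
`Dt (Sum.elim p fun _ => 3)` compatibly with `fp p F` and `rot` (`Equiv.sumSigmaDistrib`, `Equiv.sigmaEquivProd`, `Equiv.sumComm`); `ncyc` and `cyc` are the numbers of cycles; `MConn (fp p F) α` says that there is no proper
nonempty set of darts closed under `α` and `fp p F`, `Cn` the same for sets of polygons (a set of darts closed under `rot` is a union of polygons, as all `p i ≠ 0`; the index type is nonempty by `h`).
-/

namespace SYS.A

open Polynomial Classical

private theorem cyc_conj {E D : Type} (e : E ≃ D) (σ : Equiv.Perm E) (τ : Equiv.Perm D)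
    (h : ∀ z, τ (e z) = e (σ z)) : SST.ncyc τ = SST.T.cyc σ := by
  have hτ : τ = e.permCongrHom σ := by
    ext y
    obtain ⟨z, rfl⟩ := e.surjective y
    rw [h z]
    simp [Equiv.permCongrHom]
  have hz : ∀ (k : ℤ) (z : E), (τ ^ k) (e z) = e ((σ ^ k) z) := by
    intro k z
    rw [hτ, ← map_zpow]
    simp [Equiv.permCongrHom]
  unfold SST.ncyc SST.T.cyc
  refine (Nat.card_congr (Quotient.congr e ?_)).symm
  intro a b
  constructor
  · rintro ⟨k, hk⟩
    exact ⟨k, by rw [hz, hk]⟩
  · rintro ⟨k, hk⟩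
    rw [hz] at hk
    exact ⟨k, e.injective hk⟩

/-- the family of all polygons -/
private abbrev qq {ι : Type} (p : ι → ℕ) (F : ℕ) : ι ⊕ Fin F → ℕ := Sum.elim p fun _ => 3

/-- the darts -/
private def ee {ι : Type} (p : ι → ℕ) (F : ℕ) : Dt (qq p F) ≃ MD p F where
  toFun
    | ⟨Sum.inl i, x⟩ => Sum.inr ⟨i, x⟩
    | ⟨Sum.inr j, x⟩ => Sum.inl (j, x)
  invFun
    | Sum.inr ⟨i, x⟩ => ⟨Sum.inl i, x⟩
    | Sum.inl (j, x) => ⟨Sum.inr j, x⟩
  left_inv := by rintro ⟨i | j, x⟩ <;> rfl
  right_inv := by rintro (⟨j, x⟩ | ⟨i, x⟩) <;> rfl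

private theorem ee_rot {ι : Type} (p : ι → ℕ) (F : ℕ) (d : Dt (qq p F)) :
    fp p F (ee p F d) = ee p F (rot (qq p F) d) := by
  obtain ⟨i | j, x⟩ := d <;> rfl

private theorem fin_closed {n : ℕ} (Z : Set (Fin n)) (h : ∀ x ∈ Z, finRotate n x ∈ Z) {x : Fin n} (hx : x ∈ Z)
    (y : Fin n) : y ∈ Z := by
  cases n with
  | zero => exact x.elim0
  | succ m =>
    have key : ∀ k : ℕ, (⟨(x.val + k) % (m + 1), Nat.mod_lt _ (Nat.succ_pos m)⟩ : Fin (m + 1)) ∈ Z := by
      intro k
      induction k with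
      | zero =>
        have : (⟨(x.val + 0) % (m + 1), Nat.mod_lt _ (Nat.succ_pos m)⟩ : Fin (m + 1)) = x := by
          apply Fin.ext
          show (x.val + 0) % (m + 1) = x.val
          rw [add_zero, Nat.mod_eq_of_lt x.isLt]
        rw [this]
        exact hx
      | succ k ih =>
        have h1 := h _ ih
        rw [finRotate_apply] at h1
        have : (⟨(x.val + (k + 1)) % (m + 1), Nat.mod_lt _ (Nat.succ_pos m)⟩ : Fin (m + 1)) =
            ⟨(x.val + k) % (m + 1), Nat.mod_lt _ (Nat.succ_pos m)⟩ + 1 := by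
          apply Fin.ext
          rw [Fin.val_add, Fin.val_one']
          show (x.val + (k + 1)) % (m + 1) = ((x.val + k) % (m + 1) + 1 % (m + 1)) % (m + 1)
          rw [← Nat.add_mod, add_assoc]
        rw [this]
        exact h1
    have h1 := key (y.val + (m + 1) - x.val)
    have h2 : (⟨(x.val + (y.val + (m + 1) - x.val)) % (m + 1), Nat.mod_lt _ (Nat.succ_pos m)⟩ : Fin (m + 1)) = y := by
      apply Fin.ext
      show (x.val + (y.val + (m + 1) - x.val)) % (m + 1) = y.val
      have hx' := x.isLt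
      have : x.val + (y.val + (m + 1) - x.val) = y.val + (m + 1) := by omega
      rw [this, Nat.add_mod_right, Nat.mod_eq_of_lt y.isLt]
    rw [h2] at h1
    exact h1

private theorem conn_iff {ι : Type} (p : ι → ℕ) (F : ℕ) (hp : ∀ i, p i ≠ 0) (h : Nonempty ι ∨ 0 < F)
    (α : Equiv.Perm (MD p F)) (β : Glu (Dt (qq p F))) (hαβ : ∀ d, α (ee p F d) = ee p F (β.1 d)) :
    MConn (fp p F) α ↔ Cn (qq p F) β := by
  have hq : ∀ i, qq p F i ≠ 0 := by
    rintro (i | j)
    · exact hp i
    · exact three_ne_zero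
  have hd : ∀ i, ∃ x : Fin (qq p F i), True := fun i => ⟨⟨0, Nat.pos_of_ne_zero (hq i)⟩, trivial⟩
  constructor
  · intro hc
    refine ⟨?_, fun S hS hcl => ?_⟩
    · rcases h with ⟨⟨i⟩⟩ | h
      · exact ⟨Sum.inl i⟩
      · exact ⟨Sum.inr ⟨0, h⟩⟩
    · have h1 : {d : MD p F | ((ee p F).symm d).1 ∈ S} = Set.univ := by
        apply hc
        · obtain ⟨i, hi⟩ := hS
          obtain ⟨x, _⟩ := hd i
          refine ⟨ee p F ⟨i, x⟩, ?_⟩
          show ((ee p F).symm (ee p F ⟨i, x⟩)).1 ∈ S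
          rw [Equiv.symm_apply_apply]
          exact hi
        · intro d hdS
          obtain ⟨d, rfl⟩ := (ee p F).surjective d
          change ((ee p F).symm (ee p F d)).1 ∈ S at hdS
          rw [Equiv.symm_apply_apply] at hdS
          constructor
          · show ((ee p F).symm (α (ee p F d))).1 ∈ S
            rw [hαβ, Equiv.symm_apply_apply]
            exact hcl d hdS
          · show ((ee p F).symm (fp p F (ee p F d))).1 ∈ S
            rw [ee_rot, Equiv.symm_apply_apply]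
            exact hdS
      apply Set.eq_univ_of_forall
      intro i
      obtain ⟨x, _⟩ := hd i
      have h2 : ee p F ⟨i, x⟩ ∈ {d : MD p F | ((ee p F).symm d).1 ∈ S} := by rw [h1]; trivial
      change ((ee p F).symm (ee p F ⟨i, x⟩)).1 ∈ S at h2
      rw [Equiv.symm_apply_apply] at h2
      exact h2
  · rintro ⟨_, hc⟩ S hS hcl
    have hpoly : ∀ (i : ι ⊕ Fin F) (x y : Fin (qq p F i)), ee p F ⟨i, x⟩ ∈ S → ee p F ⟨i, y⟩ ∈ S := by
      intro i x y hx
      refine fin_closed {z : Fin (qq p F i) | ee p F ⟨i, z⟩ ∈ S} ?_ hx y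
      intro z hz
      have := (hcl _ hz).2
      rw [ee_rot] at this
      exact this
    have h1 : {i : ι ⊕ Fin F | ∃ x, ee p F ⟨i, x⟩ ∈ S} = Set.univ := by
      apply hc
      · obtain ⟨d, hd⟩ := hS
        obtain ⟨⟨i, x⟩, rfl⟩ := (ee p F).surjective d
        exact ⟨i, x, hd⟩
      · rintro ⟨i, x⟩ ⟨y, hy⟩
        have h2 := (hcl _ (hpoly i y x hy)).1
        rw [hαβ] at h2
        exact ⟨(β.1 ⟨i, x⟩).2, h2⟩
    apply Set.eq_univ_of_forall
    intro d
    obtain ⟨⟨i, x⟩, rfl⟩ := (ee p F).surjective d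
    have h2 : i ∈ {i : ι ⊕ Fin F | ∃ x, ee p F ⟨i, x⟩ ∈ S} := by rw [h1]; trivial
    obtain ⟨y, hy⟩ := h2
    exact hpoly i y x hy

private theorem card_maps {ι : Type} [Fintype ι] (p : ι → ℕ) (F V : ℕ) (hp : ∀ i, p i ≠ 0)
    (h : Nonempty ι ∨ 0 < F) :
    (Maps p F V).ncard = Nat.card {α : {α : Glu (Dt (qq p F)) // Cn (qq p F) α} // vn (qq p F) α.1 = V} := by
  have hvn : ∀ (α : Equiv.Perm (MD p F)) (β : Glu (Dt (qq p F))), (∀ d, α (ee p F d) = ee p F (β.1 d)) →
      SST.ncyc (fp p F * α) = vn (qq p F) β := by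
    intro α β hαβ
    have h0 : Nat.card {i // qq p F i = 0} = 0 := by
      have : IsEmpty {i // qq p F i = 0} := by
        constructor
        rintro ⟨i | j, hi⟩
        · exact hp i hi
        · exact three_ne_zero hi
      exact Nat.card_of_isEmpty
    rw [vn, h0, add_zero]
    apply cyc_conj (ee p F)
    intro z
    rw [Equiv.Perm.mul_apply, hαβ, ee_rot, Equiv.Perm.mul_apply]
  rw [← Nat.card_coe_set_eq]
  -- from permutations of the darts `MD` to gluings
  have hback : ∀ α : Equiv.Perm (MD p F), (∀ d, α (α d) = d) → (∀ d, α d ≠ d) →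
      ∃ β : Glu (Dt (qq p F)), ∀ d, α (ee p F d) = ee p F (β.1 d) := by
    intro α h1 h2
    refine ⟨⟨(ee p F).symm.permCongr α, fun d => ?_, fun d => ?_⟩, fun d => ?_⟩
    · simp [Equiv.permCongr_apply, h1]
    · intro hd
      apply h2 (ee p F d)
      have := congrArg (ee p F) hd
      simpa [Equiv.permCongr_apply] using this
    · simp [Equiv.permCongr_apply]
  have hforth : ∀ β : Glu (Dt (qq p F)), ∃ α : Equiv.Perm (MD p F), (∀ d, α (ee p F d) = ee p F (β.1 d)) ∧
      (∀ d, α (α d) = d) ∧ ∀ d, α d ≠ d := by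
    intro β
    refine ⟨(ee p F).permCongr β.1, fun d => ?_, fun d => ?_, fun d hd => ?_⟩
    · simp [Equiv.permCongr_apply]
    · simp [Equiv.permCongr_apply, β.2.1]
    · rw [Equiv.permCongr_apply] at hd
      apply β.2.2 ((ee p F).symm d)
      exact (ee p F).injective (by rw [hd, Equiv.apply_symm_apply])
  choose f hf using fun α : Maps p F V => hback α.1 α.2.1 α.2.2.1
  refine Nat.card_congr (Equiv.ofBijective (fun α => ⟨⟨f α, (conn_iff p F hp h α.1 (f α) (hf α)).1 α.2.2.2.1⟩, ?_⟩)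
    ⟨?_, ?_⟩)
  · show vn (qq p F) (f α) = V
    rw [← hvn α.1 (f α) (hf α)]
    exact α.2.2.2.2
  · intro α α' hαα
    have h1 : f α = f α' := congrArg (fun z => z.1.1) hαα
    apply Subtype.ext
    apply Equiv.ext
    intro d
    obtain ⟨d, rfl⟩ := (ee p F).surjective d
    rw [hf, hf, h1]
  · rintro ⟨⟨β, hβ1⟩, hβ2⟩
    obtain ⟨α, h1, h2, h3⟩ := hforth β
    have hmem : α ∈ Maps p F V := by
      refine ⟨h2, h3, (conn_iff p F hp h α β h1).2 hβ1, ?_⟩
      rw [hvn α β h1]
      exact hβ2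
    refine ⟨⟨α, hmem⟩, ?_⟩
    apply Subtype.ext
    apply Subtype.ext
    show f ⟨α, hmem⟩ = β
    apply Subtype.ext
    apply Equiv.ext
    intro d
    apply (ee p F).injective
    rw [← hf ⟨α, hmem⟩ d]
    exact h1 d

private theorem coeff_con {κ : Type} [Finite κ] (q : κ → ℕ) (V : ℕ) :
    (con q).coeff V = (Nat.card {α : {α : Glu (Dt q) // Cn q α} // vn q α.1 = V} : ℚ) := by
  have : Fintype {α : Glu (Dt q) // Cn q α} := Fintype.ofFinite _
  rw [con, finsum_eq_sum_of_fintype, Polynomial.finsetSum_coeff]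
  simp only [Polynomial.coeff_X_pow]
  rw [Nat.card_eq_fintype_card, Fintype.card_subtype, Finset.card_filter, Nat.cast_sum]
  apply Finset.sum_congr rfl
  intro α _
  by_cases h : vn q α.1 = V
  · rw [if_pos h.symm, if_pos h, Nat.cast_one]
  · rw [if_neg (fun h' => h h'.symm), if_neg h, Nat.cast_zero]

theorem mu_eq {ι : Type} [Fintype ι] (p : ι → ℕ) (F V : ℕ) (h : Nonempty ι ∨ 0 < F) :
    mu p F V = (muP (Finset.univ.val.map p) F).coeff V := by
  by_cases hp : ∀ i, p i ≠ 0
  · rw [mu, if_pos hp, muP, Polynomial.coeff_C_mul]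
    have h1 : Finset.univ.val.map (qq p F) = Finset.univ.val.map p + Multiset.replicate F 3 := by
      rw [← Finset.univ_disjSum_univ]
      show Multiset.map (qq p F) (Multiset.disjSum _ _) = _
      rw [Multiset.disjSum, Multiset.map_add, Multiset.map_map, Multiset.map_map]
      congr 1
      have h2 : (qq p F) ∘ Sum.inr = fun _ : Fin F => 3 := rfl
      rw [h2, Multiset.map_const']
      congr 1
      exact Finset.card_fin F
    rw [← h1, ← con_eq, coeff_con, ← card_maps p F V hp h]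
    rw [div_eq_mul_inv, mul_comm, one_div]
  · rw [mu, if_neg hp]
    push Not at hp
    obtain ⟨i, hi⟩ := hp
    have h0 : (0 : ℕ) ∈ Finset.univ.val.map p := Multiset.mem_map.2 ⟨i, Finset.mem_univ_val i, hi⟩
    have hcard : Multiset.card ((Finset.univ.val.map p).erase 0) + 1 = Fintype.card ι := by
      rw [Multiset.card_erase_add_one h0, Multiset.card_map]
      rfl
    rw [← Multiset.cons_erase h0, muP_zero]
    have hiff : ((Finset.univ.val.map p).erase 0 = 0) ↔ Fintype.card ι = 1 := by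
      rw [← Multiset.card_eq_zero]
      omega
    by_cases hh : (Finset.univ.val.map p).erase 0 = 0 ∧ F = 0
    · rw [if_pos hh, Polynomial.coeff_X]
      by_cases hV : V = 1
      · rw [if_pos ⟨hiff.1 hh.1, hh.2, hV⟩, if_pos hV.symm]
      · rw [if_neg (fun h' => hV h'.2.2), if_neg (fun h' => hV h'.symm)]
    · rw [if_neg hh, Polynomial.coeff_zero, if_neg]
      rintro ⟨h2, h3, _⟩
      exact hh ⟨hiff.2 h2, h3⟩

end SYS.A
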