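import Pool.Agent.SYS.A.ConvB

/-!
# SYS-A-Cf: the coefficients `cf`

PROOF. `cf_zero`: `Multiset.toFinsupp_zero`, `MvPowerSeries.coeff_zero_eq_constantCoeff`. `cf_cons`: with `m = toFinsupp P`,
`toFinsupp (k ::ₘ P) = m + Finsupp.single k 1` and `MvPowerSeries.coeff_pderiv`: `coeff m (pderiv ℚ k s) = coeff (m + single k 1) s * (m k + 1)`;
the product of the factorials over `toFinset (k ::ₘ P)` is `(count k P + 1)` times that over `toFinset P` (replace both products by
products over a common Finset, e.g. `insert k P.toFinset`, the other factors are `0! = 1`). `cf_mul`: induction on `P` for all `s u`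
(`cf_cons`, Leibniz, `conv_cons`). `cf_mk`: `Finsupp.toMultiset` and `Multiset.toFinsupp` are inverse, support of `toFinsupp P` is `P.toFinset`.
-/

namespace SYS.A

open MvPowerSeries

private theorem fact_cons (k : ℕ) (P : Multiset ℕ) :
    ((k ::ₘ P).toFinset.prod fun j => ((k ::ₘ P).count j).factorial) =
      (P.count k + 1) * (P.toFinset.prod fun j => (P.count j).factorial) := by
  have h1 : ∀ Q : Multiset ℕ, Q.toFinset ⊆ insert k P.toFinset →
      Q.toFinset.prod (fun j => (Q.count j).factorial) =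
        (insert k P.toFinset).prod fun j => (Q.count j).factorial := by
    intro Q hQ
    refine Finset.prod_subset hQ fun j _ hj => ?_
    rw [Multiset.mem_toFinset] at hj
    rw [Multiset.count_eq_zero_of_notMem hj]
    rfl
  have hk : k ∈ insert k P.toFinset := Finset.mem_insert_self k P.toFinset
  rw [h1 (k ::ₘ P) (by rw [Multiset.toFinset_cons]), h1 P (Finset.subset_insert _ _),
    ← Finset.mul_prod_erase _ (fun j => ((k ::ₘ P).count j).factorial) hk,
    ← Finset.mul_prod_erase _ (fun j => (P.count j).factorial) hk]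
  have h2 : ∏ j ∈ (insert k P.toFinset).erase k, ((k ::ₘ P).count j).factorial =
      ∏ j ∈ (insert k P.toFinset).erase k, (P.count j).factorial := by
    refine Finset.prod_congr rfl fun j hj => ?_
    rw [Multiset.count_cons_of_ne (Finset.ne_of_mem_erase hj)]
  simp only [Multiset.count_cons_self, Nat.factorial_succ]
  rw [h2]
  ring

private theorem fact_ne (P : Multiset ℕ) :
    ((P.toFinset.prod fun k => (P.count k).factorial : ℕ) : ℚ) ≠ 0 := by
  rw [Nat.cast_ne_zero, Finset.prod_ne_zero_iff]
  intro k _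
  exact Nat.factorial_ne_zero _

private theorem toFs_cons (k : ℕ) (P : Multiset ℕ) :
    Multiset.toFinsupp (k ::ₘ P) = Multiset.toFinsupp P + Finsupp.single k 1 := by
  rw [← Multiset.singleton_add, Multiset.toFinsupp_add, Multiset.toFinsupp_singleton, add_comm]

theorem cf_zero (s : Sr) : cf s 0 = constantCoeff s := by
  unfold cf
  rw [Multiset.toFinsupp_zero, MvPowerSeries.coeff_zero_eq_constantCoeff]
  simp

theorem cf_cons (s : Sr) (k : ℕ) (P : Multiset ℕ) : cf s (k ::ₘ P) = cf (pderiv ℚ k s) P := by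
  unfold cf
  rw [fact_cons, toFs_cons, MvPowerSeries.coeff_pderiv, Multiset.toFinsupp_apply]
  push_cast
  ring

theorem cf_add (s u : Sr) (P : Multiset ℕ) : cf (s + u) P = cf s P + cf u P := by
  unfold cf
  rw [map_add, mul_add]

theorem cf_sub (s u : Sr) (P : Multiset ℕ) : cf (s - u) P = cf s P - cf u P := by
  unfold cf
  rw [map_sub, mul_sub]

theorem cf_smul (a : ℚ) (s : Sr) (P : Multiset ℕ) : cf (a • s) P = a * cf s P := by
  unfold cf
  rw [map_smul, smul_eq_mul]
  ring

theorem cf_C_mul (a : ℚ) (s : Sr) (P : Multiset ℕ) : cf (C a * s) P = a * cf s P := by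
  unfold cf
  rw [MvPowerSeries.coeff_C_mul]
  ring

theorem cf_natCast_mul (a : ℕ) (s : Sr) (P : Multiset ℕ) : cf ((a : Sr) * s) P = a * cf s P := by
  have h : ((a : ℕ) : Sr) = C (a : ℚ) := (map_natCast (C (σ := ℕ) (R := ℚ)) a).symm
  rw [h, cf_C_mul]

theorem cf_mul (s u : Sr) (P : Multiset ℕ) : cf (s * u) P = conv (cf s) (cf u) P := by
  induction P using Multiset.induction_on generalizing s u with
  | empty => rw [cf_zero, map_mul, conv_zero, cf_zero, cf_zero]
  | cons k P ih =>
    have h1 : ∀ w : Sr, (fun Q => cf w (k ::ₘ Q)) = cf (pderiv ℚ k w) := by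
      intro w
      funext Q
      exact cf_cons w k Q
    rw [cf_cons, Derivation.leibniz, cf_add, smul_eq_mul, smul_eq_mul, ih, ih, conv_cons, h1, h1,
      conv_comm (cf u)]

theorem cf_ext {s u : Sr} (h : ∀ P, cf s P = cf u P) : s = u := by
  refine MvPowerSeries.ext fun m => ?_
  have h1 := h (Finsupp.toMultiset m)
  unfold cf at h1
  rw [Finsupp.toMultiset_toFinsupp] at h1
  exact mul_left_cancel₀ (fact_ne _) h1

theorem cf_mk (f : Multiset ℕ → ℚ) (P : Multiset ℕ) : cf (mk f) P = f P := by
  have h1 : MvPowerSeries.coeff (Multiset.toFinsupp P) (mk f) =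
      f (Finsupp.toMultiset (Multiset.toFinsupp P)) /
        (((Multiset.toFinsupp P).support.prod fun k =>
          ((Multiset.toFinsupp P) k).factorial : ℕ) : ℚ) := rfl
  unfold cf
  rw [h1, Multiset.toFinsupp_toMultiset, Multiset.toFinsupp_support]
  simp only [Multiset.toFinsupp_apply]
  exact mul_div_cancel₀ _ (fact_ne P)

theorem pderiv_mk (f : Multiset ℕ → ℚ) (k : ℕ) :
    pderiv ℚ k (mk f) = mk fun P => f (k ::ₘ P) := by
  refine cf_ext fun P => ?_
  rw [← cf_cons, cf_mk, cf_mk]

end SYS.A
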