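import Pool.Agent.SYS.A.Defs

/-!
# SYS-A-Cgr: reindexing
-/

namespace SYS.A

open Polynomial

private theorem cg_cyc {E D : Type} (e : E ≃ D) (σ : Equiv.Perm E) (τ : Equiv.Perm D)
    (h : ∀ z, τ (e z) = e (σ z)) : SST.T.cyc τ = SST.T.cyc σ := by
  have hτ : τ = e.permCongrHom σ := by
    ext y
    obtain ⟨z, rfl⟩ := e.surjective y
    rw [h z]
    simp [Equiv.permCongrHom]
  have hz : ∀ (k : ℤ) (z : E), (τ ^ k) (e z) = e ((σ ^ k) z) := by
    intro k z
    rw [hτ, ← map_zpow]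
    simp [Equiv.permCongrHom]
  unfold SST.T.cyc
  refine (Nat.card_congr (Quotient.congr e ?_)).symm
  intro y z
  show Equiv.Perm.SameCycle σ y z ↔ Equiv.Perm.SameCycle τ (e y) (e z)
  constructor
  · rintro ⟨k, hk⟩
    exact ⟨k, by rw [hz, hk]⟩
  · rintro ⟨k, hk⟩
    refine ⟨k, e.injective ?_⟩
    rw [← hz, hk]

private def cg_map {E D : Type} (e : E ≃ D) (α : Glu E) : Glu D :=
  ⟨e.permCongr α.1, by
    constructor
    · intro d
      rw [Equiv.permCongr_apply, Equiv.permCongr_apply, Equiv.symm_apply_apply, α.2.1,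
        Equiv.apply_symm_apply]
    · intro d hd
      rw [Equiv.permCongr_apply] at hd
      exact α.2.2 (e.symm d) (e.injective (hd.trans (e.apply_symm_apply d).symm))⟩

private theorem cg_map_apply {E D : Type} (e : E ≃ D) (α : Glu E) (z : E) :
    (cg_map e α).1 (e z) = e (α.1 z) := by
  show e.permCongr α.1 (e z) = e (α.1 z)
  rw [Equiv.permCongr_apply, Equiv.symm_apply_apply]

private def cg_glu {E D : Type} (e : E ≃ D) : Glu E ≃ Glu D where
  toFun := cg_map e
  invFun := cg_map e.symm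
  left_inv α := by
    apply Subtype.ext
    ext z
    show e.symm.permCongr (e.permCongr α.1) z = α.1 z
    simp [Equiv.permCongr_apply]
  right_inv α := by
    apply Subtype.ext
    ext z
    show e.permCongr (e.symm.permCongr α.1) z = α.1 z
    simp [Equiv.permCongr_apply]

private theorem cg_glu_apply {E D : Type} (e : E ≃ D) (α : Glu E) (z : E) :
    (cg_glu e α).1 (e z) = e (α.1 z) := cg_map_apply e α z

private def cg_E {ι ι' : Type} (p' : ι' → ℕ) (e : ι ≃ ι') :
    Dt (fun i => p' (e i)) ≃ Dt p' :=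
  Equiv.sigmaCongrLeft (β := fun i => Fin (p' i)) e

private theorem cg_fst {ι ι' : Type} (p' : ι' → ℕ) (e : ι ≃ ι') (z : Dt (fun i => p' (e i))) :
    (cg_E p' e z).1 = e z.1 := rfl

private theorem cg_rot {ι ι' : Type} (p' : ι' → ℕ) (e : ι ≃ ι') (z : Dt (fun i => p' (e i))) :
    rot p' (cg_E p' e z) = cg_E p' e (rot (fun i => p' (e i)) z) := rfl

private theorem cg_vn {ι ι' : Type} (p' : ι' → ℕ) (e : ι ≃ ι') (α : Glu (Dt (fun i => p' (e i)))) :
    vn p' (cg_glu (cg_E p' e) α) = vn (fun i => p' (e i)) α := by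
  unfold vn
  congr 1
  · refine cg_cyc (cg_E p' e) _ _ fun z => ?_
    rw [Equiv.Perm.mul_apply, Equiv.Perm.mul_apply, cg_glu_apply, cg_rot]
  · exact (Nat.card_congr (e.subtypeEquiv fun i => Iff.rfl)).symm

private theorem cg_Cn {ι ι' : Type} (p' : ι' → ℕ) (e : ι ≃ ι') (α : Glu (Dt (fun i => p' (e i)))) :
    Cn p' (cg_glu (cg_E p' e) α) ↔ Cn (fun i => p' (e i)) α := by
  unfold Cn
  constructor
  · rintro ⟨h1, h2⟩
    refine ⟨e.nonempty_congr.2 h1, fun S hS hc => ?_⟩
    have h3 := h2 (e.symm ⁻¹' S) (by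
      obtain ⟨i, hi⟩ := hS
      exact ⟨e i, by rwa [Set.mem_preimage, Equiv.symm_apply_apply]⟩) (by
      intro d hd
      obtain ⟨z, rfl⟩ := (cg_E p' e).surjective d
      rw [cg_glu_apply]
      rw [cg_fst, Set.mem_preimage, Equiv.symm_apply_apply] at hd ⊢
      exact hc z hd)
    ext i
    have h4 : e i ∈ e.symm ⁻¹' S := by
      rw [h3]
      trivial
    rw [Set.mem_preimage, Equiv.symm_apply_apply] at h4
    exact ⟨fun _ => trivial, fun _ => h4⟩
  · rintro ⟨h1, h2⟩
    refine ⟨e.nonempty_congr.1 h1, fun S hS hc => ?_⟩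
    have h3 := h2 (e ⁻¹' S) (by
      obtain ⟨i, hi⟩ := hS
      exact ⟨e.symm i, by rwa [Set.mem_preimage, Equiv.apply_symm_apply]⟩) (by
      intro z hz
      have h4 := hc (cg_E p' e z) hz
      rw [cg_glu_apply] at h4
      exact h4)
    ext i
    have h4 : e.symm i ∈ e ⁻¹' S := by
      rw [h3]
      trivial
    rw [Set.mem_preimage, Equiv.apply_symm_apply] at h4
    exact ⟨fun _ => trivial, fun _ => h4⟩

theorem con_congr {ι ι' : Type} [Finite ι] [Finite ι'] {p : ι → ℕ} {p' : ι' → ℕ} (e : ι ≃ ι')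
    (h : ∀ i, p' (e i) = p i) : con p = con p' := by
  obtain rfl : p = fun i => p' (e i) := funext fun i => (h i).symm
  unfold con
  rw [← finsum_comp_equiv ((cg_glu (cg_E p' e)).subtypeEquiv
    (p := Cn fun i => p' (e i)) (q := Cn p') fun α => (cg_Cn p' e α).symm)]
  refine finsum_congr fun α => ?_
  rw [← cg_vn p' e α.1]
  rfl

theorem tot_congr {ι ι' : Type} [Finite ι] [Finite ι'] {p : ι → ℕ} {p' : ι' → ℕ} (e : ι ≃ ι')
    (h : ∀ i, p' (e i) = p i) : tot p = tot p' := by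
  obtain rfl : p = fun i => p' (e i) := funext fun i => (h i).symm
  unfold tot
  rw [← finsum_comp_equiv (cg_glu (cg_E p' e))]
  refine finsum_congr fun α => ?_
  rw [← cg_vn p' e α]

end SYS.A
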