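import Pool.Agent.SYS.A.Cgr

/-!
# SYS-A-CgrB: families and multisets

PROOF. `fam_map`: `Multiset.map_univ_coe`-type lemma (`P.ToType` is `{x : ℕ × ℕ // x.2 < P.count x.1}`). `exists_equiv`: the fibres of `p` and `p'` over every `k` have the same cardinality `Multiset.count k (univ.val.map p)`
(`Multiset.count_map`); glue bijections of the fibres (`Equiv.sigmaFiberEquiv`, `Fintype.equivOfCardEq`). `con_eq`, `tot_eq`: `exists_equiv` with `p' = fam (univ.val.map p)`, `fam_map`, `con_congr`, `tot_congr`.
-/

namespace SYS.A

open Polynomial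

theorem fam_map (P : Multiset ℕ) : Finset.univ.val.map (fam P) = P :=
  Multiset.map_univ_coe P

/-- Two finite families with the same multiset of values are isomorphic. -/
theorem exists_equiv {ι ι' : Type} [Fintype ι] [Fintype ι'] {p : ι → ℕ} {p' : ι' → ℕ}
    (h : Finset.univ.val.map p = Finset.univ.val.map p') : ∃ e : ι ≃ ι', ∀ i, p' (e i) = p i := by
  classical
  have hc : ∀ k : ℕ, Fintype.card {i // p i = k} = Fintype.card {i // p' i = k} := by
    intro k
    have h1 := congrArg (Multiset.count k) h
    rw [Multiset.count_map, Multiset.count_map] at h1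
    rw [Fintype.card_subtype, Fintype.card_subtype, Finset.card_def, Finset.card_def,
      Finset.filter_val, Finset.filter_val]
    have e1 : ∀ (κ : Type) [Fintype κ] (f : κ → ℕ),
        Multiset.filter (fun a => f a = k) (Finset.univ : Finset κ).val =
          Multiset.filter (fun a => k = f a) (Finset.univ : Finset κ).val := by
      intro κ _ f
      exact Multiset.filter_congr fun a _ => eq_comm
    rw [e1 ι p, e1 ι' p']
    exact h1
  refine ⟨Equiv.ofFiberEquiv (f := p) (g := p') fun k => Fintype.equivOfCardEq (hc k), fun i => ?_⟩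
  exact Equiv.ofFiberEquiv_map _ i

theorem con_eq {ι : Type} [Fintype ι] (p : ι → ℕ) : con p = conM (Finset.univ.val.map p) := by
  obtain ⟨e, he⟩ := exists_equiv (p := p) (p' := fam (Finset.univ.val.map p)) (fam_map _).symm
  exact con_congr e he

theorem tot_eq {ι : Type} [Fintype ι] (p : ι → ℕ) : tot p = totM (Finset.univ.val.map p) := by
  obtain ⟨e, he⟩ := exists_equiv (p := p) (p' := fam (Finset.univ.val.map p)) (fam_map _).symm
  exact tot_congr e he

end SYS.A
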