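import Pool.Agent.SYS.A.Defs

/-!
# SYS-A-Conv: convolution over multisets

PROOF. `conv_zero`: `Multiset.antidiagonal_zero`. `conv_cons`: `Multiset.antidiagonal_cons`, `Multiset.map_add`, `Multiset.sum_add`, `Multiset.map_map`.
`conv_comm`: `Multiset.map_swap_antidiagonal`. `conv_congr`: `Multiset.mem_antidiagonal`. `conv_map`: `map_multiset_sum`.
-/

namespace SYS.A

variable {R : Type} [CommSemiring R]

theorem conv_zero (f g : Multiset ℕ → R) : conv f g 0 = f 0 * g 0 := by
  unfold conv
  rw [Multiset.antidiagonal_zero, Multiset.map_singleton, Multiset.sum_singleton]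

theorem conv_cons (f g : Multiset ℕ → R) (k : ℕ) (P : Multiset ℕ) :
    conv f g (k ::ₘ P) = conv f (fun Q => g (k ::ₘ Q)) P + conv (fun Q => f (k ::ₘ Q)) g P := by
  unfold conv
  rw [Multiset.antidiagonal_cons, Multiset.map_add, Multiset.sum_add, Multiset.map_map,
    Multiset.map_map]
  rfl

theorem conv_comm (f g : Multiset ℕ → R) (P : Multiset ℕ) : conv f g P = conv g f P := by
  unfold conv
  rw [← Multiset.map_swap_antidiagonal P, Multiset.map_map, Multiset.map_swap_antidiagonal]
  congr 1
  refine Multiset.map_congr rfl fun x _ => ?_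
  exact mul_comm _ _

theorem conv_congr {f g f' g' : Multiset ℕ → R} {P : Multiset ℕ} (hf : ∀ Q ≤ P, f Q = f' Q)
    (hg : ∀ Q ≤ P, g Q = g' Q) : conv f g P = conv f' g' P := by
  unfold conv
  congr 1
  refine Multiset.map_congr rfl fun x hx => ?_
  rw [Multiset.mem_antidiagonal] at hx
  rw [hf x.1 (by rw [← hx]; exact Multiset.le_add_right _ _),
    hg x.2 (by rw [← hx]; exact Multiset.le_add_left _ _)]

theorem conv_add_right (f g g' : Multiset ℕ → R) (P : Multiset ℕ) :
    conv f (fun Q => g Q + g' Q) P = conv f g P + conv f g' P := by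
  unfold conv
  rw [← Multiset.sum_map_add]
  congr 1
  refine Multiset.map_congr rfl fun x _ => ?_
  exact mul_add _ _ _

theorem conv_mul_right (c : R) (f g : Multiset ℕ → R) (P : Multiset ℕ) :
    conv f (fun Q => c * g Q) P = c * conv f g P := by
  unfold conv
  rw [← Multiset.sum_map_mul_left]
  congr 1
  refine Multiset.map_congr rfl fun x _ => ?_
  exact mul_left_comm _ _ _

theorem conv_map {S : Type} [CommSemiring S] (φ : R →+* S) (f g : Multiset ℕ → R)
    (P : Multiset ℕ) : φ (conv f g P) = conv (fun Q => φ (f Q)) (fun Q => φ (g Q)) P := by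
  unfold conv
  rw [map_multiset_sum, Multiset.map_map]
  congr 1
  refine Multiset.map_congr rfl fun x _ => ?_
  exact map_mul φ _ _

end SYS.A
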