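import Pool.Agent.SYS.A.Conv

/-!
# SYS-A-ConvB: three more facts on the convolution

PROOF. `conv_erase`: induction on `P` for all `f`, `u`. For `a ::ₘ P` use `((a ::ₘ P).map fun q => v q ((a ::ₘ P).erase q)).sum = v a P + (P.map fun q => v q (a ::ₘ P.erase q)).sum` (`(a ::ₘ P).erase q = a ::ₘ P.erase q` for
`q ∈ P`), `conv_cons` on both sides and the induction hypothesis for `f`, `fun q Q => u q (a ::ₘ Q)` and for `fun Q => f (a ::ₘ Q)`, `u`.
`conv_subsets`: induction on the Finset `s` for `∑ A ∈ s.powerset, f (A.val.map p) * g ((s \ A).val.map p) = conv f g (s.val.map p)` (`Finset.sum_powerset_insert`, `conv_cons`), then `s = univ`.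
`conv_replicate`: induction on `F` for all `f g` (`Multiset.replicate_succ`, `Multiset.add_cons`, `conv_cons`, Pascal: `Finset.Nat.antidiagonal` sums as in the proof of the binomial theorem), or `Multiset.antidiagonal_add`.
-/

namespace SYS.A

variable {R : Type} [CommSemiring R]

private theorem sum_erase_cons {M : Type} [AddCommMonoid M] (v : ℕ → Multiset ℕ → M) (a : ℕ)
    (P : Multiset ℕ) : ((a ::ₘ P).map fun q => v q ((a ::ₘ P).erase q)).sum =
      v a P + (P.map fun q => v q (a ::ₘ P.erase q)).sum := by
  rw [Multiset.map_cons, Multiset.sum_cons, Multiset.erase_cons_head]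
  congr 2
  exact Multiset.map_congr rfl fun q hq => by rw [Multiset.erase_cons_tail_of_mem hq]

/-- Sum over `q ∈ P` (with multiplicity) and the splittings of `P - q`. -/
theorem conv_erase (f : Multiset ℕ → R) (u : ℕ → Multiset ℕ → R) (P : Multiset ℕ) :
    conv f (fun Q => (Q.map fun q => u q (Q.erase q)).sum) P =
      (P.map fun q => conv f (u q) (P.erase q)).sum := by
  induction P using Multiset.induction_on generalizing f u with
  | empty => rw [conv_zero, Multiset.map_zero, Multiset.map_zero, Multiset.sum_zero, mul_zero]

  | cons a P ih =>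
    rw [sum_erase_cons (fun q Q => conv f (u q) Q) a P, conv_cons]
    have h1 : (fun Q : Multiset ℕ =>
        ((a ::ₘ Q).map fun q => u q ((a ::ₘ Q).erase q)).sum) =
        fun Q => u a Q + (Q.map fun q => u q (a ::ₘ Q.erase q)).sum :=
      funext fun Q => sum_erase_cons u a Q
    rw [h1, conv_add_right, ih f (fun q Q => u q (a ::ₘ Q)), ih (fun Q => f (a ::ₘ Q)) u]
    have h2 : (P.map fun q => conv f (u q) (a ::ₘ P.erase q)).sum =
        (P.map fun q => conv f (fun Q => u q (a ::ₘ Q)) (P.erase q)).sum +
          (P.map fun q => conv (fun Q => f (a ::ₘ Q)) (u q) (P.erase q)).sum := by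
      rw [← Multiset.sum_map_add]
      congr 1
      exact Multiset.map_congr rfl fun q _ => conv_cons f (u q) a (P.erase q)
    rw [h2, add_assoc]

private theorem conv_subsets_aux {ι : Type} [DecidableEq ι] (p : ι → ℕ) (s : Finset ι)
    (f g : Multiset ℕ → R) :
    ∑ A ∈ s.powerset, f (A.val.map p) * g ((s \ A).val.map p) = conv f g (s.val.map p) := by
  induction s using Finset.induction_on generalizing f g with
  | empty =>
    rw [Finset.powerset_empty, Finset.sum_singleton, Finset.empty_val, Multiset.map_zero,
      conv_zero, Finset.sdiff_self, Finset.empty_val, Multiset.map_zero]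
  | insert a s ha ih =>
    rw [Finset.sum_powerset_insert ha, Finset.insert_val_of_notMem ha, Multiset.map_cons,
      conv_cons, ← ih, ← ih]
    congr 1
    · refine Finset.sum_congr rfl fun A hA => ?_
      have hA' := Finset.mem_powerset.mp hA
      have haA : a ∉ A := fun h => ha (hA' h)
      have e1 : insert a s \ A = insert a (s \ A) := Finset.insert_sdiff_of_notMem s haA
      have e2 : a ∉ s \ A := fun h => ha (Finset.mem_sdiff.mp h).1
      rw [e1, Finset.insert_val_of_notMem e2, Multiset.map_cons]
    · refine Finset.sum_congr rfl fun A hA => ?_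
      have hA' := Finset.mem_powerset.mp hA
      have haA : a ∉ A := fun h => ha (hA' h)
      have e1 : insert a s \ insert a A = s \ A := by
        ext x
        simp only [Finset.mem_sdiff, Finset.mem_insert, not_or]
        constructor
        · rintro ⟨h1, h2, h3⟩
          exact ⟨h1.resolve_left h2, h3⟩
        · rintro ⟨h1, h2⟩
          exact ⟨Or.inr h1, fun h => ha (h ▸ h1), h2⟩
      rw [e1, Finset.insert_val_of_notMem haA, Multiset.map_cons]

/-- Splittings of the multiset of a family = subsets of the index set. -/
theorem conv_subsets {ι : Type} [Fintype ι] [DecidableEq ι] (p : ι → ℕ) (f g : Multiset ℕ → R) :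
    ∑ K : Finset ι, f (K.val.map p) * g (Kᶜ.val.map p) = conv f g (Finset.univ.val.map p) := by
  rw [← conv_subsets_aux p Finset.univ f g, Finset.powerset_univ]
  exact Finset.sum_congr rfl fun K _ => by rw [Finset.compl_eq_univ_sdiff]

theorem conv_replicate (f g : Multiset ℕ → R) (P : Multiset ℕ) (c F : ℕ) :
    conv f g (P + Multiset.replicate F c) =
      ∑ x ∈ Finset.HasAntidiagonal.antidiagonal F, (F.choose x.1 : R) *
        conv (fun Q => f (Q + Multiset.replicate x.1 c))
          (fun Q => g (Q + Multiset.replicate x.2 c)) P := by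
  induction F generalizing f g with
  | zero =>
    rw [Finset.Nat.antidiagonal_zero, Finset.sum_singleton, Nat.choose_self, Nat.cast_one,
      one_mul, Multiset.replicate_zero, add_zero]
    simp only [add_zero]
  | succ F ih =>
    rw [Multiset.replicate_succ, Multiset.add_cons, conv_cons, ih, ih,
      Finset.sum_antidiagonal_choose_succ_mul (fun i j =>
        conv (fun Q => f (Q + Multiset.replicate i c))
          (fun Q => g (Q + Multiset.replicate j c)) P) F]
    congr 1
    · refine Finset.sum_congr rfl fun x _ => ?_
      simp only [Multiset.replicate_succ, Multiset.add_cons]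
    · refine Finset.sum_congr rfl fun x hx => ?_
      have hx' := Finset.HasAntidiagonal.mem_antidiagonal.mp hx
      rw [← Nat.choose_symm_of_eq_add hx'.symm]
      simp only [Multiset.replicate_succ, Multiset.add_cons]

end SYS.A
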