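import Pool.Agent.SYS.A.DecA

/-!
# SYS-A-Dec: all gluings by the component of a polygon

PROOF. For a gluing `α` let `K(α)` be the intersection of all `S ∋ i₀` with `α S ⊆ S`. Then `K = K(α)` iff `i₀ ∈ K`, `α K ⊆ K` and the restriction
of `α` to `K` is connected: (⇒) a nonempty `α`-closed `S ⊆ K(α)` (closed under `α`, so its complement in `K(α)` is closed too, `α` is an
involution) contains `i₀` or its complement does; (⇐) clear. Sum `X ^ vn p α` over the fibres of `K(α)` (`Finset.sum_fiberwise`, finsums to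
Finset sums with `finsum_eq_sum_of_fintype`), each fibre is `{connected gluings of K} × {gluings of the complement}` by `glu_split`.
Model: `SST/T/Comp.lean`.
-/

namespace SYS.A

open Polynomial

/-- The gluing maps the darts of the polygons in `S` to darts of polygons in `S`. -/
private def Cl {ι : Type} (p : ι → ℕ) (α : Glu (Dt p)) (S : Set ι) : Prop :=
  ∀ d : Dt p, d.1 ∈ S → (α.1 d).1 ∈ S

/-- The polygons reachable from `i₀`. -/
private def cmpS {ι : Type} (p : ι → ℕ) (i₀ : ι) (α : Glu (Dt p)) : Set ι :=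
  {y | ∀ S : Set ι, i₀ ∈ S → Cl p α S → y ∈ S}

private lemma cmpS_self {ι : Type} (p : ι → ℕ) (i₀ : ι) (α : Glu (Dt p)) : i₀ ∈ cmpS p i₀ α :=
  fun _ h _ => h

private lemma cmpS_closed {ι : Type} (p : ι → ℕ) (i₀ : ι) (α : Glu (Dt p)) :
    Cl p α (cmpS p i₀ α) :=
  fun d hd S h0 hS => hS d (hd S h0 hS)

private lemma cl_compl {ι : Type} (p : ι → ℕ) (α : Glu (Dt p)) {S : Set ι} (h : Cl p α S) :
    Cl p α Sᶜ := by
  intro d hd hd'
  have h1 := h _ hd'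
  rw [α.2.1] at h1
  exact hd h1

private lemma split_fin {ι : Type} [Finite ι] (p : ι → ℕ) (K : Finset ι) :
    ∃ e : {α : Glu (Dt p) // ∀ d : Dt p, d.1 ∈ K → (α.1 d).1 ∈ K} ≃
        Glu (Dt fun i : {i // i ∈ K} => p i) × Glu (Dt fun i : {i // i ∉ K} => p i),
      ∀ α, vn p α.1 = vn _ (e α).1 + vn _ (e α).2 ∧
        (∀ d, inc p ((e α).1.1 d) = α.1.1 (inc p d)) ∧
        (∀ d, inc p ((e α).2.1 d) = α.1.1 (inc p d)) :=
  glu_split p (K : Set ι)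

private lemma conn_res {ι : Type} (p : ι → ℕ) (i₀ : ι) (K : Finset ι) (h0 : i₀ ∈ K)
    (α : Glu (Dt p)) (hα : ∀ y, y ∈ K ↔ y ∈ cmpS p i₀ α) (β : Glu (Dt fun i : {i // i ∈ K} => p i))
    (hβ : ∀ d, inc p (β.1 d) = α.1 (inc p d)) : Cn (fun i : {i // i ∈ K} => p i) β := by
  refine ⟨⟨⟨i₀, h0⟩⟩, ?_⟩
  intro S hne hS
  have hc : Cl p α {i | ∃ h : i ∈ K, (⟨i, h⟩ : {i // i ∈ K}) ∈ S} := by
    rintro ⟨i, j⟩ ⟨h, hi⟩
    have h1 := hβ ⟨⟨i, h⟩, j⟩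
    have h2 : inc p (q := fun i => i ∈ K) ⟨⟨i, h⟩, j⟩ = ⟨i, j⟩ := rfl
    rw [h2] at h1
    rw [← h1]
    exact ⟨(β.1 ⟨⟨i, h⟩, j⟩).1.2, hS ⟨⟨i, h⟩, j⟩ hi⟩
  by_cases hi : i₀ ∈ {i | ∃ h : i ∈ K, (⟨i, h⟩ : {i // i ∈ K}) ∈ S}
  · ext ⟨y, hy⟩
    simp only [Set.mem_univ, iff_true]
    obtain ⟨_, h2⟩ := (hα y).1 hy _ hi hc
    exact h2
  · exfalso
    obtain ⟨⟨y, hy⟩, hyS⟩ := hne
    exact (hα y).1 hy _ hi (cl_compl p α hc) ⟨hy, hyS⟩

private lemma cmp_glue {ι : Type} (p : ι → ℕ) (i₀ : ι) (K : Finset ι) (h0 : i₀ ∈ K)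
    (α : Glu (Dt p)) (hcl : ∀ d : Dt p, d.1 ∈ K → (α.1 d).1 ∈ K)
    (β : Glu (Dt fun i : {i // i ∈ K} => p i))
    (hβ : ∀ d, inc p (β.1 d) = α.1 (inc p d)) (hc : Cn (fun i : {i // i ∈ K} => p i) β) (y : ι) :
    y ∈ K ↔ y ∈ cmpS p i₀ α := by
  constructor
  · intro hy S hS0 hS
    have h1 := hc.2 {z : {i // i ∈ K} | z.1 ∈ S} ⟨⟨i₀, h0⟩, hS0⟩ (by
      intro d hd
      have h2 := hS (inc p d) hd
      rw [← hβ] at h2
      exact h2)
    have h2 : (⟨y, hy⟩ : {i // i ∈ K}) ∈ {z : {i // i ∈ K} | z.1 ∈ S} := by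
      rw [h1]; trivial
    exact h2
  · intro h
    exact h (K : Set ι) h0 hcl

private lemma exists_equiv {ι : Type} [Finite ι] (p : ι → ℕ) (i₀ : ι) (K : Finset ι) (h0 : i₀ ∈ K) :
    ∃ e : {α : Glu (Dt p) // ∀ y, y ∈ K ↔ y ∈ cmpS p i₀ α} ≃
      {β : Glu (Dt fun i : {i // i ∈ K} => p i) // Cn _ β} × Glu (Dt fun i : {i // i ∉ K} => p i),
      ∀ α, vn p α.1 = vn _ (e α).1.1 + vn _ (e α).2 := by
  obtain ⟨e, he⟩ := split_fin p K
  have hcl : ∀ α : {α : Glu (Dt p) // ∀ y, y ∈ K ↔ y ∈ cmpS p i₀ α},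
      ∀ d : Dt p, d.1 ∈ K → (α.1.1 d).1 ∈ K := by
    intro α d hd
    exact (α.2 _).2 (cmpS_closed p i₀ α.1 d ((α.2 _).1 hd))
  refine ⟨⟨fun α => (⟨(e ⟨α.1, hcl α⟩).1, conn_res p i₀ K h0 α.1 α.2 _ (he ⟨α.1, hcl α⟩).2.1⟩,
    (e ⟨α.1, hcl α⟩).2), fun z => ⟨(e.symm (z.1.1, z.2)).1, ?_⟩, ?_, ?_⟩, ?_⟩
  · refine cmp_glue p i₀ K h0 _ (e.symm (z.1.1, z.2)).2 z.1.1 ?_ z.1.2
    intro d
    have h1 := (he (e.symm (z.1.1, z.2))).2.1 d
    rw [Equiv.apply_symm_apply] at h1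
    exact h1
  · intro α
    apply Subtype.ext
    change (e.symm (e ⟨α.1, hcl α⟩)).1 = α.1
    rw [Equiv.symm_apply_apply]
  · intro z
    have h1 : (⟨(e.symm (z.1.1, z.2)).1, (e.symm (z.1.1, z.2)).2⟩ :
      {α : Glu (Dt p) // ∀ d : Dt p, d.1 ∈ K → (α.1 d).1 ∈ K}) = e.symm (z.1.1, z.2) := rfl
    apply Prod.ext
    · apply Subtype.ext
      change (e (e.symm (z.1.1, z.2))).1 = z.1.1
      rw [Equiv.apply_symm_apply]
    · change (e (e.symm (z.1.1, z.2))).2 = z.2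
      rw [Equiv.apply_symm_apply]
  · intro α
    exact (he ⟨α.1, hcl α⟩).1

private lemma sum_fiber {ι : Type} [Finite ι] (p : ι → ℕ) (i₀ : ι) (K : Finset ι) (h0 : i₀ ∈ K)
    [Fintype {α : Glu (Dt p) // ∀ y, y ∈ K ↔ y ∈ cmpS p i₀ α}] :
    ∑ α : {α : Glu (Dt p) // ∀ y, y ∈ K ↔ y ∈ cmpS p i₀ α}, (X : ℚ[X]) ^ vn p α.1 =
      con (fun i : {i // i ∈ K} => p i) * tot (fun i : {i // i ∉ K} => p i) := by
  classical
  obtain ⟨e, he⟩ := exists_equiv p i₀ K h0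
  have : Finite {β : Glu (Dt fun i : {i // i ∈ K} => p i) // Cn _ β} := inferInstance
  have : Fintype {β : Glu (Dt fun i : {i // i ∈ K} => p i) // Cn _ β} := Fintype.ofFinite _
  have : Fintype (Glu (Dt fun i : {i // i ∉ K} => p i)) := Fintype.ofFinite _
  unfold con tot
  rw [finsum_eq_sum_of_fintype, finsum_eq_sum_of_fintype, Fintype.sum_mul_sum,
    ← Fintype.sum_prod_type', ← e.sum_comp]
  apply Finset.sum_congr rfl
  intro q _
  rw [he q, pow_add]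

theorem tot_dec {ι : Type} [Fintype ι] [DecidableEq ι] (p : ι → ℕ) (i₀ : ι) :
    tot p = ∑ K ∈ (Finset.univ : Finset (Finset ι)).filter (fun K => i₀ ∈ K),
      con (fun i : {i // i ∈ K} => p i) * tot (fun i : {i // i ∉ K} => p i) := by
  classical
  have : Fintype (Glu (Dt p)) := Fintype.ofFinite _
  have h1 : tot p = ∑ α : Glu (Dt p), (X : ℚ[X]) ^ vn p α := finsum_eq_sum_of_fintype _
  rw [h1, ← Finset.sum_fiberwise Finset.univ
    (fun α : Glu (Dt p) => Finset.univ.filter fun y => y ∈ cmpS p i₀ α)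
    (fun α : Glu (Dt p) => (X : ℚ[X]) ^ vn p α), Finset.sum_filter]
  apply Finset.sum_congr rfl
  intro K _
  by_cases hK : i₀ ∈ K
  · rw [if_pos hK, ← sum_fiber p i₀ K hK]
    rw [Finset.sum_subtype (p := fun α : Glu (Dt p) => ∀ y, y ∈ K ↔ y ∈ cmpS p i₀ α)]
    intro α
    simp only [Finset.mem_filter, Finset.mem_univ, true_and]
    constructor
    · intro h y
      rw [← h]
      simp
    · intro h
      ext y
      rw [h y]
      simp
  · rw [if_neg hK]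
    apply Finset.sum_eq_zero
    intro α hα
    exfalso
    apply hK
    simp only [Finset.mem_filter, Finset.mem_univ, true_and] at hα
    rw [← hα]
    simp [cmpS_self]

end SYS.A
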