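import Pool.Agent.SYS.A.Defs

/-!
# SYS-A-DecA: gluings which respect a splitting of the polygons

`inc` is the inclusion of the darts. PROOF. A gluing `α` with `α K ⊆ K` also respects the complement (`α` is an involution); restrict it
to both parts (`Equiv.Perm.subtypePerm`, or define the two involutions directly). Conversely glue two gluings (`Equiv.sumCongr` conjugated by
`Dt p ≃ Dt (p|K) ⊕ Dt (p|Kᶜ)`). Vertices: `rot` respects the splitting, the cycles of `rot p * α` are those of the two parts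
(`SST/T/Sum.lean`, `card_V_dsum` is the model), and `{i // p i = 0}` is the disjoint union of the two corresponding sets.
-/

namespace SYS.A

/-- Inclusion of the darts of a subfamily. -/
def inc {ι : Type} (p : ι → ℕ) {q : ι → Prop} (d : Dt fun i : {i // q i} => p i) : Dt p :=
  ⟨d.1.1, d.2⟩

private theorem zpow_semi {D D' : Type} (σ : Equiv.Perm D) (τ : Equiv.Perm D') (f : D' → D)
    (h : ∀ x, σ (f x) = f (τ x)) (i : ℤ) : ∀ x, (σ ^ i) (f x) = f ((τ ^ i) x) := by
  have hinv : ∀ x, σ⁻¹ (f x) = f (τ⁻¹ x) := by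
    intro x
    rw [Equiv.Perm.inv_eq_iff_eq, h]
    simp
  induction i with
  | zero => intro x; simp
  | succ i ih =>
    intro x
    rw [zpow_add_one, zpow_add_one, Equiv.Perm.mul_apply, Equiv.Perm.mul_apply, h, ih]
  | pred i ih =>
    intro x
    rw [zpow_sub_one, zpow_sub_one, Equiv.Perm.mul_apply, Equiv.Perm.mul_apply, hinv, ih]

private theorem cyc_split {D D₁ D₂ : Type} [Finite D₁] [Finite D₂] (σ : Equiv.Perm D)
    (τ₁ : Equiv.Perm D₁) (τ₂ : Equiv.Perm D₂) (f₁ : D₁ → D) (f₂ : D₂ → D)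
    (i₁ : Function.Injective f₁) (i₂ : Function.Injective f₂) (hne : ∀ x y, f₁ x ≠ f₂ y)
    (hs : ∀ d, (∃ x, f₁ x = d) ∨ ∃ y, f₂ y = d)
    (h₁ : ∀ x, σ (f₁ x) = f₁ (τ₁ x)) (h₂ : ∀ x, σ (f₂ x) = f₂ (τ₂ x)) :
    SST.T.cyc σ = SST.T.cyc τ₁ + SST.T.cyc τ₂ := by
  have z₁ := fun i => zpow_semi σ τ₁ f₁ h₁ i
  have z₂ := fun i => zpow_semi σ τ₂ f₂ h₂ i
  have hll : ∀ x y, σ.SameCycle (f₁ x) (f₁ y) ↔ τ₁.SameCycle x y := by
    intro x y
    constructor
    · rintro ⟨i, hi⟩
      rw [z₁] at hi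
      exact ⟨i, i₁ hi⟩
    · rintro ⟨i, hi⟩
      exact ⟨i, by rw [z₁, hi]⟩
  have hrr : ∀ x y, σ.SameCycle (f₂ x) (f₂ y) ↔ τ₂.SameCycle x y := by
    intro x y
    constructor
    · rintro ⟨i, hi⟩
      rw [z₂] at hi
      exact ⟨i, i₂ hi⟩
    · rintro ⟨i, hi⟩
      exact ⟨i, by rw [z₂, hi]⟩
  have hlr : ∀ x y, ¬ σ.SameCycle (f₁ x) (f₂ y) := by
    rintro x y ⟨i, hi⟩
    rw [z₁] at hi
    exact hne _ _ hi
  let Q := Quotient (Equiv.Perm.SameCycle.setoid σ)
  let Q₁ := Quotient (Equiv.Perm.SameCycle.setoid τ₁)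
  let Q₂ := Quotient (Equiv.Perm.SameCycle.setoid τ₂)
  let g : Q₁ ⊕ Q₂ → Q := Sum.elim
    (Quotient.lift (fun x => (Quotient.mk (Equiv.Perm.SameCycle.setoid σ) (f₁ x) : Q))
      (fun x y h => Quotient.sound ((hll x y).2 h)))
    (Quotient.lift (fun x => (Quotient.mk (Equiv.Perm.SameCycle.setoid σ) (f₂ x) : Q))
      (fun x y h => Quotient.sound ((hrr x y).2 h)))
  have hg : Function.Bijective g := by
    constructor
    · rintro (x | x) (y | y) h
      · induction x using Quotient.inductionOn with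
        | _ x =>
          induction y using Quotient.inductionOn with
          | _ y =>
            have h2 := Quotient.exact h
            exact congrArg Sum.inl (Quotient.sound ((hll x y).1 h2))
      · induction x using Quotient.inductionOn with
        | _ x =>
          induction y using Quotient.inductionOn with
          | _ y =>
            have h2 := Quotient.exact h
            exact absurd h2 (hlr x y)
      · induction x using Quotient.inductionOn with
        | _ x =>
          induction y using Quotient.inductionOn with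
          | _ y =>
            have h2 := Quotient.exact h
            exact absurd (Equiv.Perm.SameCycle.symm h2) (hlr y x)
      · induction x using Quotient.inductionOn with
        | _ x =>
          induction y using Quotient.inductionOn with
          | _ y =>
            have h2 := Quotient.exact h
            exact congrArg Sum.inr (Quotient.sound ((hrr x y).1 h2))
    · intro v
      induction v using Quotient.inductionOn with
      | _ d =>
        rcases hs d with ⟨x, rfl⟩ | ⟨x, rfl⟩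
        · exact ⟨Sum.inl (Quotient.mk _ x), rfl⟩
        · exact ⟨Sum.inr (Quotient.mk _ x), rfl⟩
  have f1 : Finite Q₁ := inferInstanceAs (Finite (Quotient (Equiv.Perm.SameCycle.setoid τ₁)))
  have f2 : Finite Q₂ := inferInstanceAs (Finite (Quotient (Equiv.Perm.SameCycle.setoid τ₂)))
  show Nat.card Q = Nat.card Q₁ + Nat.card Q₂
  rw [← Nat.card_congr (Equiv.ofBijective g hg), Nat.card_sum]

private theorem inc_inj {ι : Type} (p : ι → ℕ) {q : ι → Prop} :
    Function.Injective (inc p (q := q)) := by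
  rintro ⟨⟨i, hi⟩, a⟩ ⟨⟨j, hj⟩, b⟩ h
  have h1 : i = j := congrArg Sigma.fst h
  subst h1
  have h2 : a = b := eq_of_heq (Sigma.mk.inj h).2
  subst h2
  rfl

private theorem inc_mem {ι : Type} (p : ι → ℕ) {q : ι → Prop}
    (d : Dt fun i : {i // q i} => p i) : q (inc p d).1 := d.1.2

private theorem inc_surj {ι : Type} (p : ι → ℕ) {q : ι → Prop} (d : Dt p) (h : q d.1) :
    ∃ x : Dt fun i : {i // q i} => p i, inc p x = d := ⟨⟨⟨d.1, h⟩, d.2⟩, rfl⟩

private theorem rot_inc {ι : Type} (p : ι → ℕ) {q : ι → Prop}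
    (d : Dt fun i : {i // q i} => p i) :
    rot p (inc p d) = inc p (rot (fun i : {i // q i} => p i) d) := rfl

/-- restriction of a gluing -/
private noncomputable def restr {ι : Type} (p : ι → ℕ) (q : ι → Prop) (α : Glu (Dt p))
    (h : ∀ d : Dt p, q d.1 → q (α.1 d).1) : Glu (Dt fun i : {i // q i} => p i) :=
  ⟨{ toFun := fun d => ⟨⟨(α.1 (inc p d)).1, h _ d.1.2⟩, (α.1 (inc p d)).2⟩
     invFun := fun d => ⟨⟨(α.1 (inc p d)).1, h _ d.1.2⟩, (α.1 (inc p d)).2⟩
     left_inv := by
       intro d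
       apply inc_inj p
       exact α.2.1 (inc p d)
     right_inv := by
       intro d
       apply inc_inj p
       exact α.2.1 (inc p d) },
   fun d => inc_inj p (α.2.1 (inc p d)), fun d hd => α.2.2 (inc p d) (congrArg (inc p) hd)⟩

private theorem inc_restr {ι : Type} (p : ι → ℕ) (q : ι → Prop) (α : Glu (Dt p))
    (h : ∀ d : Dt p, q d.1 → q (α.1 d).1) (d) :
    inc p ((restr p q α h).1 d) = α.1 (inc p d) := rfl

private theorem compl_of {ι : Type} (p : ι → ℕ) (K : Set ι) (α : Glu (Dt p))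
    (h : ∀ d : Dt p, d.1 ∈ K → (α.1 d).1 ∈ K) (d : Dt p) (hd : d.1 ∉ K) : (α.1 d).1 ∉ K := by
  intro hc
  apply hd
  have := h _ hc
  rwa [α.2.1] at this

open Classical in
/-- the union of two gluings, as a function -/
private noncomputable def gfun {ι : Type} (p : ι → ℕ) (K : Set ι)
    (β : Glu (Dt fun i : {i // i ∈ K} => p i)) (γ : Glu (Dt fun i : {i // i ∉ K} => p i)) :
    Dt p → Dt p := fun d =>
  if h : d.1 ∈ K then inc p (β.1 ⟨⟨d.1, h⟩, d.2⟩) else inc p (γ.1 ⟨⟨d.1, h⟩, d.2⟩)

private theorem gfun_l {ι : Type} (p : ι → ℕ) (K : Set ι)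
    (β : Glu (Dt fun i : {i // i ∈ K} => p i)) (γ : Glu (Dt fun i : {i // i ∉ K} => p i))
    (x : Dt fun i : {i // i ∈ K} => p i) : gfun p K β γ (inc p x) = inc p (β.1 x) := by
  have h : (inc p x).1 ∈ K := x.1.2
  rw [gfun, dif_pos h]
  rfl

private theorem gfun_r {ι : Type} (p : ι → ℕ) (K : Set ι)
    (β : Glu (Dt fun i : {i // i ∈ K} => p i)) (γ : Glu (Dt fun i : {i // i ∉ K} => p i))
    (x : Dt fun i : {i // i ∉ K} => p i) : gfun p K β γ (inc p x) = inc p (γ.1 x) := by
  have h : (inc p x).1 ∉ K := x.1.2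
  rw [gfun, dif_neg h]
  rfl

private theorem gfun_gfun {ι : Type} (p : ι → ℕ) (K : Set ι)
    (β : Glu (Dt fun i : {i // i ∈ K} => p i)) (γ : Glu (Dt fun i : {i // i ∉ K} => p i))
    (d : Dt p) : gfun p K β γ (gfun p K β γ d) = d := by
  by_cases h : d.1 ∈ K
  · obtain ⟨x, rfl⟩ := inc_surj p (q := fun i => i ∈ K) d h
    rw [gfun_l, gfun_l, β.2.1]
  · obtain ⟨x, rfl⟩ := inc_surj p (q := fun i => i ∉ K) d h
    rw [gfun_r, gfun_r, γ.2.1]

/-- the union of two gluings -/
private noncomputable def glue {ι : Type} (p : ι → ℕ) (K : Set ι)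
    (β : Glu (Dt fun i : {i // i ∈ K} => p i)) (γ : Glu (Dt fun i : {i // i ∉ K} => p i)) :
    Glu (Dt p) :=
  ⟨⟨gfun p K β γ, gfun p K β γ, gfun_gfun p K β γ, gfun_gfun p K β γ⟩, gfun_gfun p K β γ, by
    intro d hd
    change gfun p K β γ d = d at hd
    by_cases h : d.1 ∈ K
    · obtain ⟨x, rfl⟩ := inc_surj p (q := fun i => i ∈ K) d h
      rw [gfun_l] at hd
      exact β.2.2 x (inc_inj p hd)
    · obtain ⟨x, rfl⟩ := inc_surj p (q := fun i => i ∉ K) d h
      rw [gfun_r] at hd
      exact γ.2.2 x (inc_inj p hd)⟩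

theorem glu_split {ι : Type} [Finite ι] (p : ι → ℕ) (K : Set ι) :
    ∃ e : {α : Glu (Dt p) // ∀ d : Dt p, d.1 ∈ K → (α.1 d).1 ∈ K} ≃
        Glu (Dt fun i : {i // i ∈ K} => p i) × Glu (Dt fun i : {i // i ∉ K} => p i),
      ∀ α, vn p α.1 = vn _ (e α).1 + vn _ (e α).2 ∧
        (∀ d, inc p ((e α).1.1 d) = α.1.1 (inc p d)) ∧
        (∀ d, inc p ((e α).2.1 d) = α.1.1 (inc p d)) := by
  classical
  let F : {α : Glu (Dt p) // ∀ d : Dt p, d.1 ∈ K → (α.1 d).1 ∈ K} →
      Glu (Dt fun i : {i // i ∈ K} => p i) × Glu (Dt fun i : {i // i ∉ K} => p i) := fun α =>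
    (restr p (fun i => i ∈ K) α.1 α.2, restr p (fun i => i ∉ K) α.1 (compl_of p K α.1 α.2))
  have hF : Function.Bijective F := by
    constructor
    · intro α α' h
      have h1 : restr p (fun i => i ∈ K) α.1 α.2 = restr p (fun i => i ∈ K) α'.1 α'.2 :=
        congrArg Prod.fst h
      have h2 : restr p (fun i => i ∉ K) α.1 (compl_of p K α.1 α.2) =
          restr p (fun i => i ∉ K) α'.1 (compl_of p K α'.1 α'.2) := congrArg Prod.snd h
      apply Subtype.ext
      apply Subtype.ext
      apply Equiv.ext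
      intro d
      by_cases hd : d.1 ∈ K
      · obtain ⟨x, rfl⟩ := inc_surj p (q := fun i => i ∈ K) d hd
        rw [← inc_restr p (fun i => i ∈ K) α.1 α.2, h1, inc_restr]
      · obtain ⟨x, rfl⟩ := inc_surj p (q := fun i => i ∉ K) d hd
        rw [← inc_restr p (fun i => i ∉ K) α.1 (compl_of p K α.1 α.2), h2, inc_restr]
    · rintro ⟨β, γ⟩
      refine ⟨⟨glue p K β γ, ?_⟩, ?_⟩
      · intro d hd
        obtain ⟨x, rfl⟩ := inc_surj p (q := fun i => i ∈ K) d hd
        change (gfun p K β γ (inc p x)).1 ∈ K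
        rw [gfun_l]
        exact inc_mem p (q := fun i => i ∈ K) _
      · refine Prod.ext ?_ ?_
        · apply Subtype.ext
          apply Equiv.ext
          intro x
          apply inc_inj p
          exact gfun_l p K β γ x
        · apply Subtype.ext
          apply Equiv.ext
          intro x
          apply inc_inj p
          exact gfun_r p K β γ x
  refine ⟨Equiv.ofBijective F hF, fun α => ⟨?_, fun _ => rfl, fun _ => rfl⟩⟩
  have hc : SST.T.cyc (rot p * α.1.1) =
      SST.T.cyc (rot (fun i : {i // i ∈ K} => p i) * (F α).1.1) +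
        SST.T.cyc (rot (fun i : {i // i ∉ K} => p i) * (F α).2.1) := by
    refine cyc_split _ _ _ (inc p) (inc p) (inc_inj p) (inc_inj p) ?_ ?_ (fun _ => rfl)
      (fun _ => rfl)
    · intro x y h
      have h1 : (inc p x).1 ∈ K := x.1.2
      rw [h] at h1
      exact y.1.2 h1
    · intro d
      by_cases hd : d.1 ∈ K
      · exact Or.inl (inc_surj p (q := fun i => i ∈ K) d hd)
      · exact Or.inr (inc_surj p (q := fun i => i ∉ K) d hd)
  have hz : Nat.card {i // p i = 0} = Nat.card {i : {i // i ∈ K} // p i = 0} +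
      Nat.card {i : {i // i ∉ K} // p i = 0} := by
    let g : {i : {i // i ∈ K} // p i = 0} ⊕ {i : {i // i ∉ K} // p i = 0} → {i // p i = 0} :=
      Sum.elim (fun x => ⟨x.1.1, x.2⟩) (fun x => ⟨x.1.1, x.2⟩)
    have hg : Function.Bijective g := by
      constructor
      · rintro (⟨⟨x, hx⟩, hx'⟩ | ⟨⟨x, hx⟩, hx'⟩) (⟨⟨y, hy⟩, hy'⟩ | ⟨⟨y, hy⟩, hy'⟩) h
        · have : x = y := congrArg Subtype.val h
          subst this
          rfl
        · have : x = y := congrArg Subtype.val h
          subst this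
          exact absurd hx hy
        · have : x = y := congrArg Subtype.val h
          subst this
          exact absurd hy hx
        · have : x = y := congrArg Subtype.val h
          subst this
          rfl
      · rintro ⟨i, hi⟩
        by_cases h : i ∈ K
        · exact ⟨Sum.inl ⟨⟨i, h⟩, hi⟩, rfl⟩
        · exact ⟨Sum.inr ⟨⟨i, h⟩, hi⟩, rfl⟩
    rw [← Nat.card_congr (Equiv.ofBijective g hg), Nat.card_sum]
  change SST.T.cyc (rot p * α.1.1) + Nat.card {i // p i = 0} =
    (SST.T.cyc (rot (fun i : {i // i ∈ K} => p i) * (F α).1.1) +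
      Nat.card {i : {i // i ∈ K} // p i = 0}) +
    (SST.T.cyc (rot (fun i : {i // i ∉ K} => p i) * (F α).2.1) +
      Nat.card {i : {i // i ∉ K} // p i = 0})
  rw [hc, hz]
  ring

end SYS.A
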