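import Pool.Agent.SYS.A.Dec
import Pool.Agent.SYS.A.CgrB
import Pool.Agent.SYS.A.ConvB

/-!
# SYS-A-DecM: the same for multisets

PROOF. `ι = Option ι'` with `ι' = P.ToType`, `p none = k`, `p (some x) = fam P x`, `i₀ = none` (`tot_eq`, `con_eq`, `tot_congr`: its multiset
of values is `k ::ₘ P`). `tot_dec`; the `K ∋ none` correspond to the subsets `L` of `ι'` (`K = insertNone L`, or `K = insert none (L.map some)`),
the multiset of values of `p` on `K` is `k ::ₘ L.val.map (fam P)`, on the complement it is `Lᶜ.val.map (fam P)`; `conv_subsets`, `fam_map`.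
-/

namespace SYS.A

private theorem con_sub {ι : Type} [Fintype ι] [DecidableEq ι] (p : ι → ℕ) (K : Finset ι) :
    con (fun i : {i // i ∈ K} => p i) = conM (K.val.map p) := by
  rw [con_eq]
  congr 1
  have h1 : (Finset.univ : Finset {i // i ∈ K}) = K.attach := rfl
  rw [h1, Finset.attach_val]
  exact Multiset.attach_map_val' K.val p

private theorem tot_sub {ι : Type} [Fintype ι] [DecidableEq ι] (p : ι → ℕ) (K : Finset ι) :
    tot (fun i : {i // i ∉ K} => p i) = totM (Kᶜ.val.map p) := by
  have h0 : tot (fun i : {i // i ∉ K} => p i) = tot (fun i : {i // i ∈ Kᶜ} => p i) :=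
    tot_congr (Equiv.subtypeEquivRight fun i => by simp) (fun i => rfl)
  rw [h0, tot_eq]
  congr 1
  have h1 : (Finset.univ : Finset {i // i ∈ Kᶜ}) = Kᶜ.attach := rfl
  rw [h1, Finset.attach_val]
  exact Multiset.attach_map_val' Kᶜ.val p

theorem totM_cons (k : ℕ) (P : Multiset ℕ) :
    totM (k ::ₘ P) = conv (fun Q => conM (k ::ₘ Q)) totM P := by
  classical
  let p : Option P.ToType → ℕ := fun o => o.elim k (fam P)
  have hK : ∀ L : Finset P.ToType, (Finset.insertNone L).val.map p =
      k ::ₘ L.val.map (fam P) := by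
    intro L
    have h0 : (Finset.insertNone L).val = none ::ₘ L.val.map some := rfl
    rw [h0, Multiset.map_cons, Multiset.map_map]
    rfl
  have hL : ∀ L : Finset P.ToType, (Finset.insertNone L)ᶜ.val.map p = Lᶜ.val.map (fam P) := by
    intro L
    have : (Finset.insertNone L)ᶜ = Lᶜ.map Function.Embedding.some := by
      ext o
      cases o with
      | none => simp
      | some x => simp
    rw [this, Finset.map_val, Multiset.map_map]
    rfl
  have h1 : totM (k ::ₘ P) = tot p := by
    rw [tot_eq]
    congr 1
    rw [univ_option, hK, fam_map]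
  rw [h1, tot_dec p none]
  have h2 : ∑ K ∈ (Finset.univ : Finset (Finset (Option P.ToType))).filter (fun K => none ∈ K),
      con (fun i : {i // i ∈ K} => p i) * tot (fun i : {i // i ∉ K} => p i) =
      ∑ L : Finset P.ToType, conM (k ::ₘ L.val.map (fam P)) * totM (Lᶜ.val.map (fam P)) := by
    refine Finset.sum_nbij' (fun K => Finset.eraseNone K) (fun L => Finset.insertNone L) ?_ ?_ ?_
      ?_ ?_
    · intro K _
      exact Finset.mem_univ _
    · intro L _
      simp
    · intro K hK'
      rw [Finset.mem_filter] at hK'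
      rw [Finset.insertNone_eraseNone, Finset.insert_eq_self]
      exact hK'.2
    · intro L _
      exact Finset.eraseNone_insertNone L
    · intro K hK'
      rw [Finset.mem_filter] at hK'
      have e1 : Finset.insertNone (Finset.eraseNone K) = K := by
        rw [Finset.insertNone_eraseNone, Finset.insert_eq_self]
        exact hK'.2
      rw [con_sub, tot_sub, ← hK, ← hL, e1]
  rw [h2, conv_subsets (fam P) (fun Q => conM (k ::ₘ Q)) totM, fam_map]

private theorem empty_toType : IsEmpty (Multiset.ToType (0 : Multiset ℕ)) := by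
  refine ⟨fun x => ?_⟩
  have h1 : (x.2 : ℕ) < Multiset.count x.1 0 := x.2.2
  have h2 : Multiset.count x.1 (0 : Multiset ℕ) = 0 := Multiset.count_zero _
  omega

theorem totM_zero : totM 0 = 1 := by
  haveI := empty_toType
  haveI : IsEmpty (Dt (fam 0)) := ⟨fun d => this.false d.1⟩
  haveI : Unique (Glu (Dt (fam 0))) :=
    { default := ⟨1, fun _ => rfl, fun d => isEmptyElim d⟩
      uniq := fun α => Subtype.ext (Equiv.ext fun d => isEmptyElim d) }
  have h : ∀ α : Glu (Dt (fam 0)), vn (fam 0) α = 0 := by
    intro α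
    have h1 : Nat.card {i // fam 0 i = 0} = 0 := by
      haveI : IsEmpty {i // fam 0 i = 0} := ⟨fun d => IsEmpty.false d.1⟩
      exact Nat.card_of_isEmpty
    have h2 : SST.T.cyc (rot (fam 0) * α.1) = 0 := by
      have : IsEmpty (Quotient (Equiv.Perm.SameCycle.setoid (rot (fam 0) * α.1))) := by
        refine ⟨fun q => ?_⟩
        induction q using Quotient.inductionOn with
        | _ d => exact isEmptyElim d
      exact Nat.card_of_isEmpty
    rw [vn, h1, h2]
  unfold totM tot
  rw [finsum_unique, h, pow_zero]

theorem conM_zero : conM 0 = 0 := by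
  haveI := empty_toType
  haveI : IsEmpty {α : Glu (Dt (fam 0)) // Cn (fam 0) α} := by
    refine ⟨fun α => ?_⟩
    obtain ⟨x⟩ := α.2.1
    exact isEmptyElim x
  unfold conM con
  exact finsum_of_isEmpty _

end SYS.A
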