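import Pool.Agent.SST.T.Final

/-!
# Project SYS, block A (exact identities): definitions

A family `p : ι → ℕ` of cycle lengths describes `#ι` polygons (faces and holes); `Dt p` is the set of
the darts (sides), `rot p` the permutation `next side`. A gluing is a fixed point free involution of
`Dt p`. The vertices are the cycles of `rot p * α` and, by convention, one vertex for every polygon
with `0` sides. `con p` is the polynomial counting the connected gluings by the number of vertices,
`tot p` the same for all gluings. `conM P`, `totM P` are the same for a multiset `P` of lengths.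
`muP P F` counts the connected gluings of `F` triangles and (rooted, labelled) holes with the lengths
in `P`. DO NOT CHANGE.
-/

namespace SYS.A

open Polynomial

/-- Darts of the family `p` of polygons. -/
abbrev Dt {ι : Type} (p : ι → ℕ) : Type := Σ i, Fin (p i)

/-- The next side of the same polygon. -/
def rot {ι : Type} (p : ι → ℕ) : Equiv.Perm (Dt p) :=
  Equiv.sigmaCongrRight fun i => finRotate (p i)

/-- Gluings of the set `D` of sides. -/
def Glu (D : Type) : Type := {α : Equiv.Perm D // (∀ d, α (α d) = d) ∧ ∀ d, α d ≠ d}

instance (D : Type) [Finite D] : Finite (Glu D) := by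
  unfold Glu
  infer_instance

/-- The gluing connects all the polygons. -/
def Cn {ι : Type} (p : ι → ℕ) (α : Glu (Dt p)) : Prop :=
  Nonempty ι ∧ ∀ S : Set ι, S.Nonempty → (∀ d : Dt p, d.1 ∈ S → (α.1 d).1 ∈ S) → S = Set.univ

/-- Number of vertices. -/
noncomputable def vn {ι : Type} (p : ι → ℕ) (α : Glu (Dt p)) : ℕ :=
  SST.T.cyc (rot p * α.1) + Nat.card {i // p i = 0}

/-- All gluings, counted by the number of vertices. -/
noncomputable def tot {ι : Type} (p : ι → ℕ) : ℚ[X] := ∑ᶠ α : Glu (Dt p), X ^ vn p α

/-- Connected gluings, counted by the number of vertices. -/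
noncomputable def con {ι : Type} (p : ι → ℕ) : ℚ[X] :=
  ∑ᶠ α : {α : Glu (Dt p) // Cn p α}, X ^ vn p α.1

/-- The family given by a multiset. -/
def fam (P : Multiset ℕ) : P.ToType → ℕ := fun x => x.1

noncomputable def totM (P : Multiset ℕ) : ℚ[X] := tot (fam P)

noncomputable def conM (P : Multiset ℕ) : ℚ[X] := con (fam P)

/-- Connected gluings of `F` (unlabelled, unrooted) triangles and holes with the lengths `P`. -/
noncomputable def muP (P : Multiset ℕ) (F : ℕ) : ℚ[X] :=
  C (1 / ((3 : ℚ) ^ F * F.factorial)) * conM (P + Multiset.replicate F 3)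

/-- Convolution over the splittings of a multiset. -/
def conv {R : Type} [CommSemiring R] (f g : Multiset ℕ → R) (P : Multiset ℕ) : R :=
  (P.antidiagonal.map fun x => f x.1 * g x.2).sum

/-! ## Power series in the sources `t_0, t_1, ...` -/

/-- Power series in `t_0, t_1, ...`. -/
abbrev Sr : Type := MvPowerSeries ℕ ℚ

/-- `∂s/∂t_{k_1} ... ∂t_{k_r}` at `t = 0` for `P = {k_1, ..., k_r}`. -/
noncomputable def cf (s : Sr) (P : Multiset ℕ) : ℚ :=
  ((P.toFinset.prod fun k => (P.count k).factorial : ℕ) : ℚ) *
    MvPowerSeries.coeff (Multiset.toFinsupp P) s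

/-- The series with `cf (mk f) P = f P`. -/
noncomputable def mk (f : Multiset ℕ → ℚ) : Sr := fun m =>
  f (Finsupp.toMultiset m) / ((m.support.prod fun k => (m k).factorial : ℕ) : ℚ)

end SYS.A
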