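import Pool.Agent.SYS.A.TT

/-!
# SYS-A-GJT: the Goulden-Jackson recursion

PROOF. `n = 0`: direct. `n ≥ 1`: coefficient of `X ^ (n + 2 - 2 g)` of `kp_poly (2 n - 2)` (`j + 2 = 2 n`), if `2 g ≤ n + 2`: right side `9 (2n) (2n+2) 3^(2n) (cp (2n)).coeff (n + 2 - 2g)`, `= 9 (2n)(2n+2) 3^(2n) tau n g / (6 n)`
(`tau_coeff`) `= 6 (n+1) 3^(2n) tau n g` and `TT (n + 1) g = (3 n + 2) tau n g`. Left side: `27 (2n) (6 n - 4) (ph (2 (n-1))).coeff (n - 2 (g - 1))`, `= 27 * 2n (6n-4) * 2 * 3^(2n-2) TT (n - 1) (g - 1)` (`ph_coeff`; `0` if `g = 0` by `ph_supp`,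
since the coefficient `n + 2` of `ph (2 n - 2)` vanishes); and `6 ∑` over `p = (2 a, 2 b)` (`ph_supp`: odd ones vanish), `a + b = n`, coefficients `a + 1 - 2 h`, `b + 1 - 2 k` with `h + k = g`:
`6 * 4 * 3^(2n) TT a h * TT b k`. Multiply by `(3 n + 2) / (6 * 3^(2n))`. If `2 g > n + 2` all terms vanish (`TT_zero`). `TT_pos`: strong induction on `m = n + 1` with `gj`: for `g = 0` use the term
`TT 0 0 * TT n 0`; for `g ≥ 1`: if `2 g ≤ n` the term `TT 0 0 * TT n g` (for `n ≥ 2`; for `n = 1` there is no such `g ≥ 1`); if `2 g = n + 1` the first term `TT (n-1) (g-1)`, with `n (3 n - 2) > 0` (`n = 1, g = 1`: `TT 0 0 = 1/2`).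
-/

namespace SYS.A

open Polynomial SST.T

private theorem TT_ss {m : ℕ} (hm : 1 ≤ m) (g : ℕ) : TT (m + 1) g = (3 * m + 2) * tau m g := by
  obtain ⟨k, rfl⟩ := Nat.exists_eq_add_of_le' hm
  show (3 * ((k : ℝ) + 1) + 2) * tau (k + 1) g = _
  push_cast
  ring

private theorem TT_ne {m g : ℕ} (h : TT m g ≠ 0) : 2 * g ≤ m := by
  by_contra h'
  exact h (TT_zero (by omega))

private theorem ph_oddG {j : ℕ} (h : j % 2 = 1) : ph j = 0 := by
  ext v
  by_contra h'
  obtain ⟨g, hg⟩ := ph_supp (j := j) (v := v) (by simpa using h')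
  omega

private theorem inner_sum (a b g : ℕ) (hg : 2 * g ≤ a + b + 2) :
    (∑ s ∈ Finset.HasAntidiagonal.antidiagonal (a + b + 2 - 2 * g),
      (((ph (2 * a)).coeff s.1 * (ph (2 * b)).coeff s.2 : ℚ) : ℝ)) =
    4 * 3 ^ (2 * (a + b)) *
      ∑ q ∈ Finset.HasAntidiagonal.antidiagonal g, TT a q.1 * TT b q.2 := by
  rw [Finset.mul_sum]
  symm
  refine Finset.sum_bij_ne_zero (fun q _ _ => (a + 1 - 2 * q.1, b + 1 - 2 * q.2)) ?_ ?_ ?_ ?_
  · intro q hq hne
    rw [Finset.HasAntidiagonal.mem_antidiagonal] at hq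
    have h1 : TT a q.1 ≠ 0 := by
      intro h; rw [h] at hne; simp at hne
    have h2 : TT b q.2 ≠ 0 := by
      intro h; rw [h] at hne; simp at hne
    have h3 := TT_ne h1
    have h4 := TT_ne h2
    rw [Finset.HasAntidiagonal.mem_antidiagonal]
    show (a + 1 - 2 * q.1) + (b + 1 - 2 * q.2) = a + b + 2 - 2 * g
    omega
  · intro q hq hne q' hq' hne' he
    rw [Finset.HasAntidiagonal.mem_antidiagonal] at hq hq'
    have h1 : TT a q.1 ≠ 0 := by
      intro h; rw [h] at hne; simp at hne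
    have h2 : TT b q.2 ≠ 0 := by
      intro h; rw [h] at hne; simp at hne
    have h1' : TT a q'.1 ≠ 0 := by
      intro h; rw [h] at hne'; simp at hne'
    have h2' : TT b q'.2 ≠ 0 := by
      intro h; rw [h] at hne'; simp at hne'
    have h3 := TT_ne h1
    have h4 := TT_ne h2
    have h3' := TT_ne h1'
    have h4' := TT_ne h2'
    have h5 : a + 1 - 2 * q.1 = a + 1 - 2 * q'.1 := congrArg Prod.fst he
    have h6 : b + 1 - 2 * q.2 = b + 1 - 2 * q'.2 := congrArg Prod.snd he
    exact Prod.ext (by omega) (by omega)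
  · intro s hs hne
    rw [Finset.HasAntidiagonal.mem_antidiagonal] at hs
    have h1 : (ph (2 * a)).coeff s.1 ≠ 0 := by
      intro h; rw [h] at hne; simp at hne
    have h2 : (ph (2 * b)).coeff s.2 ≠ 0 := by
      intro h; rw [h] at hne; simp at hne
    obtain ⟨h, hh⟩ := ph_supp h1
    obtain ⟨k, hk⟩ := ph_supp h2
    have e1 : s.1 = a + 1 - 2 * h := by omega
    have e2 : s.2 = b + 1 - 2 * k := by omega
    have e3 : h + k = g := by omega
    have p1 := ph_coeff a h (by omega)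
    have p2 := ph_coeff b k (by omega)
    refine ⟨(h, k), Finset.HasAntidiagonal.mem_antidiagonal.2 e3, ?_, ?_⟩
    · show 4 * 3 ^ (2 * (a + b)) * (TT a h * TT b k) ≠ 0
      have h3 : TT a h ≠ 0 := by
        intro h0
        rw [h0, mul_zero, ← e1] at p1
        exact h1 (by exact_mod_cast p1)
      have h4 : TT b k ≠ 0 := by
        intro h0
        rw [h0, mul_zero, ← e2] at p2
        exact h2 (by exact_mod_cast p2)
      positivity
    · exact Prod.ext e1.symm e2.symm
  · intro q hq hne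
    rw [Finset.HasAntidiagonal.mem_antidiagonal] at hq
    have h1 : TT a q.1 ≠ 0 := by
      intro h; rw [h] at hne; simp at hne
    have h2 : TT b q.2 ≠ 0 := by
      intro h; rw [h] at hne; simp at hne
    have h3 := TT_ne h1
    have h4 := TT_ne h2
    have p1 := ph_coeff a q.1 (by omega)
    have p2 := ph_coeff b q.2 (by omega)
    push_cast
    rw [p1, p2, Nat.mul_add 2 a b, pow_add]
    ring

private theorem ph_two (m v : ℕ) (f : ℕ → ℕ → ℝ) (hf : ∀ i j, i % 2 = 1 → f i j = 0) (_ : v = v) :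
    ∑ p ∈ Finset.HasAntidiagonal.antidiagonal (2 * m), f p.1 p.2 =
      ∑ p ∈ Finset.HasAntidiagonal.antidiagonal m, f (2 * p.1) (2 * p.2) := by
  symm
  refine Finset.sum_bij_ne_zero (fun p _ _ => (2 * p.1, 2 * p.2)) ?_ ?_ ?_ ?_
  · intro p hp _
    rw [Finset.HasAntidiagonal.mem_antidiagonal] at hp ⊢
    show 2 * p.1 + 2 * p.2 = 2 * m
    omega
  · intro p _ _ p' _ _ he
    have h5 : 2 * p.1 = 2 * p'.1 := congrArg Prod.fst he
    have h6 : 2 * p.2 = 2 * p'.2 := congrArg Prod.snd he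
    exact Prod.ext (by omega) (by omega)
  · intro s hs hne
    rw [Finset.HasAntidiagonal.mem_antidiagonal] at hs
    have h1 : s.1 % 2 ≠ 1 := fun h => hne (hf _ _ h)
    have e1 : s.1 = 2 * (s.1 / 2) := by omega
    have e2 : s.2 = 2 * (s.2 / 2) := by omega
    refine ⟨(s.1 / 2, s.2 / 2), ?_, ?_, ?_⟩
    · rw [Finset.HasAntidiagonal.mem_antidiagonal]
      show s.1 / 2 + s.2 / 2 = m
      omega
    · show f (2 * (s.1 / 2)) (2 * (s.2 / 2)) ≠ 0
      rw [← e1, ← e2]
      exact hne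
    · exact Prod.ext e1.symm e2.symm
  · intro p _ _
    rfl

private theorem gj_main (n g : ℕ) (hn : 1 ≤ n) (hg : 2 * g ≤ n + 2) :
    ((n : ℝ) + 1) * tau n g = 4 *
    (n * (3 * n - 2) * (if g = 0 then 0 else TT (n - 1) (g - 1)) +
      ∑ p ∈ Finset.HasAntidiagonal.antidiagonal n,
        ∑ q ∈ Finset.HasAntidiagonal.antidiagonal g, TT p.1 q.1 * TT p.2 q.2) := by
  obtain ⟨m, rfl⟩ := Nat.exists_eq_add_of_le' hn
  have hk := kp_poly (2 * m)
  have e2 : 2 * m + 2 = 2 * (m + 1) := by ring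
  rw [e2] at hk
  have hc := congrArg (fun P : ℚ[X] => ((P.coeff (m + 1 + 2 - 2 * g) : ℚ) : ℝ)) hk
  simp only [Polynomial.coeff_add, Polynomial.coeff_C_mul] at hc
  rw [show (6 : ℚ[X]) = C 6 from rfl, Polynomial.coeff_C_mul, Polynomial.finsetSum_coeff] at hc
  simp only [Polynomial.coeff_mul] at hc
  push_cast at hc
  have hsum := ph_two (m + 1) 0
    (fun i j => ∑ s ∈ Finset.HasAntidiagonal.antidiagonal (m + 1 + 2 - 2 * g),
      (((ph i).coeff s.1 * (ph j).coeff s.2 : ℚ) : ℝ)) (by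
        intro i j hi
        refine Finset.sum_eq_zero fun s _ => ?_
        rw [ph_oddG hi]
        simp) rfl
  push_cast at hsum
  rw [hsum] at hc
  have hin : ∀ p ∈ Finset.HasAntidiagonal.antidiagonal (m + 1),
      (∑ s ∈ Finset.HasAntidiagonal.antidiagonal (m + 1 + 2 - 2 * g),
        ((((ph (2 * p.1)).coeff s.1 : ℚ) : ℝ) * (((ph (2 * p.2)).coeff s.2 : ℚ) : ℝ))) =
      4 * 3 ^ (2 * (m + 1)) *
        ∑ q ∈ Finset.HasAntidiagonal.antidiagonal g, TT p.1 q.1 * TT p.2 q.2 := by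
    intro p hp
    rw [Finset.HasAntidiagonal.mem_antidiagonal] at hp
    have := inner_sum p.1 p.2 g (by omega)
    rw [hp] at this
    push_cast at this
    exact this
  rw [Finset.sum_congr rfl hin, ← Finset.mul_sum] at hc
  have ht := tau_coeff (m + 1) g (by omega) (by omega)
  have h1 : (((ph (2 * m)).coeff (m + 1 + 2 - 2 * g) : ℚ) : ℝ) =
      2 * 3 ^ (2 * m) * (if g = 0 then 0 else TT (m + 1 - 1) (g - 1)) := by
    by_cases h0 : g = 0
    · subst h0
      rw [if_pos rfl]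
      have hz : (ph (2 * m)).coeff (m + 1 + 2 - 2 * 0) = 0 := by
        by_contra hne'
        obtain ⟨k, hk'⟩ := ph_supp hne'
        omega
      rw [hz]
      norm_num
    · rw [if_neg h0]
      have := ph_coeff m (g - 1) (by omega)
      have e : m + 1 - 2 * (g - 1) = m + 1 + 2 - 2 * g := by omega
      rw [e] at this
      exact this
  rw [h1] at hc
  push_cast at ht
  set S := ∑ p ∈ Finset.HasAntidiagonal.antidiagonal (m + 1),
        ∑ q ∈ Finset.HasAntidiagonal.antidiagonal g, TT p.1 q.1 * TT p.2 q.2 with hS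
  set T1 := (if g = 0 then (0 : ℝ) else TT (m + 1 - 1) (g - 1)) with hT1
  set c := (((cp (2 * (m + 1))).coeff (m + 1 + 2 - 2 * g) : ℚ) : ℝ) with hcdef
  have h9 : (3 : ℝ) ^ (2 * (m + 1)) = 9 * 3 ^ (2 * m) := by
    rw [Nat.mul_add, pow_add]; norm_num; ring
  rw [h9] at hc
  have h3 : (0 : ℝ) < 3 ^ (2 * m) := by positivity
  rw [← ht]
  push_cast
  have key : (3 : ℝ) ^ (2 * m) * (((m : ℝ) + 1 + 1) * (c * (6 * (m + 1)))) = 3 ^ (2 * m) * (4 *
    (((m : ℝ) + 1) * (3 * (m + 1) - 2) * T1 + S)) := by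
    linear_combination (-1 / 54 : ℝ) * hc
  exact mul_left_cancel₀ h3.ne' key

theorem gj (n g : ℕ) : ((n : ℝ) + 1) * TT (n + 1) g = 4 * (3 * n + 2) *
    (n * (3 * n - 2) * (if g = 0 then 0 else TT (n - 1) (g - 1)) +
      ∑ p ∈ Finset.HasAntidiagonal.antidiagonal n,
        ∑ q ∈ Finset.HasAntidiagonal.antidiagonal g, TT p.1 q.1 * TT p.2 q.2) := by
  rcases Nat.eq_zero_or_pos n with rfl | hn
  · rw [Finset.Nat.antidiagonal_zero, Finset.sum_singleton]
    by_cases hg : g = 0
    · subst hg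
      rw [Finset.Nat.antidiagonal_zero, Finset.sum_singleton]
      simp [TT]
      norm_num
    · have h1 : ∀ q ∈ Finset.HasAntidiagonal.antidiagonal g, TT 0 q.1 * TT 0 q.2 = 0 := by
        intro q hq
        rw [Finset.HasAntidiagonal.mem_antidiagonal] at hq
        by_cases h : q.1 = 0
        · have : q.2 ≠ 0 := by omega
          simp [TT, this]
        · simp [TT, h]
      have h2 : ∑ q ∈ Finset.HasAntidiagonal.antidiagonal g,
          TT ((0, 0) : ℕ × ℕ).1 q.1 * TT ((0, 0) : ℕ × ℕ).2 q.2 = 0 := Finset.sum_eq_zero h1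
      rw [h2]
      simp [TT, hg]
  · rw [TT_ss hn]
    by_cases hg : 2 * g ≤ n + 2
    · have := gj_main n g hn hg
      linear_combination (3 * (n : ℝ) + 2) * this
    · have h1 : tau n g = 0 := tau_zero (by omega)
      have h2 : (if g = 0 then (0 : ℝ) else TT (n - 1) (g - 1)) = 0 := by
        rw [if_neg (by omega)]
        exact TT_zero (by omega)
      have h3 : ∑ p ∈ Finset.HasAntidiagonal.antidiagonal n,
        ∑ q ∈ Finset.HasAntidiagonal.antidiagonal g, TT p.1 q.1 * TT p.2 q.2 = 0 := by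
        refine Finset.sum_eq_zero fun p hp => Finset.sum_eq_zero fun q hq => ?_
        rw [Finset.HasAntidiagonal.mem_antidiagonal] at hp hq
        by_contra hne
        have h4 := TT_ne (left_ne_zero_of_mul hne)
        have h5 := TT_ne (right_ne_zero_of_mul hne)
        omega
      rw [h1, h2, h3]
      ring

private theorem TT00 : TT 0 0 = 1 / 2 := by
  simp [TT]

private theorem TT_posP : ∀ m g : ℕ, 2 * g ≤ m → 0 < TT m g := by
  intro m
  induction m using Nat.strong_induction_on with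
  | _ m ih =>
    intro g hg
    rcases Nat.eq_zero_or_pos m with rfl | hm
    · have : g = 0 := by omega
      subst this
      rw [TT00]; norm_num
    obtain ⟨n, rfl⟩ := Nat.exists_eq_add_of_le' hm
    rcases Nat.eq_zero_or_pos n with rfl | hn
    · have : g = 0 := by omega
      subst this
      simp [TT]
    have h := gj n g
    have hn1 : (1 : ℝ) ≤ n := by exact_mod_cast hn
    have hA : 0 ≤ (n : ℝ) * (3 * n - 2) * (if g = 0 then 0 else TT (n - 1) (g - 1)) := by
      refine mul_nonneg (mul_nonneg (by linarith) (by linarith)) ?_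
      split_ifs
      · exact le_rfl
      · exact TT_nonneg _ _
    have hB : ∀ p ∈ Finset.HasAntidiagonal.antidiagonal n,
        0 ≤ ∑ q ∈ Finset.HasAntidiagonal.antidiagonal g, TT p.1 q.1 * TT p.2 q.2 :=
      fun p _ => Finset.sum_nonneg fun q _ => mul_nonneg (TT_nonneg _ _) (TT_nonneg _ _)
    have hB' := Finset.sum_nonneg hB
    have key : 0 < (n : ℝ) * (3 * n - 2) * (if g = 0 then 0 else TT (n - 1) (g - 1)) +
      ∑ p ∈ Finset.HasAntidiagonal.antidiagonal n,
        ∑ q ∈ Finset.HasAntidiagonal.antidiagonal g, TT p.1 q.1 * TT p.2 q.2 := by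
      by_cases h2 : 2 * g ≤ n
      · refine add_pos_of_nonneg_of_pos hA ?_
        refine lt_of_lt_of_le ?_ (Finset.single_le_sum hB
          (Finset.HasAntidiagonal.mem_antidiagonal.2 (show ((0, n) : ℕ × ℕ).1 + ((0, n) : ℕ × ℕ).2 = n by simp)))
        refine lt_of_lt_of_le ?_ (Finset.single_le_sum
          (f := fun q : ℕ × ℕ => TT ((0, n) : ℕ × ℕ).1 q.1 * TT ((0, n) : ℕ × ℕ).2 q.2)
          (fun q _ => mul_nonneg (TT_nonneg _ _) (TT_nonneg _ _))
          (Finset.HasAntidiagonal.mem_antidiagonal.2 (show ((0, g) : ℕ × ℕ).1 + ((0, g) : ℕ × ℕ).2 = g by simp)))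
        have := ih n (by omega) g h2
        show 0 < TT 0 0 * TT n g
        rw [TT00]
        positivity
      · refine add_pos_of_pos_of_nonneg ?_ hB'
        have h3 : 2 * g = n + 1 := by omega
        rw [if_neg (by omega)]
        have := ih (n - 1) (by omega) (g - 1) (by omega)
        refine mul_pos (mul_pos (by linarith) (by linarith)) this
    have h5 : 0 < ((n : ℝ) + 1) * TT (n + 1) g := by
      rw [h]
      refine mul_pos (by linarith) key
    exact pos_of_mul_pos_right h5 (by linarith)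

theorem TT_pos {m g : ℕ} (hm : 2 ≤ m) (hg : 2 * g ≤ m) : 0 < TT m g := by
  have := hm
  exact TT_posP m g hg

theorem tau_pos {n g : ℕ} (hn : 1 ≤ n) (hg : 2 * g ≤ n + 1) : 0 < tau n g := by
  have h1 := TT_posP (n + 1) g hg
  rw [TT_ss hn] at h1
  exact pos_of_mul_pos_right h1 (by positivity)

end SYS.A
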