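import Pool.Agent.SYS.A.KPH
import Pool.Agent.SST.T.Ident

/-!
# SYS-A-Idn: the two polynomial identities
-/

namespace SYS.A

open Polynomial SST.T

/-- The coefficients of `Phi` as polynomials in `N`. -/
noncomputable def ph : ℕ → ℚ[X]
  | 0 => X
  | 1 => 0
  | i + 2 => C ((3 : ℚ) ^ (i + 2) * (3 * (i : ℚ) * (3 * (i : ℚ) + 4))) * cp i +
      if i = 0 then C 36 * X ^ 2 else 0

private theorem xd_coeff (f : PowerSeries ℚ) (i : ℕ) :
    PowerSeries.coeff i (PowerSeries.X * PowerSeries.derivative ℚ f) =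
      i * PowerSeries.coeff i f := by
  cases i with
  | zero => simp
  | succ n =>
    rw [PowerSeries.coeff_succ_X_mul, PowerSeries.coeff_derivative]
    push_cast
    ring

private theorem phi_eq (N : ℕ) (H : PowerSeries ℚ) : Phi N H =
    PowerSeries.C (N : ℚ) + PowerSeries.X ^ 2 * (PowerSeries.C (36 * (N : ℚ) ^ 2) +
      PowerSeries.C 108 * H + PowerSeries.C 81 * (PowerSeries.X * PowerSeries.derivative ℚ H)) := by
  unfold Phi
  have h1 : (PowerSeries.C (N : ℚ) : PowerSeries ℚ) = (N : PowerSeries ℚ) := map_natCast _ N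
  have h2 : (PowerSeries.C (36 : ℚ) : PowerSeries ℚ) = 36 := map_ofNat _ 36
  have h3 : (PowerSeries.C (108 : ℚ) : PowerSeries ℚ) = 108 := map_ofNat _ 108
  have h4 : (PowerSeries.C (81 : ℚ) : PowerSeries ℚ) = 81 := map_ofNat _ 81
  rw [map_mul, map_pow, h1, h2, h3, h4]
  ring

private theorem coeff_Hs (N i : ℕ) :
    PowerSeries.coeff i (Hs N) = (i : ℚ) * 3 ^ i * (cp i).eval (N : ℚ) := by
  unfold Hs
  rw [PowerSeries.coeff_mk]

private theorem ph_eval (N i : ℕ) :
    (ph i).eval (N : ℚ) = PowerSeries.coeff i (Phi N (Hs N)) := by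
  rw [phi_eq, map_add, PowerSeries.coeff_X_pow_mul', PowerSeries.coeff_C]
  match i with
  | 0 => simp [ph]
  | 1 => simp [ph]
  | i + 2 =>
    rw [if_neg (by omega), if_pos (by omega), Nat.add_sub_cancel, map_add, map_add,
      PowerSeries.coeff_C_mul, PowerSeries.coeff_C_mul, xd_coeff, coeff_Hs, PowerSeries.coeff_C,
      ph, eval_add, eval_mul, eval_C]
    by_cases h : i = 0
    · rw [if_pos h, if_pos h, eval_mul, eval_C, eval_pow, eval_X]
      rw [pow_add]
      ring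
    · rw [if_neg h, if_neg h, eval_zero, pow_add]
      ring

private theorem dd_eval (k : ℕ) (x : ℚ) : (C ((k : ℚ) * 3 ^ k) * dd (cp k)).eval x =
    (k : ℚ) * 3 ^ k * ((cp k).eval (x + 1) + (cp k).eval (x - 1) - 2 * (cp k).eval x) := by
  unfold dd
  simp [eval_comp]

theorem coeff_Phi (N i : ℕ) : PowerSeries.coeff i (Phi N (Hs N)) = (ph i).eval (N : ℚ) :=
  (ph_eval N i).symm

theorem toda_poly (j : ℕ) : C ((j : ℚ) + 2) * ph (j + 2) =
    ∑ p ∈ Finset.HasAntidiagonal.antidiagonal (j + 2),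
      ph p.1 * (C ((p.2 : ℚ) * 3 ^ p.2) * dd (cp p.2)) := by
  have key : ∀ N : ℕ, 1 ≤ N → (C ((j : ℚ) + 2) * ph (j + 2)).eval (N : ℚ) =
      (∑ p ∈ Finset.HasAntidiagonal.antidiagonal (j + 2),
        ph p.1 * (C ((p.2 : ℚ) * 3 ^ p.2) * dd (cp p.2))).eval (N : ℚ) := by
    intro N hN
    have h1 := toda_log N hN (Hs N) (Hs (N + 1)) (Hs (N - 1)) (Hs_mul N) (Hs_mul (N + 1))
      (Hs_mul (N - 1))
    have h2 := congrArg (PowerSeries.coeff (j + 2)) h1
    rw [xd_coeff, PowerSeries.coeff_mul, ← ph_eval] at h2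
    rw [eval_mul, eval_C, eval_finsetSum]
    have h3 : (((j + 2 : ℕ) : ℚ)) = (j : ℚ) + 2 := by push_cast; ring
    rw [h3] at h2
    rw [h2]
    refine Finset.sum_congr rfl fun p _ => ?_
    rw [eval_mul, dd_eval, ph_eval]
    congr 1
    have h4 : (2 : PowerSeries ℚ) = PowerSeries.C (2 : ℚ) := (map_ofNat _ 2).symm
    rw [map_sub, map_add, h4, PowerSeries.coeff_C_mul, coeff_Hs, coeff_Hs, coeff_Hs]
    have h5 : (((N - 1 : ℕ) : ℚ)) = (N : ℚ) - 1 := by
      rw [Nat.cast_sub hN]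
      push_cast
      ring
    rw [h5]
    push_cast
    ring
  apply Polynomial.eq_of_infinite_eval_eq
  apply Set.Infinite.mono (s := Set.range (fun n : ℕ => ((n + 1 : ℕ) : ℚ)))
  · rintro _ ⟨n, rfl⟩
    exact key (n + 1) (by omega)
  · refine Set.infinite_range_of_injective fun a b h => ?_
    have := Nat.cast_injective h
    omega

private theorem kp_coeff (m n : ℕ) :
    PowerSeries.coeff n (27 * PowerSeries.X * ((PowerSeries.X * (2 * Phi (m + 4) (Hs (m + 4)) +
      3 * (PowerSeries.X * PowerSeries.derivative ℚ (Phi (m + 4) (Hs (m + 4)))))) +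
      PowerSeries.X * PowerSeries.derivative ℚ (PowerSeries.X * (2 * Phi (m + 4) (Hs (m + 4)) +
      3 * (PowerSeries.X * PowerSeries.derivative ℚ (Phi (m + 4) (Hs (m + 4))))))) +
      6 * Phi (m + 4) (Hs (m + 4)) ^ 2) =
    PowerSeries.coeff n (6 * ((m + 4 : ℕ) : PowerSeries ℚ) ^ 2 + 18 * Hs (m + 4) +
      9 * (PowerSeries.X * PowerSeries.derivative ℚ (Hs (m + 4)))) :=
  congrArg (PowerSeries.coeff n) (kp_H m (Hs (m + 4)) (Hs_mul _) _ _ rfl rfl)

private theorem inf_eq {p q : ℚ[X]} (h : ∀ m : ℕ, p.eval ((m + 4 : ℕ) : ℚ) = q.eval ((m + 4 : ℕ) : ℚ)) :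
    p = q := by
  apply Polynomial.eq_of_infinite_eval_eq
  apply Set.Infinite.mono (s := Set.range (fun n : ℕ => ((n + 4 : ℕ) : ℚ)))
  · rintro _ ⟨n, rfl⟩
    exact h n
  · refine Set.infinite_range_of_injective fun a b h => ?_
    have := Nat.cast_injective h
    omega

private theorem num_C (a : ℕ) [a.AtLeastTwo] :
    (OfNat.ofNat a : PowerSeries ℚ) = PowerSeries.C (OfNat.ofNat a : ℚ) := (map_ofNat _ a).symm

theorem kp_poly (j : ℕ) : C (27 * ((j : ℚ) + 2) * (3 * j + 2)) * ph j +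
    6 * ∑ p ∈ Finset.HasAntidiagonal.antidiagonal (j + 2), ph p.1 * ph p.2 =
      C (9 * ((j : ℚ) + 2) * (j + 4) * 3 ^ (j + 2)) * cp (j + 2) := by
  refine inf_eq fun m => ?_
  have h := kp_coeff m (j + 2)
  set P : PowerSeries ℚ := Phi (m + 4) (Hs (m + 4)) with hP
  set P3 : PowerSeries ℚ := PowerSeries.X * (2 * P + 3 * (PowerSeries.X *
    PowerSeries.derivative ℚ P)) with hP3
  have e1 : PowerSeries.coeff (j + 1) P3 = (2 + 3 * (j : ℚ)) * PowerSeries.coeff j P := by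
    rw [hP3, PowerSeries.coeff_succ_X_mul, map_add, num_C 2, num_C 3, PowerSeries.coeff_C_mul,
      PowerSeries.coeff_C_mul, xd_coeff]
    ring
  have e2 : PowerSeries.coeff (j + 2) (27 * PowerSeries.X * (P3 + PowerSeries.X *
      PowerSeries.derivative ℚ P3)) = 27 * ((j : ℚ) + 2) * (3 * j + 2) * PowerSeries.coeff j P := by
    rw [mul_assoc, num_C 27, PowerSeries.coeff_C_mul, PowerSeries.coeff_succ_X_mul, map_add,
      xd_coeff, e1]
    push_cast
    ring
  have e3 : PowerSeries.coeff (j + 2) (6 * P ^ 2) =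
      6 * ∑ p ∈ Finset.HasAntidiagonal.antidiagonal (j + 2),
        PowerSeries.coeff p.1 P * PowerSeries.coeff p.2 P := by
    rw [num_C 6, PowerSeries.coeff_C_mul, pow_two, PowerSeries.coeff_mul]
  have e4 : PowerSeries.coeff (j + 2) (6 * ((m + 4 : ℕ) : PowerSeries ℚ) ^ 2 + 18 * Hs (m + 4) +
      9 * (PowerSeries.X * PowerSeries.derivative ℚ (Hs (m + 4)))) =
      (18 + 9 * ((j : ℚ) + 2)) * PowerSeries.coeff (j + 2) (Hs (m + 4)) := by
    have e5 : (6 * ((m + 4 : ℕ) : PowerSeries ℚ) ^ 2 : PowerSeries ℚ) =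
        PowerSeries.C (6 * ((m + 4 : ℕ) : ℚ) ^ 2) := by
      rw [map_mul, map_pow, map_natCast, map_ofNat]
    rw [map_add, map_add, e5, PowerSeries.coeff_C, if_neg (by omega), num_C 18, num_C 9,
      PowerSeries.coeff_C_mul, PowerSeries.coeff_C_mul, xd_coeff]
    push_cast
    ring
  rw [map_add, e2, e3, e4, coeff_Hs] at h
  rw [eval_add, eval_mul, eval_mul, eval_C, eval_mul, eval_C, eval_finsetSum]
  have e6 : (6 : ℚ[X]).eval ((m + 4 : ℕ) : ℚ) = 6 := by
    rw [← map_ofNat C 6, eval_C]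
  rw [e6]
  have e7 : ∀ i, PowerSeries.coeff i P = (ph i).eval ((m + 4 : ℕ) : ℚ) := fun i =>
    coeff_Phi (m + 4) i
  simp only [e7] at h
  simp only [eval_mul]
  rw [h]
  push_cast
  ring

theorem cp_one : cp 1 = 0 := by
  refine inf_eq fun m => ?_
  have h := kp_coeff m 1
  set P : PowerSeries ℚ := Phi (m + 4) (Hs (m + 4)) with hP
  set P3 : PowerSeries ℚ := PowerSeries.X * (2 * P + 3 * (PowerSeries.X *
    PowerSeries.derivative ℚ P)) with hP3
  have e1 : PowerSeries.coeff 0 P3 = 0 := by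
    rw [hP3, PowerSeries.coeff_zero_X_mul]
  have e2 : PowerSeries.coeff 1 (27 * PowerSeries.X * (P3 + PowerSeries.X *
      PowerSeries.derivative ℚ P3)) = 0 := by
    rw [mul_assoc, num_C 27, PowerSeries.coeff_C_mul, PowerSeries.coeff_succ_X_mul, map_add,
      xd_coeff, e1]
    simp
  have e3 : PowerSeries.coeff 1 (6 * P ^ 2) = 0 := by
    have e4 : PowerSeries.coeff 1 P = 0 := by
      rw [hP, coeff_Phi]
      simp [ph]
    rw [num_C 6, PowerSeries.coeff_C_mul, pow_two, PowerSeries.coeff_mul,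
      Finset.Nat.antidiagonal_succ]
    simp [e4]
  have e4 : PowerSeries.coeff 1 (6 * ((m + 4 : ℕ) : PowerSeries ℚ) ^ 2 + 18 * Hs (m + 4) +
      9 * (PowerSeries.X * PowerSeries.derivative ℚ (Hs (m + 4)))) =
      27 * PowerSeries.coeff 1 (Hs (m + 4)) := by
    have e5 : (6 * ((m + 4 : ℕ) : PowerSeries ℚ) ^ 2 : PowerSeries ℚ) =
        PowerSeries.C (6 * ((m + 4 : ℕ) : ℚ) ^ 2) := by
      rw [map_mul, map_pow, map_natCast, map_ofNat]
    rw [map_add, map_add, e5, PowerSeries.coeff_C, if_neg (by omega), num_C 18, num_C 9,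
      PowerSeries.coeff_C_mul, PowerSeries.coeff_C_mul, xd_coeff]
    push_cast
    ring
  rw [map_add, e2, e3, e4, coeff_Hs] at h
  rw [eval_zero]
  push_cast at h ⊢
  linarith

end SYS.A
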