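import Pool.Agent.SST.T.Andr

/-!
# SYS-A-Plu: the three term Plücker relation

`rw2 u x y` is the matrix with rows `u 0, .., u (n-1), x, y`. PROOF. Let `w : Fin (n+3) → Fin (n+2) → R` be `u 0, .., u (n-1), b, c, d`. For every `j` the
`(n+3) × (n+3)` matrix with columns `(w i j, w i 0, .., w i (n+1))` has two equal rows, so by the Laplace expansion along the first row
`∑ i, (-1)^i * w i j * det (w without i) = 0`: a linear relation between the vectors `w i`. Apply the linear form `x ↦ det (rw2 u a x)`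
(linear in the last row): the terms of the `u i` vanish (equal rows), and the three others give the relation (the signs are
`(-1)^n, (-1)^(n+1), (-1)^(n+2)`).
-/

namespace SYS.A

open Matrix

/-- The matrix with rows `u 0, .., u (n-1), x, y`. -/
def rw2 {R : Type} {n : ℕ} (u : Fin n → Fin (n + 2) → R) (x y : Fin (n + 2) → R) :
    Matrix (Fin (n + 2)) (Fin (n + 2)) R :=
  Matrix.of fun i => if h : (i : ℕ) < n then u ⟨i, h⟩ else if (i : ℕ) = n then x else y

private theorem pl_lt {R : Type} {n : ℕ} (u : Fin n → Fin (n + 2) → R) (x y : Fin (n + 2) → R)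
    (i : Fin n) : rw2 u x y i.castSucc.castSucc = u i := by
  funext j
  simp [rw2]

private theorem pl_mid {R : Type} {n : ℕ} (u : Fin n → Fin (n + 2) → R) (x y : Fin (n + 2) → R) :
    rw2 u x y (Fin.last n).castSucc = x := by
  funext j
  simp [rw2]

private theorem pl_last {R : Type} {n : ℕ} (u : Fin n → Fin (n + 2) → R) (x y : Fin (n + 2) → R) :
    rw2 u x y (Fin.last (n + 1)) = y := by
  funext j
  simp [rw2]

private theorem pl_cases {n : ℕ} (i : Fin (n + 2)) : (∃ k : Fin n, i = k.castSucc.castSucc) ∨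
    i = (Fin.last n).castSucc ∨ i = Fin.last (n + 1) := by
  rcases Fin.eq_castSucc_or_eq_last i with ⟨j, rfl⟩ | h
  · rcases Fin.eq_castSucc_or_eq_last j with ⟨k, rfl⟩ | h
    · exact Or.inl ⟨k, rfl⟩
    · exact Or.inr (Or.inl (by rw [h]))
  · exact Or.inr (Or.inr h)

private theorem pl_ne1 {n : ℕ} (k : Fin n) : k.castSucc.castSucc ≠ (Fin.last n).castSucc := by
  intro h
  have := congrArg Fin.val h
  simp at this
  omega

private theorem pl_ne2 {n : ℕ} (k : Fin (n + 1)) : k.castSucc ≠ Fin.last (n + 1) := by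
  intro h
  have := congrArg Fin.val h
  simp at this
  omega

private theorem pl_ext {R : Type} {n : ℕ} {A B : Matrix (Fin (n + 2)) (Fin (n + 2)) R}
    (h1 : ∀ k : Fin n, A k.castSucc.castSucc = B k.castSucc.castSucc)
    (h2 : A (Fin.last n).castSucc = B (Fin.last n).castSucc)
    (h3 : A (Fin.last (n + 1)) = B (Fin.last (n + 1))) : A = B := by
  funext i
  rcases pl_cases i with ⟨k, rfl⟩ | rfl | rfl
  · exact h1 k
  · exact h2
  · exact h3

private theorem pl_upd1 {R : Type} {n : ℕ} (u : Fin n → Fin (n + 2) → R)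
    (x y z : Fin (n + 2) → R) : (rw2 u x y).updateRow (Fin.last (n + 1)) z = rw2 u x z := by
  refine pl_ext (fun k => ?_) ?_ ?_
  · funext j
    rw [Matrix.updateRow_ne (pl_ne2 _), pl_lt, pl_lt]
  · funext j
    rw [Matrix.updateRow_ne (pl_ne2 _), pl_mid, pl_mid]
  · funext j
    rw [Matrix.updateRow_self, pl_last]

private theorem pl_upd2 {R : Type} {n : ℕ} (u : Fin n → Fin (n + 2) → R)
    (x y z : Fin (n + 2) → R) : (rw2 u x y).updateRow (Fin.last n).castSucc z = rw2 u z y := by
  refine pl_ext (fun k => ?_) ?_ ?_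
  · funext j
    rw [Matrix.updateRow_ne (pl_ne1 _), pl_lt, pl_lt]
  · funext j
    rw [Matrix.updateRow_self, pl_mid]
  · funext j
    rw [Matrix.updateRow_ne (pl_ne2 _).symm, pl_last, pl_last]

private theorem pl_swap {R : Type} [CommRing R] {n : ℕ} (u : Fin n → Fin (n + 2) → R)
    (x y : Fin (n + 2) → R) : (rw2 u x y).det = -(rw2 u y x).det := by
  have h1 : (rw2 u y x).submatrix (Equiv.swap (Fin.last n).castSucc (Fin.last (n + 1))) id =
      rw2 u x y := by
    refine pl_ext (fun k => ?_) ?_ ?_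
    · funext j
      rw [Matrix.submatrix_apply, Equiv.swap_apply_of_ne_of_ne (pl_ne1 k) (pl_ne2 _), pl_lt, pl_lt]
      rfl
    · funext j
      rw [Matrix.submatrix_apply, Equiv.swap_apply_left, pl_last, pl_mid]
      rfl
    · funext j
      rw [Matrix.submatrix_apply, Equiv.swap_apply_right, pl_last, pl_mid]
      rfl
  rw [← h1, Matrix.det_permute, Equiv.Perm.sign_swap (pl_ne2 _)]
  simp

theorem plucker {R : Type} [CommRing R] {n : ℕ} (u : Fin n → Fin (n + 2) → R)
    (a b c d : Fin (n + 2) → R) :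
    (rw2 u a b).det * (rw2 u c d).det - (rw2 u a c).det * (rw2 u b d).det +
      (rw2 u a d).det * (rw2 u b c).det = 0 := by
  obtain ⟨φ, hφ⟩ : ∃ φ : (Fin (n + 2) → R) →ₗ[R] R, ∀ x, φ x = (rw2 u a x).det :=
    ⟨{ toFun := fun x => (rw2 u a x).det
       map_add' := fun x y => by
        show (rw2 u a (x + y)).det = (rw2 u a x).det + (rw2 u a y).det
        have h := Matrix.det_updateRow_add (rw2 u a 0) (Fin.last (n + 1)) x y
        rw [pl_upd1, pl_upd1, pl_upd1] at h
        exact h
       map_smul' := fun r x => by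
        show (rw2 u a (r • x)).det = r • (rw2 u a x).det
        have h := Matrix.det_updateRow_smul (rw2 u a 0) (Fin.last (n + 1)) r x
        rw [pl_upd1, pl_upd1] at h
        exact h }, fun x => rfl⟩
  have hu : ∀ i : Fin n, φ (u i) = 0 := by
    intro i
    rw [hφ]
    refine Matrix.det_zero_of_row_eq (pl_ne2 i.castSucc) ?_
    show rw2 u a (u i) i.castSucc.castSucc = rw2 u a (u i) (Fin.last (n + 1))
    rw [pl_lt, pl_last]
  have hcr := Matrix.mulVec_cramer (rw2 u c d).transpose b
  have hsum : (rw2 u c d).transpose *ᵥ Matrix.cramer (rw2 u c d).transpose b =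
      ∑ i, ((rw2 u c d).updateRow i b).det • rw2 u c d i := by
    funext j
    rw [Matrix.mulVec_eq_sum, Finset.sum_apply, Finset.sum_apply]
    refine Finset.sum_congr rfl fun i _ => ?_
    rw [Matrix.cramer_transpose_apply]
    simp [Matrix.transpose_apply, mul_comm]
  rw [hsum, Matrix.det_transpose] at hcr
  have h := congrArg φ hcr
  rw [map_sum, Fin.sum_univ_castSucc, Fin.sum_univ_castSucc, map_smul, map_smul, map_smul,
    pl_mid, pl_last, pl_upd1, pl_upd2] at h
  have h0 : ∑ i : Fin n, φ (((rw2 u c d).updateRow i.castSucc.castSucc b).det •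
      rw2 u c d i.castSucc.castSucc) = 0 := by
    refine Finset.sum_eq_zero fun i _ => ?_
    rw [map_smul, pl_lt, hu, smul_zero]
  rw [h0, zero_add, hφ, hφ, hφ, smul_eq_mul, smul_eq_mul, smul_eq_mul, pl_swap u c b] at h
  linear_combination -h

end SYS.A
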