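import Pool.Agent.SYS.A.Shp
import Pool.Agent.SYS.A.Plu

/-!
# SYS-A-KPB: the KP equation for the Hankel functional

The three term Pluecker relation for the Hankel determinants of the five shapes.
-/

namespace SYS.A

open SST.T MvPolynomial

private theorem kp_det {R : Type} [CommRing R] (h : ℕ → R) (m c d : ℕ) :
    (hk h (e0 (m + 4)) (ex m m (m + 1) c d)).det =
      (rw2 (n := m + 2) (fun i j => h ((j : ℕ) + (i : ℕ))) (fun j => h ((j : ℕ) + c))
        (fun j => h ((j : ℕ) + d))).det := by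
  rw [← Matrix.det_transpose]
  congr 1
  ext i j
  have hi := i.2
  show h ((j : ℕ) + ex m m (m + 1) c d i) = (if hh : (i : ℕ) < m + 2 then
    (fun j : Fin (m + 2 + 2) => h ((j : ℕ) + (i : ℕ))) else if (i : ℕ) = m + 2 then
    (fun j : Fin (m + 2 + 2) => h ((j : ℕ) + c)) else (fun j : Fin (m + 2 + 2) => h ((j : ℕ) + d))) j
  unfold ex
  by_cases h1 : (i : ℕ) < m + 2
  · rw [dif_pos h1]
    have h2 : (if (i : ℕ) < m then (i : ℕ) else if (i : ℕ) = m then m else
        if (i : ℕ) = m + 1 then m + 1 else if (i : ℕ) = m + 2 then c else d) = (i : ℕ) := by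
      split_ifs <;> omega
    rw [h2]
  · rw [dif_neg h1, if_neg (by omega), if_neg (by omega), if_neg (by omega)]
    by_cases h2 : (i : ℕ) = m + 2
    · rw [if_pos h2, if_pos h2]
    · rw [if_neg h2, if_neg h2]

private theorem kp_val {R : Type} [CommRing R] [Algebra ℚ R] (h : ℕ → R) (m : ℕ)
    (Q : MvPolynomial (Fin (m + 4)) ℚ) (q c d : ℕ)
    (hQ : vd (m + 4) * Q = (q : MvPolynomial (Fin (m + 4)) ℚ) * alt (ex m m (m + 1) c d)) :
    B h (m + 4) Q = (q : R) * (((m + 4).factorial : R) *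
      (rw2 (n := m + 2) (fun i j => h ((j : ℕ) + (i : ℕ))) (fun j => h ((j : ℕ) + c))
        (fun j => h ((j : ℕ) + d))).det) := by
  rw [← kp_det, ← ev_alt, B_apply]
  have h1 : vd (m + 4) ^ 2 * Q = q • (alt (e0 (m + 4)) * alt (ex m m (m + 1) c d)) := by
    rw [alt_e0, nsmul_eq_mul]
    linear_combination vd (m + 4) * hQ
  rw [h1, map_nsmul, nsmul_eq_mul]

theorem kp_B {R : Type} [CommRing R] [Algebra ℚ R] (h : ℕ → R) (m : ℕ) (p : ℕ → MvPolynomial (Fin (m + 4)) ℚ)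
    (hp : p = psum (Fin (m + 4)) ℚ) :
    B h (m + 4) 1 * B h (m + 4) (p 1 ^ 4 + 3 * p 2 ^ 2 - 4 * (p 1 * p 3)) -
      4 * (B h (m + 4) (p 1) * B h (m + 4) (p 1 ^ 3 - p 3)) +
      3 * (B h (m + 4) (p 1 ^ 2 + p 2) * B h (m + 4) (p 1 ^ 2 - p 2)) = 0 := by
  subst hp
  have v0 := kp_val h m 1 1 (m + 2) (m + 3) (by rw [mul_one, Nat.cast_one, one_mul, vd_ex])
  have v1 := kp_val h m (psum (Fin (m + 4)) ℚ 1) 1 (m + 2) (m + 4)
    (by rw [Nat.cast_one, one_mul, sh_one])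
  have v2 := kp_val h m _ 2 (m + 2) (m + 5) (by rw [sh_two]; norm_num)
  have v11 := kp_val h m _ 2 (m + 3) (m + 4) (by rw [sh_oneone]; norm_num)
  have v21 := kp_val h m _ 3 (m + 3) (m + 5) (by rw [sh_twoone]; norm_num)
  have v22 := kp_val h m _ 12 (m + 4) (m + 5) (by rw [sh_twotwo]; norm_num)
  have hpl := plucker (n := m + 2) (fun i j => h ((j : ℕ) + (i : ℕ))) (fun j => h ((j : ℕ) + (m + 2)))
    (fun j => h ((j : ℕ) + (m + 3))) (fun j => h ((j : ℕ) + (m + 4))) (fun j => h ((j : ℕ) + (m + 5)))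
  rw [v0, v1, v2, v11, v21, v22]
  push_cast
  linear_combination (12 * ((m + 4).factorial : R) ^ 2) * hpl

end SYS.A
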