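import Pool.Agent.SYS.A.KPB
import Pool.Agent.SST.T.Main1

/-!
# SYS-A-KPH: the KP equation for the logarithmic derivative of the partition function
-/

namespace SYS.A

open PowerSeries SST.T

private theorem g2 (N : ℕ) (Q : MvPolynomial (Fin N) ℚ) :
    B ht N (MvPolynomial.psum (Fin N) ℚ 2 * Q) =
      (N : PowerSeries ℚ) ^ 2 * B ht N Q + B ht N (Dm N 1 Q) +
        3 * X * derivative ℚ (B ht N Q) := by
  have h2 := B_p2 ht_IBP N 0 Q
  have h3 := B_p0 ht N (MvPolynomial.psum (Fin N) ℚ 0 * Q)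
  have h4 := B_p0 ht N Q
  have h5 := der_B N Q
  simp only [zero_add, Finset.range_one, Finset.sum_singleton, Nat.sub_zero] at h2
  rw [← mul_assoc] at h3
  rw [h2, h3, h4, h5]
  ring

private theorem g1 (N : ℕ) (Q : MvPolynomial (Fin N) ℚ) :
    B ht N (MvPolynomial.psum (Fin N) ℚ 1 * Q) =
      B ht N (Dm N 0 Q) + 3 * X * ((N : PowerSeries ℚ) ^ 2 * B ht N Q + B ht N (Dm N 1 Q) +
        3 * X * derivative ℚ (B ht N Q)) := by
  rw [B_p1 ht_IBP N Q, g2]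

private theorem dm0 (N k : ℕ) : Dm N 0 (MvPolynomial.psum (Fin N) ℚ 1 ^ k) =
    k • (MvPolynomial.psum (Fin N) ℚ 0 * MvPolynomial.psum (Fin N) ℚ 1 ^ (k - 1)) := by
  rw [Derivation.leibniz_pow, Dm_psum]
  simp [mul_comm]

private theorem dm1 (N k : ℕ) : Dm N 1 (MvPolynomial.psum (Fin N) ℚ 1 ^ (k + 1)) =
    (k + 1) • (MvPolynomial.psum (Fin N) ℚ 1 ^ (k + 1)) := by
  rw [Derivation.leibniz_pow, Dm_psum]
  simp [pow_succ]

private theorem bs (N k : ℕ) (Q : MvPolynomial (Fin N) ℚ) :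
    B ht N (k • Q) = (k : PowerSeries ℚ) * B ht N Q := by
  rw [map_nsmul, nsmul_eq_mul]

/-- the algebra -/
private theorem kp_alg (N W H DW DH f2 u Du P DP P3 DP3 b1 b2 b3 b11 b111 b1111 b22 b13 x
    Db1 Db2 Db11 Db111 : PowerSeries ℚ) (hW : W ≠ 0)
    (hf2 : f2 = N ^ 2 + 3 * H) (hu : u = 3 * x * f2) (hDu : Du = 3 * f2 + 9 * x * DH)
    (hP : P = N + 36 * N ^ 2 * x ^ 2 + 108 * x ^ 2 * H + 81 * x ^ 2 * (x * DH))
    (hP3 : P3 = x * (2 * P + 3 * (x * DP)))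
    (hH : H * W = x * DW)
    (h2 : b2 = N ^ 2 * W + 3 * x * DW)
    (h1 : b1 = 3 * x * (N ^ 2 * W + 3 * x * DW))
    (h3 : b3 = DW)
    (h13 : b13 = Db1)
    (h11 : b11 = N * W + 3 * x * (N ^ 2 * b1 + b1 + 3 * x * Db1))
    (h22 : b22 = N ^ 2 * b2 + 2 * b2 + 3 * x * Db2)
    (h111 : b111 = 2 * (N * b1) + 3 * x * (N ^ 2 * b11 + 2 * b11 + 3 * x * Db11))
    (h1111 : b1111 = 3 * (N * b11) + 3 * x * (N ^ 2 * b111 + 3 * b111 + 3 * x * Db111))
    (d1 : b1 = W * u → Db1 = W * Du + u * DW)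
    (d2 : b2 = W * f2 → Db2 = W * (3 * DH) + f2 * DW)
    (d11 : b11 = W * (u ^ 2 + P) → Db11 = W * (2 * u * Du + DP) + (u ^ 2 + P) * DW)
    (d111 : b111 = W * (u ^ 3 + 3 * u * P + 3 * P3) →
      Db111 = W * (3 * u ^ 2 * Du + 3 * u * DP + 3 * P * Du + 3 * DP3) +
        (u ^ 3 + 3 * u * P + 3 * P3) * DW)
    (hk : W * (b1111 + 3 * b22 - 4 * b13) - 4 * (b1 * (b111 - b3)) +
      3 * ((b11 + b2) * (b11 - b2)) = 0) :
    27 * x * (P3 + x * DP3) + 6 * P ^ 2 = 6 * N ^ 2 + 18 * H + 9 * (x * DH) := by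
  have e2 : b2 = W * f2 := by
    linear_combination h2 - W * hf2 - 3 * hH
  have e1 : b1 = W * u := by
    linear_combination h1 - W * hu - 3 * x * W * hf2 - 9 * x * hH
  have d1 := d1 e1
  have d2 := d2 e2
  have hΦ : P = N + 3 * x * u + 9 * x * (x * Du) := by
    rw [hP, hDu, hu, hf2]
    ring
  have hu' : u = 3 * x * (N ^ 2 + 3 * H) := by rw [hu, hf2]
  have e11 : b11 = W * (u ^ 2 + P) := by
    linear_combination h11 + 3 * x * (N ^ 2 + 1) * e1 + 9 * x ^ 2 * d1 - W * hΦ - W * u * hu' -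
      9 * x * u * hH
  have d11 := d11 e11
  have e22 : b22 = W * (f2 ^ 2 + 2 * f2 + 3 * x * (3 * DH)) := by
    linear_combination h22 + (N ^ 2 + 2) * e2 + 3 * x * d2 - W * f2 * hf2 - 3 * f2 * hH
  have e111 : b111 = W * (u ^ 3 + 3 * u * P + 3 * P3) := by
    linear_combination h111 + 2 * N * e1 + 3 * x * (N ^ 2 + 2) * e11 + 9 * x ^ 2 * d11 -
      3 * W * hP3 - W * (u ^ 2 + P) * hu' - 9 * x * (u ^ 2 + P) * hH - 2 * W * u * hΦ
  have d111 := d111 e111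
  have e1111 : b1111 = W * (u ^ 4 + 6 * u ^ 2 * P + 4 * u * (3 * P3) + 3 * P ^ 2 +
      9 * x * (3 * P3 + x * (3 * DP3))) := by
    linear_combination h1111 + 3 * N * e11 + 3 * x * (N ^ 2 + 3) * e111 + 9 * x ^ 2 * d111 -
      W * (u ^ 3 + 3 * u * P + 3 * P3) * hu' - 9 * x * (u ^ 3 + 3 * u * P + 3 * P3) * hH -
      3 * W * (u ^ 2 + P) * hΦ - 9 * W * u * hP3
  rw [e1111, e22, h13, d1, e1, e111, h3, e11, e2] at hk
  refine mul_left_cancel₀ (pow_ne_zero 2 hW) ?_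
  linear_combination hk + 4 * W ^ 2 * hDu + 6 * W ^ 2 * hf2

theorem kp_H (m : ℕ) (H : PowerSeries ℚ)
    (hH : H * B ht (m + 4) 1 = X * derivative ℚ (B ht (m + 4) 1)) (P P3 : PowerSeries ℚ)
    (hP : P = Phi (m + 4) H) (hP3 : P3 = X * (2 * P + 3 * (X * derivative ℚ P))) :
    27 * X * (P3 + X * derivative ℚ P3) + 6 * P ^ 2 =
      6 * ((m + 4 : ℕ) : PowerSeries ℚ) ^ 2 + 18 * H + 9 * (X * derivative ℚ H) := by
  have hk := kp_B ht m _ rfl
  have hmul : ∀ f g : PowerSeries ℚ, derivative ℚ (f * g) = f * derivative ℚ g + g * derivative ℚ f := by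
    intro f g
    rw [Derivation.leibniz, smul_eq_mul, smul_eq_mul]
  have hW := Bht_ne (m + 4)
  generalize hN : m + 4 = N at *
  have hD3 : derivative ℚ (3 : PowerSeries ℚ) = 0 := der_ofNat 3
  have hDN : derivative ℚ (N : PowerSeries ℚ) = 0 := der_ofNat N
  have hDX : derivative ℚ (X : PowerSeries ℚ) = 1 := derivative_X
  have h2 := g2 N 1
  have h1 := g1 N 1
  have h11 := g1 N (MvPolynomial.psum (Fin N) ℚ 1)
  have h22 := g2 N (MvPolynomial.psum (Fin N) ℚ 2)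
  have h111 := g1 N (MvPolynomial.psum (Fin N) ℚ 1 ^ 2)
  have h1111 := g1 N (MvPolynomial.psum (Fin N) ℚ 1 ^ 3)
  have h3 := der_B N 1
  have h13 := der_B N (MvPolynomial.psum (Fin N) ℚ 1)
  have z0 := B_p0 ht N 1
  have z1 := B_p0 ht N (MvPolynomial.psum (Fin N) ℚ 1)
  have z2 := B_p0 ht N (MvPolynomial.psum (Fin N) ℚ 1 ^ 2)
  have q11 := dm1 N 0
  have q01 := dm0 N 1
  have q12 : Dm N 1 (MvPolynomial.psum (Fin N) ℚ 1 ^ 2) = 2 • _ := dm1 N 1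
  have q02 := dm0 N 2
  have q13 : Dm N 1 (MvPolynomial.psum (Fin N) ℚ 1 ^ 3) = 3 • _ := dm1 N 2
  have q03 := dm0 N 3
  have q22 : Dm N 1 (MvPolynomial.psum (Fin N) ℚ 2) = 2 • MvPolynomial.psum (Fin N) ℚ 2 := by
    rw [Dm_psum]
    rw [show ((2 : ℕ) : ℚ) = ((2 : ℕ) : ℚ) from rfl, Nat.cast_smul_eq_nsmul]
  simp only [zero_add, pow_one, one_smul, Nat.sub_self, pow_zero, mul_one] at q11 q01 z0
  rw [mul_one, Derivation.map_one_eq_zero, map_zero, add_zero] at h2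
  rw [mul_one, Derivation.map_one_eq_zero, Derivation.map_one_eq_zero, map_zero, zero_add,
    add_zero] at h1
  rw [q01, q11, z0, ← pow_two] at h11
  rw [q22, bs, ← pow_two] at h22
  rw [q02, q12, bs, bs, show (2 : ℕ) - 1 = 1 from rfl, pow_one, z1, ← pow_succ'] at h111
  rw [q03, q13, bs, bs, show (3 : ℕ) - 1 = 2 from rfl, z2, ← pow_succ'] at h1111
  rw [mul_one] at h3
  rw [mul_comm] at h13
  have l1 : B ht N (MvPolynomial.psum (Fin N) ℚ 1 ^ 4 + 3 * MvPolynomial.psum (Fin N) ℚ 2 ^ 2 -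
      4 * (MvPolynomial.psum (Fin N) ℚ 1 * MvPolynomial.psum (Fin N) ℚ 3)) =
      B ht N (MvPolynomial.psum (Fin N) ℚ 1 ^ 4) + 3 * B ht N (MvPolynomial.psum (Fin N) ℚ 2 ^ 2) -
      4 * B ht N (MvPolynomial.psum (Fin N) ℚ 1 * MvPolynomial.psum (Fin N) ℚ 3) := by
    have a1 : (3 : MvPolynomial (Fin N) ℚ) * MvPolynomial.psum (Fin N) ℚ 2 ^ 2 =
        3 • (MvPolynomial.psum (Fin N) ℚ 2 ^ 2) := by
      rw [nsmul_eq_mul]
      rfl
    have a2 : (4 : MvPolynomial (Fin N) ℚ) * (MvPolynomial.psum (Fin N) ℚ 1 * MvPolynomial.psum (Fin N) ℚ 3) =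
        4 • (MvPolynomial.psum (Fin N) ℚ 1 * MvPolynomial.psum (Fin N) ℚ 3) := by
      rw [nsmul_eq_mul]
      rfl
    rw [map_sub, map_add, a1, a2, bs, bs]
    rfl
  rw [l1, map_sub, map_add, map_sub] at hk
  refine kp_alg (N : PowerSeries ℚ) (B ht N 1) H (derivative ℚ (B ht N 1)) (derivative ℚ H)
    ((N : PowerSeries ℚ) ^ 2 + 3 * H) (3 * X * ((N : PowerSeries ℚ) ^ 2 + 3 * H))
    (3 * ((N : PowerSeries ℚ) ^ 2 + 3 * H) + 9 * X * derivative ℚ H) P (derivative ℚ P) P3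
    (derivative ℚ P3) (B ht N (MvPolynomial.psum (Fin N) ℚ 1)) (B ht N (MvPolynomial.psum (Fin N) ℚ 2))
    (B ht N (MvPolynomial.psum (Fin N) ℚ 3)) (B ht N (MvPolynomial.psum (Fin N) ℚ 1 ^ 2))
    (B ht N (MvPolynomial.psum (Fin N) ℚ 1 ^ 3)) (B ht N (MvPolynomial.psum (Fin N) ℚ 1 ^ 4))
    (B ht N (MvPolynomial.psum (Fin N) ℚ 2 ^ 2))
    (B ht N (MvPolynomial.psum (Fin N) ℚ 1 * MvPolynomial.psum (Fin N) ℚ 3)) X
    (derivative ℚ (B ht N (MvPolynomial.psum (Fin N) ℚ 1)))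
    (derivative ℚ (B ht N (MvPolynomial.psum (Fin N) ℚ 2)))
    (derivative ℚ (B ht N (MvPolynomial.psum (Fin N) ℚ 1 ^ 2)))
    (derivative ℚ (B ht N (MvPolynomial.psum (Fin N) ℚ 1 ^ 3))) hW rfl rfl rfl ?_ hP3 hH h2 h1
    h3.symm h13.symm h11 ?_ ?_ ?_ ?_ ?_ ?_ ?_ hk
  · rw [hP, Phi]
  · exact_mod_cast h22
  · exact_mod_cast h111
  · exact_mod_cast h1111
  · intro h
    rw [h]
    simp only [hmul, map_add, hD3, hDN, hDX, pow_two]
    ring
  · intro h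
    rw [h]
    simp only [hmul, map_add, hD3, hDN, pow_two]
    ring
  · intro h
    rw [h]
    simp only [hmul, map_add, hD3, hDN, hDX, pow_two]
    ring
  · intro h
    rw [h]
    simp only [hmul, map_add, hD3, hDN, hDX, pow_succ, pow_zero, one_mul]
    ring

end SYS.A
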