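import Pool.Agent.SST.T.Andr

/-!
# SYS-A-Pieri: power sum times alternant

`ex n a b` are the exponents `0, .., n-1, a, b`.
-/

namespace SYS.A

open SST.T MvPolynomial

private theorem pieri_sum {R : Type*} [CommRing R] {N : ℕ} (M : Matrix (Fin N) (Fin N) R)
    (v : Fin N → R) :
    ∑ i, (M.updateRow i (fun j => v j * M i j)).det = (∑ j, v j) * M.det := by
  simp_rw [Matrix.det_apply']
  rw [Finset.sum_comm, Finset.mul_sum]
  refine Finset.sum_congr rfl fun σ _ => ?_
  have h : ∀ i, ∏ j, (M.updateRow i (fun j => v j * M i j)) (σ j) j =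
      v (σ.symm i) * ∏ j, M (σ j) j := by
    intro i
    have h1 : ∀ j, (M.updateRow i (fun j => v j * M i j)) (σ j) j =
        (if j = σ.symm i then v j else 1) * M (σ j) j := by
      intro j
      rw [Matrix.updateRow_apply]
      by_cases hj : σ j = i
      · have : j = σ.symm i := by rw [← hj]; simp
        rw [if_pos hj, if_pos this, hj]
      · have : j ≠ σ.symm i := by rintro rfl; simp at hj
        rw [if_neg hj, if_neg this, one_mul]
    rw [Finset.prod_congr rfl (fun j _ => h1 j), Finset.prod_mul_distrib]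
    simp
  simp_rw [h]
  rw [← Finset.mul_sum, ← Finset.sum_mul, Equiv.sum_comp σ.symm v]
  ring

theorem psum_alt {N : ℕ} (k : ℕ) (e : Fin N → ℕ) :
    psum (Fin N) ℚ k * alt e = ∑ i, alt (Function.update e i (e i + k)) := by
  have h1 := pieri_sum (Matrix.of fun i j : Fin N => (X j ^ e i : MvPolynomial (Fin N) ℚ))
    (fun j => X j ^ k)
  have h2 : psum (Fin N) ℚ k = ∑ j, X j ^ k := rfl
  rw [h2, alt, ← h1]
  refine Finset.sum_congr rfl fun i _ => ?_
  unfold alt
  congr 1
  ext a j : 2
  rw [Matrix.updateRow_apply]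
  by_cases ha : a = i
  · subst ha
    rw [if_pos rfl, Matrix.of_apply, Matrix.of_apply, Function.update_self, pow_add, mul_comm]
  · rw [if_neg ha, Matrix.of_apply, Matrix.of_apply, Function.update_of_ne ha]

theorem alt_eq_zero {N : ℕ} (e : Fin N → ℕ) {i j : Fin N} (hij : i ≠ j) (h : e i = e j) :
    alt e = 0 := by
  apply Matrix.det_zero_of_row_eq hij
  ext a : 1
  rw [Matrix.of_apply, Matrix.of_apply, h]

theorem alt_swap {N : ℕ} (e : Fin N → ℕ) {i j : Fin N} (hij : i ≠ j) :
    alt (e ∘ Equiv.swap i j) = - alt e := by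
  have h := Matrix.det_permute (Equiv.swap i j)
    (Matrix.of fun i j : Fin N => (X j ^ e i : MvPolynomial (Fin N) ℚ))
  rw [Equiv.Perm.sign_swap hij] at h
  have h2 : alt (e ∘ Equiv.swap i j) =
      ((Matrix.of fun i j : Fin N => (X j ^ e i : MvPolynomial (Fin N) ℚ)).submatrix
        (Equiv.swap i j) id).det := rfl
  rw [h2, h, alt]
  simp

end SYS.A
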