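import Pool.Agent.SYS.A.Shp0

/-!
# SYS-A-Shp: the alternants of the shapes (1), (1,1), (2), (2,1), (2,2)

PROOF. With `[a b c d] = alt (ex m (m+a) (m+b) (m+c) (m+d))`: `vd = [0123]` (`alt_e0`, `ex m m (m+1) (m+2) (m+3) = e0 (m+4)`). By `p1_ex`, `p2_ex`, `p3_ex`, the swaps and zeros of `Shp0` (terms with two equal entries vanish, sort the others):
p1 [0123] = [0124]; p1^2: [0125] + [0134]; p2 [0123] = [0125] - [0134]; p1 [0125] = [0126] + [0135]; p1 [0134] = [0234] + [0135]; so p1^3: [0126] + 2 [0135] + [0234]; p3 [0123] = [0126] - [0135] + [0234];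
p1 [0126] = [0127] + [0136]; p1 [0135] = [0235] + [0145] + [0136]; p1 [0234] = [1234] + [0235]; so p1^4: [0127] + 3 [0136] + 2 [0145] + 3 [0235] + [1234]; p2 [0125] = [0127] + [0145] - [0235]; p2 [0134] = [0136] - [0145] - [1234]
(signs: [2 1 3 4] = - [1234], [0 1 5 4] = - [0145], [0 3 3 4] = 0, [0 3 2 5] = - [0235]), so p2^2: [0127] - [0136] + 2 [0145] - [0235] + [1234]; p3 p1: p3 [0124] = [0127] - [0145] + [1234] ([3 1 2 4] = [1234], [0 4 2 4] = 0, [0 1 5 4] = - [0145]).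
Hence p1^4 + 3 p2^2 - 4 p1 p3 = 12 [0145].
-/

namespace SYS.A

open SST.T MvPolynomial

/-- the alternant with the exponents `0, .., m-1, m+a, m+b, m+c, m+d` -/
private noncomputable abbrev br (m a b c d : ℕ) : MvPolynomial (Fin (m + 4)) ℚ :=
  alt (ex m (m + a) (m + b) (m + c) (m + d))

private theorem r1 (m b c d : ℕ) : psum (Fin (m + 4)) ℚ 1 * br m 0 b c d =
    br m 1 b c d + br m 0 (b + 1) c d + br m 0 b (c + 1) d + br m 0 b c (d + 1) :=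
  p1_ex m (m + b) (m + c) (m + d)

private theorem r2 (m c d : ℕ) : psum (Fin (m + 4)) ℚ 2 * br m 0 1 c d =
    br m 2 1 c d + br m 0 3 c d + br m 0 1 (c + 2) d + br m 0 1 c (d + 2) :=
  p2_ex m (m + c) (m + d)

private theorem r3 (m d : ℕ) : psum (Fin (m + 4)) ℚ 3 * br m 0 1 2 d =
    br m 3 1 2 d + br m 0 4 2 d + br m 0 1 5 d + br m 0 1 2 (d + 3) :=
  p3_ex m (m + d)

private theorem zab (m a c d : ℕ) : br m a a c d = 0 := ex_zero_ab m (m + a) (m + c) (m + d)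
private theorem zbc (m a b d : ℕ) : br m a b b d = 0 := ex_zero_bc m (m + a) (m + b) (m + d)
private theorem zcd (m a b c : ℕ) : br m a b c c = 0 := ex_zero_cd m (m + a) (m + b) (m + c)
private theorem sab (m a b c d : ℕ) : br m b a c d = -br m a b c d :=
  ex_swap_ab m (m + a) (m + b) (m + c) (m + d)
private theorem sbc (m a b c d : ℕ) : br m a c b d = -br m a b c d :=
  ex_swap_bc m (m + a) (m + b) (m + c) (m + d)
private theorem scd (m a b c d : ℕ) : br m a b d c = -br m a b c d :=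
  ex_swap_cd m (m + a) (m + b) (m + c) (m + d)

private theorem h1 (m : ℕ) : psum (Fin (m + 4)) ℚ 1 * br m 0 1 2 3 = br m 0 1 2 4 := by
  rw [r1, zab, zbc, zcd]; ring

private theorem h2 (m : ℕ) : psum (Fin (m + 4)) ℚ 1 * br m 0 1 2 4 =
    br m 0 1 2 5 + br m 0 1 3 4 := by
  rw [r1, zab, zbc]; ring

private theorem h3 (m : ℕ) : psum (Fin (m + 4)) ℚ 2 * br m 0 1 2 3 =
    br m 0 1 2 5 - br m 0 1 3 4 := by
  rw [r2, sab m 1 2 2 3, zbc, sbc m 0 2 3 3, zcd, scd m 0 1 3 (2 + 2)]; ring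

private theorem h4 (m : ℕ) : psum (Fin (m + 4)) ℚ 1 * br m 0 1 2 5 =
    br m 0 1 2 6 + br m 0 1 3 5 := by
  rw [r1, zab, zbc]; ring

private theorem h5 (m : ℕ) : psum (Fin (m + 4)) ℚ 1 * br m 0 1 3 4 =
    br m 0 2 3 4 + br m 0 1 3 5 := by
  rw [r1, zab, zcd]; ring

private theorem h6 (m : ℕ) : psum (Fin (m + 4)) ℚ 3 * br m 0 1 2 3 =
    br m 0 1 2 6 - br m 0 1 3 5 + br m 0 2 3 4 := by
  rw [r3, sab m 1 3 2 3, sbc m 1 2 3 3, zcd, sbc m 0 2 4 3, scd m 0 2 3 4, scd m 0 1 3 5]; ring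

private theorem h7 (m : ℕ) : psum (Fin (m + 4)) ℚ 1 * br m 0 1 2 6 =
    br m 0 1 2 7 + br m 0 1 3 6 := by
  rw [r1, zab, zbc]; ring

private theorem h8 (m : ℕ) : psum (Fin (m + 4)) ℚ 1 * br m 0 1 3 5 =
    br m 0 2 3 5 + br m 0 1 4 5 + br m 0 1 3 6 := by
  rw [r1, zab]; ring

private theorem h9 (m : ℕ) : psum (Fin (m + 4)) ℚ 1 * br m 0 2 3 4 =
    br m 1 2 3 4 + br m 0 2 3 5 := by
  rw [r1, zbc, zcd]; ring

private theorem h10 (m : ℕ) : psum (Fin (m + 4)) ℚ 2 * br m 0 1 2 5 =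
    br m 0 1 2 7 + br m 0 1 4 5 - br m 0 2 3 5 := by
  rw [r2, sab m 1 2 2 5, zbc, sbc m 0 2 3 5]; ring

private theorem h11 (m : ℕ) : psum (Fin (m + 4)) ℚ 2 * br m 0 1 3 4 =
    br m 0 1 3 6 - br m 0 1 4 5 - br m 1 2 3 4 := by
  rw [r2, sab m 1 2 3 4, zbc, scd m 0 1 4 (3 + 2)]; ring

private theorem h12 (m : ℕ) : psum (Fin (m + 4)) ℚ 3 * br m 0 1 2 4 =
    br m 0 1 2 7 - br m 0 1 4 5 + br m 1 2 3 4 := by
  rw [r3, sab m 1 3 2 4, sbc m 1 2 3 4, sbc m 0 2 4 4, zcd, scd m 0 1 4 5]; ring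

theorem vd_ex (m : ℕ) : vd (m + 4) = alt (ex m m (m + 1) (m + 2) (m + 3)) := by
  rw [← alt_e0]
  congr 1
  ext i
  have hi := i.2
  simp only [e0, ex]
  split_ifs <;> omega

private theorem vd_br (m : ℕ) : vd (m + 4) = br m 0 1 2 3 := vd_ex m

theorem sh_one (m : ℕ) : vd (m + 4) * psum (Fin (m + 4)) ℚ 1 =
    alt (ex m m (m + 1) (m + 2) (m + 4)) := by
  change _ = br m 0 1 2 4
  rw [vd_br]
  linear_combination h1 m

theorem sh_two (m : ℕ) : vd (m + 4) * (psum (Fin (m + 4)) ℚ 1 ^ 2 + psum (Fin (m + 4)) ℚ 2) =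
    2 * alt (ex m m (m + 1) (m + 2) (m + 5)) := by
  change _ = 2 * br m 0 1 2 5
  rw [vd_br]
  linear_combination psum (Fin (m + 4)) ℚ 1 * h1 m + h2 m + h3 m

theorem sh_oneone (m : ℕ) : vd (m + 4) * (psum (Fin (m + 4)) ℚ 1 ^ 2 - psum (Fin (m + 4)) ℚ 2) =
    2 * alt (ex m m (m + 1) (m + 3) (m + 4)) := by
  change _ = 2 * br m 0 1 3 4
  rw [vd_br]
  linear_combination psum (Fin (m + 4)) ℚ 1 * h1 m + h2 m - h3 m

theorem sh_twoone (m : ℕ) : vd (m + 4) * (psum (Fin (m + 4)) ℚ 1 ^ 3 - psum (Fin (m + 4)) ℚ 3) =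
    3 * alt (ex m m (m + 1) (m + 3) (m + 5)) := by
  change _ = 3 * br m 0 1 3 5
  rw [vd_br]
  linear_combination psum (Fin (m + 4)) ℚ 1 ^ 2 * h1 m + psum (Fin (m + 4)) ℚ 1 * h2 m + h4 m +
    h5 m - h6 m

theorem sh_twotwo (m : ℕ) : vd (m + 4) * (psum (Fin (m + 4)) ℚ 1 ^ 4 +
    3 * psum (Fin (m + 4)) ℚ 2 ^ 2 - 4 * (psum (Fin (m + 4)) ℚ 1 * psum (Fin (m + 4)) ℚ 3)) =
    12 * alt (ex m m (m + 1) (m + 4) (m + 5)) := by
  change _ = 12 * br m 0 1 4 5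
  rw [vd_br]
  linear_combination psum (Fin (m + 4)) ℚ 1 ^ 3 * h1 m + psum (Fin (m + 4)) ℚ 1 ^ 2 * h2 m +
    psum (Fin (m + 4)) ℚ 1 * (h4 m + h5 m) + h7 m + 2 * h8 m + h9 m +
    3 * (psum (Fin (m + 4)) ℚ 2 * h3 m + h10 m - h11 m) -
    4 * (psum (Fin (m + 4)) ℚ 3 * h1 m + h12 m)

end SYS.A
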