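import Pool.Agent.SYS.A.Pieri

/-!
# SYS-A-Shp0: Pieri rules for the exponents `0, .., m-1, a, b, c, d`

From `psum_alt`: the terms with a raised exponent `i < m` have two equal exponents.
-/

namespace SYS.A

open SST.T MvPolynomial

/-- Exponents `0, .., m-1, a, b, c, d`. -/
def ex (m a b c d : ℕ) : Fin (m + 4) → ℕ := fun i =>
  if (i : ℕ) < m then i else if (i : ℕ) = m then a else if (i : ℕ) = m + 1 then b
  else if (i : ℕ) = m + 2 then c else d

private theorem upd (m a b c d k : ℕ) (r : Fin (m + 4)) (a' b' c' d' : ℕ)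
    (ha : a' = if (r : ℕ) = m then a + k else a) (hb : b' = if (r : ℕ) = m + 1 then b + k else b)
    (hc : c' = if (r : ℕ) = m + 2 then c + k else c) (hd : d' = if (r : ℕ) = m + 3 then d + k else d)
    (hr : m ≤ (r : ℕ)) :
    Function.update (ex m a b c d) r (ex m a b c d r + k) = ex m a' b' c' d' := by
  subst ha hb hc hd
  have hr4 := r.2
  funext i
  have hi4 := i.2
  rw [Function.update_apply]
  by_cases hi : i = r
  · rw [if_pos hi, hi]
    unfold ex
    split_ifs <;> first | rfl | omega
  · rw [if_neg hi]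
    rw [Fin.ext_iff] at hi
    unfold ex
    split_ifs <;> first | rfl | omega

private theorem p_ex (k m a b c d : ℕ) (hk : 0 < k)
    (h : ∀ i, i < m → i + k < m ∨ i + k = a ∨ i + k = b ∨ i + k = c) :
    psum (Fin (m + 4)) ℚ k * alt (ex m a b c d) =
      alt (ex m (a + k) b c d) + alt (ex m a (b + k) c d) + alt (ex m a b (c + k) d) +
      alt (ex m a b c (d + k)) := by
  rw [psum_alt, Fin.sum_univ_add, Fin.sum_univ_four]
  have h0 : ∑ i : Fin m, alt (Function.update (ex m a b c d) (Fin.castAdd 4 i)
      (ex m a b c d (Fin.castAdd 4 i) + k)) = 0 := by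
    refine Finset.sum_eq_zero fun i _ => ?_
    have hi := i.2
    have hval : ex m a b c d (Fin.castAdd 4 i) = i := by
      unfold ex
      rw [Fin.val_castAdd, if_pos hi]
    have key : ∀ j : Fin (m + 4), (j : ℕ) ≠ i → ex m a b c d j = (i : ℕ) + k →
        alt (Function.update (ex m a b c d) (Fin.castAdd 4 i)
          (ex m a b c d (Fin.castAdd 4 i) + k)) = 0 := by
      intro j hj hjk
      have hne : j ≠ Fin.castAdd 4 i := by
        rw [Ne, Fin.ext_iff, Fin.val_castAdd]
        exact hj
      refine alt_eq_zero _ hne ?_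
      rw [Function.update_of_ne hne, Function.update_self, hval, hjk]
    rcases h i hi with h1 | h1 | h1 | h1
    · refine key ⟨(i : ℕ) + k, by omega⟩ (by simp only; omega) ?_
      unfold ex
      simp only
      rw [if_pos h1]
    · refine key ⟨m, by omega⟩ (by simp only; omega) ?_
      unfold ex
      simp only
      rw [h1]
      split_ifs <;> first | rfl | omega
    · refine key ⟨m + 1, by omega⟩ (by simp only; omega) ?_
      unfold ex
      simp only
      rw [h1]
      split_ifs <;> first | rfl | omega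
    · refine key ⟨m + 2, by omega⟩ (by simp only; omega) ?_
      unfold ex
      simp only
      rw [h1]
      split_ifs <;> first | rfl | omega
  rw [h0, zero_add]
  rw [upd m a b c d k (Fin.natAdd m 0) (a + k) b c d (by simp) (by simp) (by simp) (by simp) (by simp),
    upd m a b c d k (Fin.natAdd m 1) a (b + k) c d (by simp) (by simp) (by simp) (by simp) (by simp),
    upd m a b c d k (Fin.natAdd m 2) a b (c + k) d (by simp) (by simp) (by simp) (by simp) (by simp),
    upd m a b c d k (Fin.natAdd m 3) a b c (d + k) (by simp) (by simp) (by simp) (by simp) (by simp)]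

theorem p1_ex (m b c d : ℕ) : psum (Fin (m + 4)) ℚ 1 * alt (ex m m b c d) =
    alt (ex m (m + 1) b c d) + alt (ex m m (b + 1) c d) + alt (ex m m b (c + 1) d) +
      alt (ex m m b c (d + 1)) := by
  exact p_ex 1 m m b c d one_pos fun i hi => by omega

theorem p2_ex (m c d : ℕ) : psum (Fin (m + 4)) ℚ 2 * alt (ex m m (m + 1) c d) =
    alt (ex m (m + 2) (m + 1) c d) + alt (ex m m (m + 3) c d) + alt (ex m m (m + 1) (c + 2) d) +
      alt (ex m m (m + 1) c (d + 2)) := by
  exact p_ex 2 m m (m + 1) c d two_pos fun i hi => by omega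

theorem p3_ex (m d : ℕ) : psum (Fin (m + 4)) ℚ 3 * alt (ex m m (m + 1) (m + 2) d) =
    alt (ex m (m + 3) (m + 1) (m + 2) d) + alt (ex m m (m + 4) (m + 2) d) +
      alt (ex m m (m + 1) (m + 5) d) + alt (ex m m (m + 1) (m + 2) (d + 3)) := by
  exact p_ex 3 m m (m + 1) (m + 2) d three_pos fun i hi => by omega

theorem ex_swap_ab (m a b c d : ℕ) : alt (ex m b a c d) = -alt (ex m a b c d) := by
  have h1 := alt_swap (ex m a b c d) (i := ⟨m, by omega⟩) (j := ⟨m + 1, by omega⟩)
    (by rw [Ne, Fin.mk.injEq]; omega)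
  rw [← h1]
  congr 1
  funext i
  rw [Function.comp_apply, Equiv.swap_apply_def]
  by_cases hi : i = ⟨m, by omega⟩
  · rw [if_pos hi, hi]
    unfold ex
    simp only
    split_ifs <;> first | rfl | omega
  · by_cases hi' : i = ⟨m + 1, by omega⟩
    · rw [if_neg hi, if_pos hi', hi']
      unfold ex
      simp only
      split_ifs <;> first | rfl | omega
    · rw [if_neg hi, if_neg hi']
      rw [Fin.ext_iff] at hi hi'
      simp only at hi hi'
      unfold ex
      split_ifs <;> rfl

theorem ex_swap_bc (m a b c d : ℕ) : alt (ex m a c b d) = -alt (ex m a b c d) := by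
  have h1 := alt_swap (ex m a b c d) (i := ⟨m + 1, by omega⟩) (j := ⟨m + 2, by omega⟩)
    (by rw [Ne, Fin.mk.injEq]; omega)
  rw [← h1]
  congr 1
  funext i
  rw [Function.comp_apply, Equiv.swap_apply_def]
  by_cases hi : i = ⟨m + 1, by omega⟩
  · rw [if_pos hi, hi]
    unfold ex
    simp only
    split_ifs <;> first | rfl | omega
  · by_cases hi' : i = ⟨m + 2, by omega⟩
    · rw [if_neg hi, if_pos hi', hi']
      unfold ex
      simp only
      split_ifs <;> first | rfl | omega
    · rw [if_neg hi, if_neg hi']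
      rw [Fin.ext_iff] at hi hi'
      simp only at hi hi'
      unfold ex
      split_ifs <;> rfl

theorem ex_swap_cd (m a b c d : ℕ) : alt (ex m a b d c) = -alt (ex m a b c d) := by
  have h1 := alt_swap (ex m a b c d) (i := ⟨m + 2, by omega⟩) (j := ⟨m + 3, by omega⟩)
    (by rw [Ne, Fin.mk.injEq]; omega)
  rw [← h1]
  congr 1
  funext i
  rw [Function.comp_apply, Equiv.swap_apply_def]
  by_cases hi : i = ⟨m + 2, by omega⟩
  · rw [if_pos hi, hi]
    unfold ex
    simp only
    split_ifs <;> first | rfl | omega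
  · by_cases hi' : i = ⟨m + 3, by omega⟩
    · rw [if_neg hi, if_pos hi', hi']
      unfold ex
      simp only
      split_ifs <;> first | rfl | omega
    · rw [if_neg hi, if_neg hi']
      rw [Fin.ext_iff] at hi hi'
      simp only at hi hi'
      unfold ex
      split_ifs <;> first | rfl | omega

theorem ex_zero_ab (m a c d : ℕ) : alt (ex m a a c d) = 0 := by
  refine alt_eq_zero _ (i := ⟨m, by omega⟩) (j := ⟨m + 1, by omega⟩)
    (by rw [Ne, Fin.mk.injEq]; omega) ?_
  unfold ex
  simp only
  split_ifs <;> first | rfl | omega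

theorem ex_zero_bc (m a b d : ℕ) : alt (ex m a b b d) = 0 := by
  refine alt_eq_zero _ (i := ⟨m + 1, by omega⟩) (j := ⟨m + 2, by omega⟩)
    (by rw [Ne, Fin.mk.injEq]; omega) ?_
  unfold ex
  simp only
  split_ifs <;> first | rfl | omega

theorem ex_zero_cd (m a b c : ℕ) : alt (ex m a b c c) = 0 := by
  refine alt_eq_zero _ (i := ⟨m + 2, by omega⟩) (j := ⟨m + 3, by omega⟩)
    (by rw [Ne, Fin.mk.injEq]; omega) ?_
  unfold ex
  simp only
  split_ifs <;> first | rfl | omega

end SYS.A
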