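import Pool.Agent.SYS.A.Idn

/-!
# SYS-A-Supp: the supports of the polynomials (Euler's relation)

PROOF. Strong induction on `j` for both statements together: `ph_supp` for `j = 0, 1, 2` direct, `ph (j + 2)` for `j ≥ 1` is a multiple of `cp j`; `cp_supp` for `j = 1`: `cp_one`; for `j + 2` (`j ≥ 0`): `kp_poly j`, whose
left side only involves `ph i` with `i ≤ j + 2`, i.e. `cp i` with `i ≤ j`: a nonzero coefficient of a sum/product gives a nonzero coefficient of a term/of both factors.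
`ph j`: `2 v + 4 g = j + 2`, so `2 v + 4 (g + 1) = (j + 2) + 4`; products: `2 (v + v') + 4 (g + g') = (j + 2) + 4`.
-/

namespace SYS.A

open Polynomial SST.T

private theorem ph_of (j : ℕ) (H : ∀ i, i + 2 ≤ j → 1 ≤ i → ∀ v, (cp i).coeff v ≠ 0 →
    ∃ g : ℕ, 2 * v + 4 * g = i + 4) (v : ℕ) (h : (ph j).coeff v ≠ 0) :
    ∃ g : ℕ, 2 * v + 4 * g = j + 2 := by
  match j, H, h with
  | 0, _, h =>
    have e : ph 0 = X := rfl
    rw [e, coeff_X] at h
    have hv : 1 = v := by
      by_contra h1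
      exact h (if_neg h1)
    exact ⟨0, by omega⟩
  | 1, _, h =>
    have e : ph 1 = 0 := rfl
    rw [e, coeff_zero] at h
    exact absurd rfl h
  | i + 2, H, h =>
    have e : ph (i + 2) = C ((3 : ℚ) ^ (i + 2) * (3 * (i : ℚ) * (3 * (i : ℚ) + 4))) * cp i +
      if i = 0 then C 36 * X ^ 2 else 0 := rfl
    rw [e] at h
    by_cases hi : i = 0
    · subst hi
      rw [if_pos rfl] at h
      have e2 : (3 : ℚ) ^ (0 + 2) * (3 * ((0 : ℕ) : ℚ) * (3 * ((0 : ℕ) : ℚ) + 4)) = 0 := by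
        simp
      rw [e2, C_0, zero_mul, zero_add, coeff_C_mul, coeff_X_pow] at h
      have hv : v = 2 := by
        by_contra h1
        apply h
        rw [if_neg h1, mul_zero]
      exact ⟨0, by omega⟩
    · rw [if_neg hi, add_zero, coeff_C_mul] at h
      obtain ⟨g, hg⟩ := H i le_rfl (by omega) v (right_ne_zero_of_mul h)
      exact ⟨g, by omega⟩

private theorem cp_all (j : ℕ) : 1 ≤ j → ∀ v, (cp j).coeff v ≠ 0 →
    ∃ g : ℕ, 2 * v + 4 * g = j + 4 := by
  induction j using Nat.strong_induction_on with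
  | _ j ih =>
    intro hj v h
    match j, ih, hj, h with
    | 1, _, _, h =>
      rw [cp_one, coeff_zero] at h
      exact absurd rfl h
    | j + 2, ih, _, h =>
      have hph : ∀ i, i ≤ j + 2 → ∀ v, (ph i).coeff v ≠ 0 → ∃ g : ℕ, 2 * v + 4 * g = i + 2 :=
        fun i hi v hv => ph_of i (fun i' hi' h1 v' hv' => ih i' (by omega) h1 v' hv') v hv
      have hk : (C (27 * ((j : ℚ) + 2) * (3 * j + 2)) * ph j +
          6 * ∑ p ∈ Finset.HasAntidiagonal.antidiagonal (j + 2), ph p.1 * ph p.2).coeff v =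
          (C (9 * ((j : ℚ) + 2) * (j + 4) * 3 ^ (j + 2)) * cp (j + 2)).coeff v := by
        rw [kp_poly j]
      have e6 : (6 : ℚ[X]) = C 6 := (map_ofNat C 6).symm
      rw [e6, coeff_add, coeff_C_mul, coeff_C_mul, coeff_C_mul, finsetSum_coeff] at hk
      have hne : (9 * ((j : ℚ) + 2) * (j + 4) * 3 ^ (j + 2)) * (cp (j + 2)).coeff v ≠ 0 :=
        mul_ne_zero (by positivity) h
      rw [← hk] at hne
      by_cases h1 : (ph j).coeff v = 0
      · rw [h1, mul_zero, zero_add] at hne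
        obtain ⟨p, hp, hp2⟩ := Finset.exists_ne_zero_of_sum_ne_zero (right_ne_zero_of_mul hne)
        rw [coeff_mul] at hp2
        obtain ⟨q, hq, hq2⟩ := Finset.exists_ne_zero_of_sum_ne_zero hp2
        rw [Finset.HasAntidiagonal.mem_antidiagonal] at hp hq
        obtain ⟨g1, hg1⟩ := hph p.1 (by omega) q.1 (left_ne_zero_of_mul hq2)
        obtain ⟨g2, hg2⟩ := hph p.2 (by omega) q.2 (right_ne_zero_of_mul hq2)
        exact ⟨g1 + g2, by omega⟩
      · obtain ⟨g, hg⟩ := hph j (by omega) v h1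
        exact ⟨g + 1, by omega⟩

theorem cp_supp {j v : ℕ} (hj : 1 ≤ j) (h : (cp j).coeff v ≠ 0) : ∃ g : ℕ, 2 * v + 4 * g = j + 4 :=
  cp_all j hj v h

theorem ph_supp {j v : ℕ} (h : (ph j).coeff v ≠ 0) : ∃ g : ℕ, 2 * v + 4 * g = j + 2 :=
  ph_of j (fun i _ h1 v' hv' => cp_all i h1 v' hv') v h

end SYS.A
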