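import Pool.Agent.SYS.A.Supp
import Pool.Agent.SST.T.NuCp

/-!
# SYS-A-TT: the numbers `T(n, g) = (3n + 2) τ(n, g)` and the supports of the polynomials

`tau n g = 6 n nu n g` is the number of rooted triangulations with `2n` faces and genus `g`; `TT m g = T(m - 1, g)` with the conventions `T(0,0) = 2`, `T(-1,0) = 1/2`.
-/

namespace SYS.A

open Polynomial SST.T

/-- Number of rooted triangulations with `2n` faces and genus `g`. -/
noncomputable def tau (n g : ℕ) : ℝ := 6 * n * SST.nu n g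

/-- `TT m g = T(m - 1, g)`. -/
noncomputable def TT : ℕ → ℕ → ℝ
  | 0, g => if g = 0 then 1 / 2 else 0
  | 1, g => if g = 0 then 2 else 0
  | m + 2, g => (3 * (m + 1) + 2) * tau (m + 1) g

/-- The numbers `c(j, k)` of the Toda equation. -/
noncomputable def cc (j k : ℕ) : ℝ :=
  ∑ h ∈ Finset.range k, ((j + 2 - 2 * h).choose (2 * (k - h)) : ℝ) * tau j h

theorem ph_coeff (m g : ℕ) (h : 2 * g ≤ m + 1) :
    (((ph (2 * m)).coeff (m + 1 - 2 * g) : ℚ) : ℝ) = 2 * 3 ^ (2 * m) * TT m g := by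
  match m, h with
  | 0, h =>
    have hg : g = 0 := by omega
    subst hg
    simp [ph, TT, coeff_X]
  | 1, h =>
    have h1 : ph (2 * 1) = C 36 * X ^ 2 := by
      show ph (0 + 2) = _
      rw [ph]
      simp
    rw [h1, coeff_C_mul, coeff_X_pow]
    by_cases hg : g = 0
    · subst hg
      norm_num [TT]
    · have hg1 : g = 1 := by omega
      subst hg1
      norm_num [TT]
  | m + 2, h =>
    have h1 : ph (2 * (m + 2)) = C ((3 : ℚ) ^ (2 * (m + 2)) *
        (3 * ((2 * (m + 1) : ℕ) : ℚ) * (3 * ((2 * (m + 1) : ℕ) : ℚ) + 4))) * cp (2 * (m + 1)) := by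
      show ph (2 * (m + 1) + 2) = _
      rw [ph, if_neg (by omega), add_zero]
      rfl
    have h2 := nu_eq (m + 1) g (by omega)
    rw [h1, coeff_C_mul, show m + 2 + 1 - 2 * g = m + 1 + 2 - 2 * g from by omega]
    rw [Rat.cast_mul, ← h2, TT, tau]
    push_cast
    ring

theorem tau_coeff (n g : ℕ) (hn : 1 ≤ n) (h : 2 * g ≤ n + 2) :
    (((cp (2 * n)).coeff (n + 2 - 2 * g) : ℚ) : ℝ) * (6 * n) = tau n g := by
  rw [← nu_eq n g h, tau]
  ring

theorem TT_nonneg (m g : ℕ) : 0 ≤ TT m g := by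
  have hnu : ∀ n, 0 ≤ SST.nu n g := fun n => by
    unfold SST.nu
    positivity
  match m with
  | 0 =>
    rw [TT]
    split_ifs <;> norm_num
  | 1 =>
    rw [TT]
    split_ifs <;> norm_num
  | m + 2 =>
    rw [TT, tau]
    have := hnu (m + 1)
    positivity

theorem tau_nonneg (n g : ℕ) : 0 ≤ tau n g := by
  unfold tau SST.nu
  positivity

theorem tau_zero {n g : ℕ} (h : n + 1 < 2 * g) : tau n g = 0 := by
  rw [tau]
  rcases Nat.lt_or_ge (n + 2) (2 * g) with h1 | h1
  · rw [nu_eq_zero n g h1, mul_zero]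
  · rcases Nat.eq_zero_or_pos n with h0 | h0
    · rw [h0]
      simp
    · rw [nu_eq n g h1, show n + 2 - 2 * g = 0 from by omega, cp_coeff_zero n h0]
      simp

theorem TT_zero {m g : ℕ} (h : m < 2 * g) : TT m g = 0 := by
  match m, h with
  | 0, h =>
    rw [TT, if_neg (by omega)]
  | 1, h =>
    rw [TT, if_neg (by omega)]
  | m + 2, h =>
    rw [TT, tau_zero (by omega), mul_zero]

end SYS.A
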