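import Pool.Agent.SYS.A.TT

/-!
# SYS-A-TodaT: the Toda equation for the numbers `T(n, g)`

PROOF. Let `m = n + 1`. `m = 1`: only `p = (0, 1)`, `q = (0, g+1)` can give a nonzero term (`cc 0 k = 0` as `tau 0 h = 0`), or take the coefficient of `X ^ (2 - 2 g)` in `toda_poly 0`, as in the general case.
`2 g ≤ m + 1`: coefficient of `X ^ (m + 1 - 2 g)` in `toda_poly (2 m - 2)`: left side `2 m * 2 * 3^(2m) TT m g` (`ph_coeff`). Right side: only `p = (2 i, 2 j)` count (`ph_supp`, `cp_supp`), `ph (2 i)` has only the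
coefficients `i + 1 - 2 h`, and `dd (cp (2 j))` at `w` is `∑_{l ≥ 1} 2 choose (w + 2 l) (2 l) (cp (2 j)).coeff (w + 2 l)` (`dd_coeff`, proved from `Polynomial.comp` and the binomial theorem, see `ddCoeff`, `dc` in `SST/T/Pos.lean`);
with `w = j + 2 - 2 k`, `w + 2 l = j + 2 - 2 (k - l)`, this is `2 / (6 j) * cc j k` (`tau_coeff`; `h = k - l`). The conditions `(i + 1 - 2 h) + (j + 2 - 2 k) = m + 1 - 2 g`, `i + j = m` mean `h + k = g + 1`. If `2 g > m + 1` both sides
are `0` (`TT_zero`, `cc_zero`).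
-/

namespace SYS.A

open Polynomial SST.T

private theorem tdAdd (P Q : ℚ[X]) : dd (P + Q) = dd P + dd Q := by
  unfold dd
  rw [add_comp, add_comp]
  ring

private theorem tdZero : dd (0 : ℚ[X]) = 0 := by
  unfold dd
  simp

private theorem tdSum {ι : Type*} (s : Finset ι) (f : ι → ℚ[X]) :
    dd (∑ i ∈ s, f i) = ∑ i ∈ s, dd (f i) := by
  classical
  induction s using Finset.induction_on with
  | empty => simpa using tdZero
  | insert a s ha ih => rw [Finset.sum_insert ha, Finset.sum_insert ha, tdAdd, ih]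

/-- the coefficients of the second difference of `X ^ m` -/
private noncomputable def td (m v : ℕ) : ℚ :=
  (1 + (-1) ^ (m - v)) * (m.choose v : ℚ) - (if v = m then 2 else 0)

private theorem tdMono (m : ℕ) (a : ℚ) (v : ℕ) : (dd (monomial m a)).coeff v = a * td m v := by
  have h1 : (X + 1 : ℚ[X]) = X + C 1 := by rw [C_1]
  have h2 : (X - 1 : ℚ[X]) = X + C (-1) := by rw [C_neg, C_1, sub_eq_add_neg]
  have h3 : (2 : ℚ[X]) * monomial m a = monomial m (2 * a) := by
    rw [← C_mul_monomial]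
    rfl
  unfold dd td
  rw [monomial_comp, monomial_comp, h1, h2, h3, coeff_sub, coeff_add, coeff_C_mul, coeff_C_mul,
    coeff_X_add_C_pow, coeff_X_add_C_pow, coeff_monomial, one_pow]
  by_cases h : v = m
  · rw [if_pos h, if_pos h.symm]
    ring
  · rw [if_neg h, if_neg (fun h' => h h'.symm)]
    ring

private theorem tdCoeff (P : ℚ[X]) (n : ℕ) (hn : P.natDegree < n) (v : ℕ) :
    (dd P).coeff v = ∑ m ∈ Finset.range n, P.coeff m * td m v := by
  conv_lhs => rw [P.as_sum_range' n hn]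
  rw [tdSum, finsetSum_coeff]
  exact Finset.sum_congr rfl fun m _ => tdMono m _ v

private theorem td_even (w l : ℕ) (hl : 1 ≤ l) :
    td (w + 2 * l) w = 2 * ((w + 2 * l).choose (2 * l) : ℚ) := by
  unfold td
  rw [if_neg (by omega), Nat.add_sub_cancel_left, ← Nat.choose_symm_add, pow_mul, neg_one_sq,
    one_pow]
  norm_num

private theorem td_zero (m w : ℕ) (h : ∀ l, 1 ≤ l → m ≠ w + 2 * l) : td m w = 0 := by
  unfold td
  rcases lt_trichotomy m w with h1 | h1 | h1
  · rw [Nat.choose_eq_zero_of_lt h1, if_neg (by omega)]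
    simp
  · rw [h1, Nat.sub_self, pow_zero, Nat.choose_self, if_pos rfl]
    norm_num
  · rw [if_neg (by omega)]
    rcases Nat.even_or_odd (m - w) with h2 | h2
    · obtain ⟨l, hl⟩ := h2
      exact absurd (by omega : m = w + 2 * l) (h l (by omega))
    · rw [h2.neg_one_pow]
      simp

theorem dd_coeff (P : ℚ[X]) (w : ℕ) : (dd P).coeff w =
    ∑ l ∈ Finset.Icc 1 P.natDegree, 2 * ((w + 2 * l).choose (2 * l) : ℚ) * P.coeff (w + 2 * l) := by
  classical
  rw [tdCoeff P (P.natDegree + w + 2 * P.natDegree + 1) (by omega)]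
  have himg : (Finset.Icc 1 P.natDegree).image (fun l => w + 2 * l) ⊆
      Finset.range (P.natDegree + w + 2 * P.natDegree + 1) := by
    intro m hm
    obtain ⟨l, hl, rfl⟩ := Finset.mem_image.1 hm
    rw [Finset.mem_Icc] at hl
    rw [Finset.mem_range]
    omega
  rw [← Finset.sum_subset himg, Finset.sum_image]
  · refine Finset.sum_congr rfl fun l hl => ?_
    rw [td_even w l (Finset.mem_Icc.1 hl).1]
    ring
  · intro a _ b _ hab
    have hab' : w + 2 * a = w + 2 * b := hab
    omega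
  · intro m _ hm
    by_cases h1 : P.natDegree < m
    · rw [coeff_eq_zero_of_natDegree_lt h1, zero_mul]
    · rw [td_zero m w, mul_zero]
      intro l hl hml
      apply hm
      rw [Finset.mem_image]
      exact ⟨l, Finset.mem_Icc.2 ⟨hl, by omega⟩, hml.symm⟩

theorem cc_nonneg (j k : ℕ) : 0 ≤ cc j k := by
  unfold cc
  exact Finset.sum_nonneg fun h _ => mul_nonneg (Nat.cast_nonneg _) (tau_nonneg j h)

theorem cc_zero {j k : ℕ} (h : j + 2 < 2 * k) : cc j k = 0 := by
  unfold cc
  refine Finset.sum_eq_zero fun i hi => ?_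
  rw [Finset.mem_range] at hi
  rw [Nat.choose_eq_zero_of_lt (by omega), Nat.cast_zero, zero_mul]

private theorem cp_top {j v : ℕ} (hj : 1 ≤ j) (h : j + 2 < v) : (cp (2 * j)).coeff v = 0 := by
  by_contra h1
  obtain ⟨g, hg⟩ := cp_supp (by omega) h1
  omega

private theorem cc_zero_left (k : ℕ) : cc 0 k = 0 := by
  unfold cc
  refine Finset.sum_eq_zero fun i _ => ?_
  unfold tau
  simp

/-- the coefficients of the second differences -/
private theorem dd_cp {j k w : ℕ} (hj : 1 ≤ j) (hw : w + 2 * k = j + 2) :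
    (((dd (cp (2 * j))).coeff w : ℚ) : ℝ) * (6 * j) = 2 * cc j k := by
  obtain ⟨F, hF⟩ : ∃ F : ℕ → ℝ, ∀ l, F l = 2 * ((w + 2 * l).choose (2 * l) : ℝ) *
      (((cp (2 * j)).coeff (w + 2 * l) : ℚ) : ℝ) := ⟨_, fun _ => rfl⟩
  have h1 : (((dd (cp (2 * j))).coeff w : ℚ) : ℝ) =
      ∑ l ∈ Finset.Icc 1 (cp (2 * j)).natDegree, F l := by
    rw [dd_coeff]
    push_cast
    exact Finset.sum_congr rfl fun l _ => (hF l).symm
  have hz1 : ∀ l, (cp (2 * j)).natDegree < l → F l = 0 := by
    intro l hl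
    rw [hF, coeff_eq_zero_of_natDegree_lt (by omega)]
    simp
  have hz2 : ∀ l, k < l → F l = 0 := by
    intro l hl
    rw [hF, cp_top hj (by omega)]
    simp
  have h2 : ∑ l ∈ Finset.Icc 1 (cp (2 * j)).natDegree, F l = ∑ l ∈ Finset.Icc 1 k, F l := by
    have e1 : ∑ l ∈ Finset.Icc 1 (cp (2 * j)).natDegree, F l =
        ∑ l ∈ Finset.Icc 1 ((cp (2 * j)).natDegree + k), F l := by
      refine Finset.sum_subset (Finset.Icc_subset_Icc_right (by omega)) ?_
      intro l hl hl'
      rw [Finset.mem_Icc] at hl hl'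
      exact hz1 l (by omega)
    have e2 : ∑ l ∈ Finset.Icc 1 k, F l =
        ∑ l ∈ Finset.Icc 1 ((cp (2 * j)).natDegree + k), F l := by
      refine Finset.sum_subset (Finset.Icc_subset_Icc_right (by omega)) ?_
      intro l hl hl'
      rw [Finset.mem_Icc] at hl hl'
      exact hz2 l (by omega)
    rw [e1, e2]
  have h3 : ∑ l ∈ Finset.Icc 1 k, F l = ∑ h ∈ Finset.range k, F (k - h) := by
    refine Finset.sum_nbij' (fun l => k - l) (fun h => k - h) ?_ ?_ ?_ ?_ ?_
    · intro l hl
      rw [Finset.mem_Icc] at hl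
      rw [Finset.mem_range]
      omega
    · intro l hl
      rw [Finset.mem_range] at hl
      rw [Finset.mem_Icc]
      omega
    · intro l hl
      rw [Finset.mem_Icc] at hl
      show k - (k - l) = l
      omega
    · intro l hl
      rw [Finset.mem_range] at hl
      show k - (k - l) = l
      omega
    · intro l hl
      rw [Finset.mem_Icc] at hl
      show F l = F (k - (k - l))
      rw [show k - (k - l) = l by omega]
  rw [h1, h2, h3]
  unfold cc
  rw [Finset.sum_mul, Finset.mul_sum]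
  refine Finset.sum_congr rfl fun h hh => ?_
  rw [Finset.mem_range] at hh
  rw [hF, show w + 2 * (k - h) = j + 2 - 2 * h by omega, ← tau_coeff j h hj (by omega)]
  ring

/-- the second factor -/
private theorem bco {j k w : ℕ} (hw : w + 2 * k = j + 2) :
    (((C (((2 * j : ℕ) : ℚ) * 3 ^ (2 * j)) * dd (cp (2 * j))).coeff w : ℚ) : ℝ) =
      2 / 3 * 3 ^ (2 * j) * cc j k := by
  rw [coeff_C_mul]
  rcases Nat.eq_zero_or_pos j with h0 | h0
  · rw [h0, cc_zero_left]
    simp
  · have h1 := dd_cp h0 hw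
    push_cast
    linear_combination (1 / 3 * (3 : ℝ) ^ (2 * j)) * h1

private theorem bsupp {j' w : ℕ}
    (h : (((C ((j' : ℚ) * 3 ^ j') * dd (cp j')).coeff w : ℚ) : ℝ) ≠ 0) :
    ∃ j k, j' = 2 * j ∧ w + 2 * k = j + 2 := by
  rw [coeff_C_mul] at h
  rcases Nat.eq_zero_or_pos j' with h0 | h0
  · exfalso
    apply h
    rw [h0]
    simp
  · have h1 : (dd (cp j')).coeff w ≠ 0 := by
      intro h2
      apply h
      rw [h2]
      simp
    rw [dd_coeff] at h1
    obtain ⟨l, -, hl⟩ := Finset.exists_ne_zero_of_sum_ne_zero h1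
    obtain ⟨g, hg⟩ := cp_supp h0 (right_ne_zero_of_mul hl)
    exact ⟨w + 2 * l + 2 * g - 2, l + g, by omega, by omega⟩

private theorem asupp {i' v : ℕ} (h : (((ph i').coeff v : ℚ) : ℝ) ≠ 0) :
    ∃ i k, i' = 2 * i ∧ v + 2 * k = i + 1 := by
  have h1 : (ph i').coeff v ≠ 0 := by
    intro h2
    apply h
    rw [h2]
    simp
  obtain ⟨g, hg⟩ := ph_supp h1
  exact ⟨v + 2 * g - 1, g, by omega, by omega⟩

private theorem aco {i k v : ℕ} (hv : v + 2 * k = i + 1) :
    (((ph (2 * i)).coeff v : ℚ) : ℝ) = 2 * 3 ^ (2 * i) * TT i k := by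
  rw [← ph_coeff i k (by omega), show i + 1 - 2 * k = v by omega]

theorem toda_TT (n g : ℕ) : ((n : ℝ) + 1) * TT (n + 1) g =
    1 / 3 * ∑ p ∈ Finset.HasAntidiagonal.antidiagonal (n + 1),
      ∑ q ∈ Finset.HasAntidiagonal.antidiagonal (g + 1), TT p.1 q.1 * cc p.2 q.2 := by
  by_cases hg : 2 * g ≤ n + 2
  · have hco := congrArg (fun P : ℚ[X] => ((P.coeff (n + 2 - 2 * g) : ℚ) : ℝ)) (toda_poly (2 * n))
    rw [coeff_C_mul, finsetSum_coeff] at hco
    simp only [coeff_mul (ph _)] at hco
    push_cast at hco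
    have e1 : (((ph (2 * n + 2)).coeff (n + 2 - 2 * g) : ℚ) : ℝ) =
        2 * 3 ^ (2 * (n + 1)) * TT (n + 1) g :=
      aco (i := n + 1) (k := g) (v := n + 2 - 2 * g) (by omega)
    rw [e1] at hco
    rw [← Finset.sum_product'] at hco ⊢
    have key : ∑ x ∈ Finset.HasAntidiagonal.antidiagonal (n + 1) ×ˢ
          Finset.HasAntidiagonal.antidiagonal (g + 1),
          4 / 3 * 3 ^ (2 * (n + 1)) * (TT x.1.1 x.2.1 * cc x.1.2 x.2.2) =
        ∑ x ∈ Finset.HasAntidiagonal.antidiagonal (2 * n + 2) ×ˢ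
          Finset.HasAntidiagonal.antidiagonal (n + 2 - 2 * g),
          (((ph x.1.1).coeff x.2.1 : ℚ) : ℝ) *
          (((C ((x.1.2 : ℚ) * 3 ^ x.1.2) * dd (cp x.1.2)).coeff x.2.2 : ℚ) : ℝ) := by
      have hval : ∀ p q : ℕ × ℕ, p.1 + p.2 = n + 1 → 2 * q.1 ≤ p.1 + 1 → 2 * q.2 ≤ p.2 + 2 →
          4 / 3 * 3 ^ (2 * (n + 1)) * (TT p.1 q.1 * cc p.2 q.2) =
          (((ph (2 * p.1)).coeff (p.1 + 1 - 2 * q.1) : ℚ) : ℝ) *
          (((C (((2 * p.2 : ℕ) : ℚ) * 3 ^ (2 * p.2)) * dd (cp (2 * p.2))).coeff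
            (p.2 + 2 - 2 * q.2) : ℚ) : ℝ) := by
        intro p q hp h1 h2
        rw [aco (i := p.1) (k := q.1) (by omega), bco (j := p.2) (k := q.2) (by omega), ← hp,
          mul_add 2 p.1 p.2, pow_add]
        ring
      refine Finset.sum_bij_ne_zero (fun x _ _ => ((2 * x.1.1, 2 * x.1.2),
        (x.1.1 + 1 - 2 * x.2.1, x.1.2 + 2 - 2 * x.2.2))) ?_ ?_ ?_ ?_
      · rintro ⟨p, q⟩ hx hne
        obtain ⟨hp, hq⟩ := Finset.mem_product.1 hx
        rw [Finset.HasAntidiagonal.mem_antidiagonal] at hp hq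
        have hT := left_ne_zero_of_mul (right_ne_zero_of_mul hne)
        have hc := right_ne_zero_of_mul (right_ne_zero_of_mul hne)
        have h1 : ¬ p.1 < 2 * q.1 := fun h => hT (TT_zero h)
        have h2 : ¬ p.2 + 2 < 2 * q.2 := fun h => hc (cc_zero h)
        rw [Finset.mem_product]
        constructor
        · rw [Finset.HasAntidiagonal.mem_antidiagonal]
          simp only at hp ⊢
          omega
        · rw [Finset.HasAntidiagonal.mem_antidiagonal]
          simp only at hp hq ⊢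
          omega
      · rintro ⟨p, q⟩ hx hne ⟨p', q'⟩ hx' hne' heq
        obtain ⟨hp, hq⟩ := Finset.mem_product.1 hx
        obtain ⟨hp', hq'⟩ := Finset.mem_product.1 hx'
        rw [Finset.HasAntidiagonal.mem_antidiagonal] at hp hq hp' hq'
        have hT := left_ne_zero_of_mul (right_ne_zero_of_mul hne)
        have hT' := left_ne_zero_of_mul (right_ne_zero_of_mul hne')
        have h1 : ¬ p.1 < 2 * q.1 := fun h => hT (TT_zero h)
        have h1' : ¬ p'.1 < 2 * q'.1 := fun h => hT' (TT_zero h)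
        simp only [Prod.mk.injEq] at heq
        simp only at hp hq hp' hq'
        obtain ⟨⟨a1, a2⟩, ⟨a3, a4⟩⟩ := heq
        refine Prod.ext (Prod.ext ?_ ?_) (Prod.ext ?_ ?_)
        · show p.1 = p'.1
          omega
        · show p.2 = p'.2
          omega
        · show q.1 = q'.1
          omega
        · show q.2 = q'.2
          omega
      · rintro ⟨P, Q⟩ hx hne
        obtain ⟨hP, hQ⟩ := Finset.mem_product.1 hx
        rw [Finset.HasAntidiagonal.mem_antidiagonal] at hP hQ
        obtain ⟨i, h, hi, hh⟩ := asupp (left_ne_zero_of_mul hne)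
        obtain ⟨j, k, hj, hk⟩ := bsupp (right_ne_zero_of_mul hne)
        simp only at hP hQ hi hj hh hk hne
        have hv := hval (i, j) (h, k) (by simp only; omega) (by simp only; omega)
          (by simp only; omega)
        simp only at hv
        refine ⟨((i, j), (h, k)), ?_, ?_, ?_⟩
        · rw [Finset.mem_product]
          constructor
          · rw [Finset.HasAntidiagonal.mem_antidiagonal]
            simp only
            omega
          · rw [Finset.HasAntidiagonal.mem_antidiagonal]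
            simp only
            omega
        · show 4 / 3 * 3 ^ (2 * (n + 1)) * (TT i h * cc j k) ≠ 0
          rw [hv, ← hi, ← hj, show i + 1 - 2 * h = Q.1 by omega,
            show j + 2 - 2 * k = Q.2 by omega]
          exact hne
        · refine Prod.ext (Prod.ext ?_ ?_) (Prod.ext ?_ ?_)
          · exact hi.symm
          · exact hj.symm
          · show i + 1 - 2 * h = Q.1
            omega
          · show j + 2 - 2 * k = Q.2
            omega
      · rintro ⟨p, q⟩ hx hne
        obtain ⟨hp, hq⟩ := Finset.mem_product.1 hx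
        rw [Finset.HasAntidiagonal.mem_antidiagonal] at hp hq
        have hT := left_ne_zero_of_mul (right_ne_zero_of_mul hne)
        have hc := right_ne_zero_of_mul (right_ne_zero_of_mul hne)
        have h1 : ¬ p.1 < 2 * q.1 := fun h => hT (TT_zero h)
        have h2 : ¬ p.2 + 2 < 2 * q.2 := fun h => hc (cc_zero h)
        exact hval p q hp (by omega) (by omega)
    rw [← Finset.mul_sum] at key
    have h3 : (3 : ℝ) ^ (2 * (n + 1)) ≠ 0 := by positivity
    have hfin : (2 * (n : ℝ) + 2) * (2 * 3 ^ (2 * (n + 1)) * TT (n + 1) g) =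
        4 / 3 * 3 ^ (2 * (n + 1)) * ∑ x ∈ Finset.HasAntidiagonal.antidiagonal (n + 1) ×ˢ
          Finset.HasAntidiagonal.antidiagonal (g + 1), TT x.1.1 x.2.1 * cc x.1.2 x.2.2 := by
      rw [key]
      exact hco
    have hfin2 : (3 : ℝ) ^ (2 * (n + 1)) * (((n : ℝ) + 1) * TT (n + 1) g) =
        (3 : ℝ) ^ (2 * (n + 1)) * (1 / 3 * ∑ x ∈ Finset.HasAntidiagonal.antidiagonal (n + 1) ×ˢ
          Finset.HasAntidiagonal.antidiagonal (g + 1), TT x.1.1 x.2.1 * cc x.1.2 x.2.2) := by
      linear_combination (1 / 4) * hfin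
    exact mul_left_cancel₀ h3 hfin2
  · rw [TT_zero (by omega), mul_zero, Finset.sum_eq_zero, mul_zero]
    intro p hp
    rw [Finset.HasAntidiagonal.mem_antidiagonal] at hp
    refine Finset.sum_eq_zero ?_
    intro q hq
    rw [Finset.HasAntidiagonal.mem_antidiagonal] at hq
    by_cases h1 : p.1 < 2 * q.1
    · rw [TT_zero h1, zero_mul]
    · rw [cc_zero (by omega), mul_zero]

end SYS.A
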