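import Pool.Agent.SYS.A.TrA
import Pool.Agent.SYS.A.CgrB

/-!
# SYS-A-Tr: the matrix integral counts all gluings

PROOF. As in `SST/T/Trace.lean` (`W_trace`; `Trace_count` and `Trace_const` there are private, copy them): `FW N (∏ i, X (p i)) = W N (∏ i, ((HH N) ^ p i).trace)`; by `trace_pow` the product is
`N ^ #{i // p i = 0} * ∑ c : Dt p → Fin N, ∏ d, X (c d, c (rot p d))` (`Finset.prod_univ_sum`, `Fintype.piFinset`, `Equiv.piCurry`), apply `SST.T.wick` with `S = univ` (`Inv univ` is the set of the gluings), exchange the sums, and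
`∑ c, ∏ x, [c x = c (σ x)] = N ^ cyc σ` for the permutation `σ` of the proof (`rot p * α` or a conjugate of it, the same number of cycles). `totM_eval`: `tot_eval` for `fam P`, `fam_map`.
-/

namespace SYS.A

open MvPolynomial

private theorem Tr_const {D : Type} {N : ℕ} {σ : Equiv.Perm D} {c : D → Fin N}
    (h : ∀ x, c x = c (σ x)) {u v : D} (huv : σ.SameCycle u v) : c u = c v := by
  have hnat : ∀ (n : ℕ) (u : D), c u = c ((σ ^ n) u) := by
    intro n
    induction n with
    | zero => intro u; rfl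
    | succ n ih =>
      intro u
      rw [pow_succ', Equiv.Perm.mul_apply, ← h]
      exact ih u
  obtain ⟨n, hn⟩ := huv
  rcases Int.eq_nat_or_neg n with ⟨m, rfl | rfl⟩
  · rw [zpow_natCast] at hn
    rw [← hn]
    exact hnat m u
  · have h1 : u = (σ ^ m) v := by
      rw [zpow_neg, zpow_natCast, Equiv.Perm.inv_eq_iff_eq] at hn
      exact hn
    rw [h1]
    exact (hnat m v).symm

private theorem Tr_count {D : Type} [Fintype D] [DecidableEq D] (N : ℕ) (σ : Equiv.Perm D) :
    ∑ c : D → Fin N, ∏ x, (if c x = c (σ x) then (1 : ℚ) else 0) = (N : ℚ) ^ SST.T.cyc σ := by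
  classical
  have h1 : ∀ c : D → Fin N, ∏ x, (if c x = c (σ x) then (1 : ℚ) else 0) =
      if ∀ x, c x = c (σ x) then (1 : ℚ) else 0 := by
    intro c
    by_cases h : ∀ x, c x = c (σ x)
    · rw [if_pos h]
      exact Finset.prod_eq_one fun x _ => if_pos (h x)
    · rw [if_neg h]
      obtain ⟨x, hx⟩ := not_forall.1 h
      exact Finset.prod_eq_zero (Finset.mem_univ x) (if_neg hx)
  rw [Finset.sum_congr rfl fun c _ => h1 c, Finset.sum_boole]
  have h2 : (Finset.univ.filter fun c : D → Fin N => ∀ x, c x = c (σ x)).card =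
      Nat.card {c : D → Fin N // ∀ x, c x = c (σ x)} := by
    rw [Nat.card_eq_fintype_card, Fintype.card_subtype]
  let e : {c : D → Fin N // ∀ x, c x = c (σ x)} ≃
      (Quotient (Equiv.Perm.SameCycle.setoid σ) → Fin N) :=
    { toFun := fun c => Quotient.lift c.1 fun _ _ h => Tr_const c.2 h
      invFun := fun g => ⟨fun x => g (Quotient.mk _ x), fun x =>
        congrArg g (Quotient.sound ⟨1, by rw [zpow_one]⟩)⟩
      left_inv := fun c => Subtype.ext (funext fun _ => rfl)
      right_inv := fun g => by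
        funext q
        induction q using Quotient.inductionOn with
        | h a => rfl }
  rw [h2, Nat.card_congr e, Nat.card_fun, Nat.card_eq_fintype_card, Fintype.card_fin]
  rw [Nat.cast_pow]
  rfl

private theorem Tr_prod {ι : Type} [Fintype ι] [DecidableEq ι] (p : ι → ℕ) (N : ℕ) :
    ∏ i, ((SST.T.HH N) ^ (p i)).trace = ((N : ℚ) ^ Nat.card {i // p i = 0}) •
      ∑ c : Dt p → Fin N, ∏ d, (X (c d, c (rot p d)) : MvPolynomial (Fin N × Fin N) ℚ) := by
  classical
  rw [Finset.prod_congr rfl fun i _ => trace_pow N (p i), Finset.prod_mul_distrib, Finset.prod_univ_sum,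
    Fintype.piFinset_univ, MvPolynomial.smul_eq_C_mul, map_pow, map_natCast]
  congr 1
  · rw [Finset.prod_ite, Finset.prod_const, Finset.prod_const_one, mul_one, Nat.card_eq_fintype_card,
      Fintype.card_subtype]
  · refine (Fintype.sum_equiv (Equiv.piCurry fun (i : ι) (_ : Fin (p i)) => Fin N) _ _ fun c => ?_).symm
    rw [Fintype.prod_sigma]
    rfl

theorem tot_eval {ι : Type} [Fintype ι] (p : ι → ℕ) (N : ℕ) :
    (tot p).eval (N : ℚ) = SST.T.FW N (∏ i, (X (p i) : SST.T.Lam)) := by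
  classical
  have h0 : SST.T.FW N (∏ i, (X (p i) : SST.T.Lam)) = SST.T.W N (∏ i, ((SST.T.HH N) ^ (p i)).trace) := by
    unfold SST.T.FW
    rw [LinearMap.comp_apply, AlgHom.toLinearMap_apply, map_prod]
    simp only [aeval_X]
  have h2 : ∀ c : Dt p → Fin N, SST.T.W N (∏ d, X (c d, c (rot p d))) =
      ∑ α ∈ SST.T.Inv (Finset.univ : Finset (Dt p)),
        ∏ x, (if c x = c ((rot p * α) x) then (1 : ℚ) else 0) := fun c =>
    SST.T.wick N c (fun x => c (rot p x)) Finset.univ
  rw [h0, Tr_prod, map_smul, map_sum, Finset.sum_congr rfl fun c _ => h2 c, Finset.sum_comm,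
    Finset.sum_congr rfl fun α _ => Tr_count N (rot p * α), smul_eq_mul, Finset.mul_sum]
  let _ : Fintype (Glu (Dt p)) := Fintype.ofFinite _
  unfold tot
  rw [finsum_eq_sum_of_fintype, Polynomial.eval_finsetSum]
  have hmem : ∀ α : Equiv.Perm (Dt p), α ∈ SST.T.Inv (Finset.univ : Finset (Dt p)) ↔
      ((∀ d, α (α d) = d) ∧ ∀ d, α d ≠ d) := by
    intro α
    unfold SST.T.Inv
    rw [Finset.mem_filter]
    constructor
    · rintro ⟨-, h3, h4⟩
      exact ⟨h3, fun d => (h4 d).mpr (Finset.mem_univ d)⟩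
    · rintro ⟨h3, h4⟩
      exact ⟨Finset.mem_univ _, h3, fun d => ⟨fun _ => Finset.mem_univ d, fun _ => h4 d⟩⟩
  let _ : Fintype {α : Equiv.Perm (Dt p) // (∀ d, α (α d) = d) ∧ ∀ d, α d ≠ d} :=
    (inferInstance : Fintype (Glu (Dt p)))
  rw [Finset.sum_subtype (SST.T.Inv (Finset.univ : Finset (Dt p))) hmem]
  refine Finset.sum_congr rfl fun α _ => ?_
  rw [Polynomial.eval_pow, Polynomial.eval_X]
  unfold vn
  rw [pow_add, mul_comm]

theorem totM_eval (P : Multiset ℕ) (N : ℕ) :
    (totM P).eval (N : ℚ) = SST.T.FW N ((P.map fun k => (X k : SST.T.Lam)).prod) := by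
  unfold totM
  rw [tot_eval]
  congr 1
  conv_rhs => rw [← fam_map P]
  rw [Multiset.map_map]
  rfl

end SYS.A
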