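import Pool.Agent.SYS.A.Defs

/-!
# SYS-A-TrA: the trace of a power of the generic matrix

The trace of a power of a matrix is the sum over the closed walks.
-/

namespace SYS.A

open MvPolynomial

private theorem TrA_entry {R : Type*} [CommRing R] {N : ℕ} (M : Matrix (Fin N) (Fin N) R) (k : ℕ) :
    ∀ i j : Fin N, (M ^ k) i j = ∑ c : Fin k → Fin N,
      if (Fin.cons i c : Fin (k + 1) → Fin N) (Fin.last k) = j then
        ∏ x : Fin k, M ((Fin.cons i c : Fin (k + 1) → Fin N) x.castSucc) (c x) else 0 := by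
  induction k with
  | zero =>
    intro i j
    rw [pow_zero, Matrix.one_apply, Fintype.sum_unique]
    have h : (Fin.cons i (default : Fin 0 → Fin N) : Fin (0 + 1) → Fin N) (Fin.last 0) = i := rfl
    rw [h, Fin.prod_univ_zero]
  | succ k ih =>
    intro i j
    have h1 : (M ^ (k + 1)) i j = ∑ t : Fin N × (Fin k → Fin N),
        (if (Fin.cons i (Fin.cons t.1 t.2 : Fin (k + 1) → Fin N) : Fin (k + 1 + 1) → Fin N) (Fin.last (k + 1)) = j then
        ∏ x : Fin (k + 1), M ((Fin.cons i (Fin.cons t.1 t.2 : Fin (k + 1) → Fin N) : Fin (k + 1 + 1) → Fin N) x.castSucc)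
          ((Fin.cons t.1 t.2 : Fin (k + 1) → Fin N) x) else 0) := by
      rw [pow_succ', Matrix.mul_apply, Fintype.sum_prod_type]
      refine Finset.sum_congr rfl fun l _ => ?_
      rw [ih l j, Finset.mul_sum]
      refine Finset.sum_congr rfl fun c _ => ?_
      have h2 : (Fin.cons i (Fin.cons l c : Fin (k + 1) → Fin N) : Fin (k + 1 + 1) → Fin N) (Fin.last (k + 1)) =
          (Fin.cons l c : Fin (k + 1) → Fin N) (Fin.last k) := by
        rw [← Fin.succ_last, Fin.cons_succ]
      show M i l * _ = if (Fin.cons i (Fin.cons l c : Fin (k + 1) → Fin N) : Fin (k + 1 + 1) → Fin N)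
        (Fin.last (k + 1)) = j then
        ∏ x : Fin (k + 1), M ((Fin.cons i (Fin.cons l c : Fin (k + 1) → Fin N) : Fin (k + 1 + 1) → Fin N) x.castSucc)
          ((Fin.cons l c : Fin (k + 1) → Fin N) x) else 0
      rw [h2, mul_ite, mul_zero, Fin.prod_univ_succ]
      rfl
    rw [h1]
    exact Fintype.sum_equiv (Fin.consEquiv fun _ => Fin N) _ _ fun t => rfl

private theorem TrA_trace {R : Type*} [CommRing R] {N : ℕ} (M : Matrix (Fin N) (Fin N) R) (m : ℕ) :
    (M ^ (m + 1)).trace = ∑ c : Fin (m + 1) → Fin N, ∏ j, M (c j) (c (finRotate (m + 1) j)) := by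
  have h1 : (M ^ (m + 1)).trace = ∑ i : Fin N, ∑ c : Fin (m + 1) → Fin N,
      if c (Fin.last m) = i then
        ∏ x : Fin (m + 1), M ((Fin.cons i c : Fin (m + 1 + 1) → Fin N) x.castSucc) (c x) else 0 := by
    unfold Matrix.trace
    refine Finset.sum_congr rfl fun i _ => ?_
    rw [Matrix.diag_apply, TrA_entry]
    refine Finset.sum_congr rfl fun c _ => ?_
    rw [← Fin.succ_last, Fin.cons_succ]
  rw [h1, Finset.sum_comm]
  refine Finset.sum_congr rfl fun c _ => ?_
  rw [Finset.sum_ite_eq, if_pos (Finset.mem_univ _)]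
  rw [← Equiv.prod_comp (finRotate (m + 1))]
  refine Finset.prod_congr rfl fun y _ => ?_
  congr 1
  induction y using Fin.lastCases with
  | last =>
    rw [finRotate_last]
    rfl
  | cast z =>
    rw [finRotate_apply, Fin.coeSucc_eq_succ, ← Fin.succ_castSucc, Fin.cons_succ]

theorem trace_pow (N k : ℕ) :
    ((SST.T.HH N) ^ k).trace = (if k = 0 then (N : MvPolynomial (Fin N × Fin N) ℚ) else 1) *
      ∑ c : Fin k → Fin N, ∏ j, X (c j, c (finRotate k j)) := by
  cases k with
  | zero =>
    rw [pow_zero, Matrix.trace_one, if_pos rfl, Fintype.sum_unique, Fin.prod_univ_zero, mul_one, Fintype.card_fin]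
  | succ m =>
    rw [if_neg (Nat.succ_ne_zero m), one_mul, TrA_trace]
    rfl

end SYS.A
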