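import Pool.Agent.SYS.A.Tr

/-!
# SYS-A-TutA: the loop equations for all gluings

PROOF. `totM_eval` and the loop equations `SST.T.loop_W` with `Q = (P.map X).prod`; `DL r` of this product is `∑_{q ∈ P} q • X (q - 1 + r) * ((P.erase q).map X).prod` (induction on `P`, Leibniz, `MvPolynomial.mkDerivation_X`). Both sides are polynomials in
`N` with the same values at all natural numbers (`Polynomial.eq_of_infinite_eval_eq`).
-/

namespace SYS.A

open Polynomial

private noncomputable def mon (P : Multiset ℕ) : SST.T.Lam :=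
  (P.map fun k => (MvPolynomial.X k : SST.T.Lam)).prod

private theorem mon_cons (a : ℕ) (P : Multiset ℕ) :
    mon (a ::ₘ P) = MvPolynomial.X a * mon P := by
  unfold mon
  rw [Multiset.map_cons, Multiset.prod_cons]

private theorem DL_mon (r : ℕ) (P : Multiset ℕ) :
    SST.T.DL r (mon P) =
      (P.map fun q : ℕ => (q : ℚ) • (MvPolynomial.X (q - 1 + r) * mon (P.erase q))).sum := by
  induction P using Multiset.induction_on with
  | empty =>
    unfold mon
    rw [Multiset.map_zero, Multiset.prod_zero, Multiset.map_zero, Multiset.sum_zero]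
    exact Derivation.map_one_eq_zero _
  | cons a P ih =>
    rw [mon_cons, Derivation.leibniz, ih, Multiset.map_cons, Multiset.sum_cons,
      Multiset.erase_cons_head]
    have h1 : SST.T.DL r (MvPolynomial.X a) =
        (a : ℚ) • (MvPolynomial.X (a - 1 + r) : SST.T.Lam) := by
      unfold SST.T.DL
      exact MvPolynomial.mkDerivation_X _ _ _
    rw [h1, add_comm]
    congr 1
    · rw [smul_eq_mul, mul_smul_comm, mul_comm]
    · rw [smul_eq_mul, ← Multiset.sum_map_mul_left]
      refine congrArg Multiset.sum (Multiset.map_congr rfl fun q hq => ?_)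
      rw [Multiset.erase_cons_tail_of_mem hq, mon_cons, mul_smul_comm]
      congr 1
      ring

private theorem ev_mon (P : Multiset ℕ) (N : ℕ) :
    (totM P).eval (N : ℚ) = SST.T.FW N (mon P) := totM_eval P N

private theorem nat_ext {A B : ℚ[X]} (h : ∀ N : ℕ, A.eval (N : ℚ) = B.eval (N : ℚ)) : A = B := by
  refine Polynomial.eq_of_infinite_eval_eq A B ?_
  refine (Set.infinite_range_of_injective (Nat.cast_injective (R := ℚ))).mono ?_
  rintro _ ⟨N, rfl⟩
  exact h N

private theorem eval_msum (N : ℚ) (M : Multiset ℚ[X]) :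
    M.sum.eval N = (M.map fun A => A.eval N).sum := by
  induction M using Multiset.induction_on with
  | empty => simp
  | cons a M ih => rw [Multiset.sum_cons, Polynomial.eval_add, ih, Multiset.map_cons,
      Multiset.sum_cons]

private theorem FW_msum (N : ℕ) (M : Multiset SST.T.Lam) :
    SST.T.FW N M.sum = (M.map fun A => SST.T.FW N A).sum := by
  exact map_multiset_sum (SST.T.FW N) M

theorem totM_tutte (m : ℕ) (P : Multiset ℕ) : totM ((m + 2) ::ₘ P) =
    ∑ x ∈ Finset.HasAntidiagonal.antidiagonal m, totM (x.1 ::ₘ x.2 ::ₘ P) +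
      (P.map fun q : ℕ => C (q : ℚ) * totM ((q + m) ::ₘ P.erase q)).sum := by
  refine nat_ext fun N => ?_
  rw [ev_mon, mon_cons, (SST.T.loop_W N).2.2 m (mon P), Polynomial.eval_add]
  congr 1
  · rw [Polynomial.eval_finsetSum, Finset.Nat.sum_antidiagonal_eq_sum_range_succ_mk]
    refine Finset.sum_congr rfl fun a _ => ?_
    rw [ev_mon, mon_cons, mon_cons, mul_assoc]
  · rw [DL_mon, FW_msum, eval_msum, Multiset.map_map, Multiset.map_map]
    refine congrArg Multiset.sum (Multiset.map_congr rfl fun q _ => ?_)
    simp only [Function.comp_apply]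
    rw [Polynomial.eval_mul, Polynomial.eval_C, ev_mon, mon_cons, LinearMap.map_smul, smul_eq_mul]
    rcases Nat.eq_zero_or_pos q with rfl | hq
    · simp
    · rw [show q - 1 + (m + 1) = q + m by omega]

theorem totM_one (P : Multiset ℕ) : totM (1 ::ₘ P) =
    (P.map fun q : ℕ => C (q : ℚ) * totM ((q - 1) ::ₘ P.erase q)).sum := by
  refine nat_ext fun N => ?_
  rw [ev_mon, mon_cons, (SST.T.loop_W N).2.1 (mon P)]
  rw [DL_mon, FW_msum, eval_msum, Multiset.map_map, Multiset.map_map]
  refine congrArg Multiset.sum (Multiset.map_congr rfl fun q _ => ?_)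
  simp only [Function.comp_apply]
  rw [Polynomial.eval_mul, Polynomial.eval_C, ev_mon, mon_cons, LinearMap.map_smul, smul_eq_mul]
  rfl

theorem totM_cons_zero (P : Multiset ℕ) : totM (0 ::ₘ P) = X * totM P := by
  refine nat_ext fun N => ?_
  rw [ev_mon, mon_cons, (SST.T.loop_W N).1 (mon P), Polynomial.eval_mul, Polynomial.eval_X, ev_mon]

end SYS.A
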