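import Pool.Agent.SYS.A.Cf
import Pool.Agent.SYS.A.TutA
import Pool.Agent.SYS.A.DecM

/-!
# SYS-A-TutM: Tutte's equation for connected gluings

PROOF. For every `N` let `w = mk (fun P => (totM P).eval N)`, `F k = mk (fun P => (conM (k ::ₘ P)).eval N)` in `Sr`. `totM_cons` says `pderiv k w = F k * w` (`cf_ext`, `cf_cons`, `cf_mul`, `cf_mk`, `conv_map` with the evaluation), and
`w` is a unit (`MvPowerSeries.isUnit_iff_constantCoeff`, constant coefficient `cf w 0 = 1`: `totM_zero`). `tutte_conM`: let `r = mk (value of the right side at P)`. Then `cf (r * w) P` is: for the first terms `(pderiv a (F b) + F a * F b) * w = pderiv a (pderiv b w)`,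
i.e. `totM (a ::ₘ b ::ₘ P)`; for the last sum `conv_erase` and `totM_cons`: `∑_{q ∈ P} q totM ((q + m) ::ₘ P.erase q)`; so `cf (r * w) P = totM ((m + 2) ::ₘ P)` at `N` by `totM_tutte`, i.e. `r * w = pderiv (m+2) w = F (m+2) * w`, and `r = F (m + 2)`. Polynomials
equal at all `N` are equal. `tutte_one`, `tutte_zero`: the same with `totM_one`, `totM_cons_zero` (`F 0 = mk` of `if P = 0 then N else 0`, i.e. the constant `N`).
-/

namespace SYS.A

open Polynomial

/-- values of the generating polynomials -/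
private noncomputable def TT0 (x : ℚ) (P : Multiset ℕ) : ℚ := (totM P).eval x

private noncomputable def KK0 (x : ℚ) (P : Multiset ℕ) : ℚ := (conM P).eval x

private theorem tt_cons (x : ℚ) (k : ℕ) (P : Multiset ℕ) :
    conv (fun Q => KK0 x (k ::ₘ Q)) (TT0 x) P = TT0 x (k ::ₘ P) := by
  have h := conv_map (Polynomial.evalRingHom x) (fun Q => conM (k ::ₘ Q)) totM P
  rw [← totM_cons] at h
  exact h.symm

private theorem conv_assoc (f g h : Multiset ℕ → ℚ) (P : Multiset ℕ) :
    conv f (conv g h) P = conv (conv f g) h P := by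
  have e1 : ∀ f g : Multiset ℕ → ℚ, cf (mk f * mk g) = conv f g := by
    intro f g
    funext Q
    rw [cf_mul]
    congr 1
    · funext R; exact cf_mk f R
    · funext R; exact cf_mk g R
  have e2 : ∀ f : Multiset ℕ → ℚ, cf (mk f) = f := fun f => funext fun R => cf_mk f R
  have h1 : cf (mk f * (mk g * mk h)) P = cf (mk f * mk g * mk h) P := by rw [mul_assoc]
  rw [cf_mul, cf_mul, e1, e1, e2, e2] at h1
  exact h1

private theorem cancel (x : ℚ) {f g : Multiset ℕ → ℚ} (h : ∀ P, conv f (TT0 x) P = conv g (TT0 x) P)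
    (P : Multiset ℕ) : f P = g P := by
  have e2 : ∀ f : Multiset ℕ → ℚ, cf (mk f) = f := fun f => funext fun R => cf_mk f R
  have hu : IsUnit (mk (TT0 x)) := by
    rw [MvPowerSeries.isUnit_iff_constantCoeff, ← cf_zero, cf_mk]
    have : TT0 x 0 = 1 := by
      show (totM 0).eval x = 1
      rw [totM_zero, Polynomial.eval_one]
    rw [this]
    exact isUnit_one
  have h1 : mk f * mk (TT0 x) = mk g * mk (TT0 x) := by
    apply cf_ext
    intro Q
    rw [cf_mul, cf_mul, e2, e2, e2]
    exact h Q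
  have h2 := hu.mul_right_cancel h1
  rw [← cf_mk f P, h2, cf_mk]

private theorem conv_left_add (f f' g : Multiset ℕ → ℚ) (P : Multiset ℕ) :
    conv (fun Q => f Q + f' Q) g P = conv f g P + conv f' g P := by
  rw [conv_comm, conv_add_right, conv_comm g f, conv_comm g f']

private theorem conv_left_sum {σ : Type} (s : Finset σ) (F : σ → Multiset ℕ → ℚ) (g : Multiset ℕ → ℚ)
    (P : Multiset ℕ) : conv (fun Q => ∑ i ∈ s, F i Q) g P = ∑ i ∈ s, conv (F i) g P := by
  classical
  induction s using Finset.induction_on with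
  | empty =>
    simp [conv]
  | insert a s ha ih =>
    simp only [Finset.sum_insert ha]
    rw [conv_left_add, ih]

private theorem last_sum (x : ℚ) (s : ℕ → ℕ) (P : Multiset ℕ) :
    conv (fun Q : Multiset ℕ => (Q.map fun q : ℕ => (q : ℚ) * KK0 x (s q ::ₘ Q.erase q)).sum) (TT0 x) P =
      (P.map fun q : ℕ => (q : ℚ) * TT0 x (s q ::ₘ P.erase q)).sum := by
  rw [conv_comm, conv_erase (TT0 x) (fun (q : ℕ) (Q : Multiset ℕ) => (q : ℚ) * KK0 x (s q ::ₘ Q)) P]
  congr 1
  apply Multiset.map_congr rfl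
  intro q _
  rw [conv_mul_right, conv_comm, tt_cons]

private theorem first_sum (x : ℚ) (a b : ℕ) (P : Multiset ℕ) :
    conv (fun Q => KK0 x (a ::ₘ b ::ₘ Q)) (TT0 x) P +
      conv (conv (fun Q => KK0 x (a ::ₘ Q)) (fun Q => KK0 x (b ::ₘ Q))) (TT0 x) P =
      TT0 x (a ::ₘ b ::ₘ P) := by
  rw [← tt_cons x a (b ::ₘ P), conv_cons, ← conv_assoc, add_comm]
  congr 2
  funext Q
  exact tt_cons x b Q

private theorem eval_sum_map (x : ℚ) (P : Multiset ℕ) (s : ℕ → ℕ) (F : Multiset ℕ → ℚ[X]) :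
    ((P.map fun q : ℕ => C (q : ℚ) * F (s q ::ₘ P.erase q)).sum).eval x =
      (P.map fun q : ℕ => (q : ℚ) * (F (s q ::ₘ P.erase q)).eval x).sum := by
  rw [← Polynomial.coe_evalRingHom, map_multiset_sum, Multiset.map_map]
  congr 1
  apply Multiset.map_congr rfl
  intro q _
  rw [Function.comp_apply, Polynomial.coe_evalRingHom, Polynomial.eval_mul, Polynomial.eval_C]

theorem tutte_conM (m : ℕ) (P : Multiset ℕ) : conM ((m + 2) ::ₘ P) =
    ∑ x ∈ Finset.HasAntidiagonal.antidiagonal m, (conM (x.1 ::ₘ x.2 ::ₘ P) +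
      conv (fun Q => conM (x.1 ::ₘ Q)) (fun Q => conM (x.2 ::ₘ Q)) P) +
      (P.map fun q : ℕ => C (q : ℚ) * conM ((q + m) ::ₘ P.erase q)).sum := by
  apply Polynomial.funext
  intro x
  rw [Polynomial.eval_add, Polynomial.eval_finsetSum, eval_sum_map x P (fun q => q + m) conM]
  have h1 : ∀ y : ℕ × ℕ, (conM (y.1 ::ₘ y.2 ::ₘ P) +
      conv (fun Q => conM (y.1 ::ₘ Q)) (fun Q => conM (y.2 ::ₘ Q)) P).eval x =
      KK0 x (y.1 ::ₘ y.2 ::ₘ P) + conv (fun Q => KK0 x (y.1 ::ₘ Q)) (fun Q => KK0 x (y.2 ::ₘ Q)) P := by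
    intro y
    rw [Polynomial.eval_add]
    congr 1
    exact conv_map (Polynomial.evalRingHom x) _ _ P
  rw [Finset.sum_congr rfl fun y _ => h1 y]
  refine cancel x (f := fun P => KK0 x ((m + 2) ::ₘ P)) (g := fun P =>
    ∑ y ∈ Finset.HasAntidiagonal.antidiagonal m, (KK0 x (y.1 ::ₘ y.2 ::ₘ P) +
      conv (fun Q => KK0 x (y.1 ::ₘ Q)) (fun Q => KK0 x (y.2 ::ₘ Q)) P) +
      (P.map fun q : ℕ => (q : ℚ) * KK0 x ((q + m) ::ₘ P.erase q)).sum) (fun P => ?_) P
  rw [tt_cons, conv_left_add, conv_left_sum, last_sum x (fun q => q + m) P]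
  have h2 := congrArg (Polynomial.eval x) (totM_tutte m P)
  rw [Polynomial.eval_add, Polynomial.eval_finsetSum, eval_sum_map x P (fun q => q + m) totM] at h2
  rw [show TT0 x ((m + 2) ::ₘ P) = (totM ((m + 2) ::ₘ P)).eval x from rfl, h2]
  congr 1
  apply Finset.sum_congr rfl
  intro y _
  rw [conv_left_add]
  exact (first_sum x y.1 y.2 P).symm

theorem tutte_one (P : Multiset ℕ) : conM (1 ::ₘ P) =
    (P.map fun q : ℕ => C (q : ℚ) * conM ((q - 1) ::ₘ P.erase q)).sum := by
  apply Polynomial.funext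
  intro x
  rw [eval_sum_map x P (fun q => q - 1) conM]
  refine cancel x (f := fun P => KK0 x (1 ::ₘ P)) (g := fun P =>
      (P.map fun q : ℕ => (q : ℚ) * KK0 x ((q - 1) ::ₘ P.erase q)).sum) (fun P => ?_) P
  rw [tt_cons, last_sum x (fun q => q - 1) P]
  have h2 := congrArg (Polynomial.eval x) (totM_one P)
  rw [eval_sum_map x P (fun q => q - 1) totM] at h2
  exact h2

private theorem conv_delta (a : ℚ) (P : Multiset ℕ) : ∀ g : Multiset ℕ → ℚ,
    conv (fun Q => if Q = 0 then a else 0) g P = a * g P := by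
  induction P using Multiset.induction_on with
  | empty => intro g; rw [conv_zero, if_pos rfl]
  | cons k P ih =>
    intro g
    rw [conv_cons, ih]
    have h0 : (fun Q : Multiset ℕ => if k ::ₘ Q = 0 then a else 0) = fun _ => 0 := by
      funext Q
      rw [if_neg (Multiset.cons_ne_zero)]
    rw [h0]
    have h1 : conv (fun _ : Multiset ℕ => (0 : ℚ)) g P = 0 := by
      simp [conv]
    rw [h1, add_zero]

theorem tutte_zero (P : Multiset ℕ) : conM (0 ::ₘ P) = if P = 0 then X else 0 := by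
  apply Polynomial.funext
  intro x
  have h1 : (if P = 0 then (X : ℚ[X]) else 0).eval x = if P = 0 then x else 0 := by
    split_ifs
    · rw [Polynomial.eval_X]
    · rw [Polynomial.eval_zero]
  rw [h1]
  refine cancel x (f := fun P => KK0 x (0 ::ₘ P)) (g := fun P => if P = 0 then x else 0) (fun P => ?_) P
  rw [tt_cons, conv_delta]
  have h2 := congrArg (Polynomial.eval x) (totM_cons_zero P)
  rw [Polynomial.eval_mul, Polynomial.eval_X] at h2
  exact h2

end SYS.A
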